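import Pool.Agent.Lib.MP_506ba8_co.P50.Iface

/-!
Row Cov: a choice of sign vectors at the vertices of the grid for which no hybrid is bad.
-/

open Finset

namespace Pool.Agent.Lib.MP_506ba8_co.P50

/-- the vertices of the cell `p` -/
def cellV {k N : ℕ} (p : Fin (k + 1) → Fin (N + 1)) : Finset (Fin (k + 1) → Fin (N + 2)) :=
  univ.filter (fun v => ∀ i, v i = (p i).succ ∨ v i = (p i).castSucc)

theorem vtx_mem_cellV {k N : ℕ} (p : Fin (k + 1) → Fin (N + 1)) (x : Fin (k + 1) → ℝ) (j : ℕ) :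
    vtx p x j ∈ cellV p := by
  unfold cellV vtx
  simp only [mem_filter, mem_univ, true_and]
  intro i
  by_cases h : x i ≤ (j : ℝ)
  · left; simp [h]
  · right; simp [h]

/-- the rank of `j` in `I` -/
def rk {m : ℕ} (I : Finset (Fin m)) (j : Fin m) : ℕ := (I.filter (fun j' => j' < j)).card

/-- the pattern with ranks `r` -/
def pat {k N m : ℕ} (p : Fin (k + 1) → Fin (N + 1)) (I : Finset (Fin m)) {Q : ℕ}
    (r : Fin (k + 1) → Fin (Q + 1)) (j : Fin m) : Fin (k + 1) → Fin (N + 2) :=
  fun i => if (r i : ℕ) ≤ rk I j then (p i).succ else (p i).castSucc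

theorem pat_eq_vtx {k N m Q : ℕ} (p : Fin (k + 1) → Fin (N + 1)) (I : Finset (Fin m))
    (hI : I.card ≤ Q) (x : Fin (k + 1) → ℝ) :
    ∃ r : Fin (k + 1) → Fin (Q + 1), ∀ j ∈ I, pat p I r j = vtx p x j := by
  classical
  have hlt : ∀ i, (I.filter (fun j' : Fin m => ((j' : ℕ) : ℝ) < x i)).card < Q + 1 := fun i =>
    Nat.lt_succ_of_le (le_trans (card_filter_le _ _) hI)
  refine ⟨fun i => ⟨(I.filter (fun j' : Fin m => ((j' : ℕ) : ℝ) < x i)).card, hlt i⟩, ?_⟩
  intro j hj
  funext i
  unfold pat vtx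
  simp only
  by_cases h : x i ≤ ((j : ℕ) : ℝ)
  · have h2 : (I.filter (fun j' : Fin m => ((j' : ℕ) : ℝ) < x i)).card ≤ rk I j := by
      unfold rk
      apply card_le_card
      intro j' hj'
      rw [mem_filter] at hj' ⊢
      refine ⟨hj'.1, ?_⟩
      have : ((j' : ℕ) : ℝ) < ((j : ℕ) : ℝ) := lt_of_lt_of_le hj'.2 h
      exact_mod_cast this
    simp [h, h2]
  · have h2 : rk I j < (I.filter (fun j' : Fin m => ((j' : ℕ) : ℝ) < x i)).card := by
      unfold rk
      apply card_lt_card
      rw [Finset.ssubset_iff_of_subset]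
      · refine ⟨j, ?_, ?_⟩
        · rw [mem_filter]
          exact ⟨hj, not_le.mp h⟩
        · simp
      · intro j' hj'
        rw [mem_filter] at hj' ⊢
        refine ⟨hj'.1, lt_of_le_of_lt ?_ (not_le.mp h)⟩
        have : (j' : ℕ) < (j : ℕ) := hj'.2
        exact_mod_cast this.le
    have h3 : ¬ ((I.filter (fun j' : Fin m => ((j' : ℕ) : ℝ) < x i)).card ≤ rk I j) :=
      not_le.mpr h2
    rw [if_neg h, if_neg h3]

/-- for a fixed pattern the hybrid is uniformly distributed -/
theorem card_hybrid {V : Type} [Fintype V] [DecidableEq V] {m : ℕ} (π : Fin m → V)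
    (B : Finset (Fin m → Bool)) :
    (univ.filter (fun ω : V → Fin m → Bool => (fun j => ω (π j) j) ∈ B)).card * 2 ^ m =
      B.card * (2 ^ m) ^ Fintype.card V := by
  classical
  have key : ∀ a : Fin m → Bool,
      (univ.filter (fun ω : V → Fin m → Bool => (fun j => ω (π j) j) ∈ B)).card =
      (univ.filter (fun ω : V → Fin m → Bool =>
        (fun j => xor (ω (π j) j) (a j)) ∈ B)).card := by
    intro a
    have hinj : Function.Injective (fun (ω : V → Fin m → Bool) => fun v j => xor (ω v j) (a j)) := by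
      intro ω ω' h
      funext v j
      have := congrFun (congrFun h v) j
      simpa using this
    refine card_bij (fun ω _ => fun v j => xor (ω v j) (a j)) ?_ ?_ ?_
    · intro ω hω
      rw [mem_filter] at hω ⊢
      refine ⟨mem_univ _, ?_⟩
      have : (fun j => xor (xor (ω (π j) j) (a j)) (a j)) = (fun j => ω (π j) j) := by
        funext j
        simp
      rw [this]
      exact hω.2
    · intro ω _ ω' _ h
      exact hinj h
    · intro ω hω
      rw [mem_filter] at hω
      refine ⟨fun v j => xor (ω v j) (a j), ?_, ?_⟩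
      · rw [mem_filter]
        exact ⟨mem_univ _, hω.2⟩
      · funext v j
        simp
  have hsum : ∑ a : Fin m → Bool,
      (univ.filter (fun ω : V → Fin m → Bool => (fun j => xor (ω (π j) j) (a j)) ∈ B)).card =
      ∑ ω : V → Fin m → Bool,
        (univ.filter (fun a : Fin m → Bool => (fun j => xor (ω (π j) j) (a j)) ∈ B)).card := by
    simp only [card_filter]
    rw [sum_comm]
  have hB : ∀ ω : V → Fin m → Bool,
      (univ.filter (fun a : Fin m → Bool => (fun j => xor (ω (π j) j) (a j)) ∈ B)).card =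
        B.card := by
    intro ω
    refine card_bij (fun a _ => fun j => xor (ω (π j) j) (a j)) ?_ ?_ ?_
    · intro a ha
      rw [mem_filter] at ha
      exact ha.2
    · intro a _ a' _ h
      funext j
      have := congrFun h j
      simpa using this
    · intro b hb
      refine ⟨fun j => xor (ω (π j) j) (b j), ?_, ?_⟩
      · rw [mem_filter]
        refine ⟨mem_univ _, ?_⟩
        have : (fun j => xor (ω (π j) j) (xor (ω (π j) j) (b j))) = b := by
          funext j
          rw [← Bool.xor_assoc]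
          simp
        rw [this]
        exact hb
      · funext j
        rw [← Bool.xor_assoc]
        simp
  rw [sum_congr rfl (fun ω _ => hB ω), sum_congr rfl (fun a _ => (key a).symm)] at hsum
  simp only [sum_const, card_univ, smul_eq_mul, Fintype.card_pi, Fintype.card_bool,
    prod_const, Fintype.card_fin] at hsum
  rw [mul_comm, hsum, mul_comm]

theorem card_meet {k N : ℕ} (p : Fin (k + 1) → Fin (N + 1)) :
    (univ.filter (fun c' : (Fin (k + 1) → Fin (N + 1)) × (Fin (k + 1) → Bool) =>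
      ¬ Disjoint (cellV p) (cellV c'.1))).card ≤ 6 ^ (k + 1) := by
  classical
  have hb : ∀ c' : (Fin (k + 1) → Fin (N + 1)) × (Fin (k + 1) → Bool),
      ¬ Disjoint (cellV p) (cellV c'.1) → ∀ i,
        (p i : ℕ) ≤ (c'.1 i : ℕ) + 1 ∧ (c'.1 i : ℕ) + 1 - (p i : ℕ) ≤ 2 := by
    intro c' hc i
    rw [Finset.not_disjoint_iff] at hc
    obtain ⟨v, hv, hv'⟩ := hc
    unfold cellV at hv hv'
    simp only [mem_filter, mem_univ, true_and] at hv hv'
    rcases hv i with h1 | h1 <;> rcases hv' i with h2 | h2 <;>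
    · have h3 := congrArg Fin.val (h1.symm.trans h2)
      simp at h3
      omega
  let f : (Fin (k + 1) → Fin (N + 1)) × (Fin (k + 1) → Bool) →
      (Fin (k + 1) → Fin 3) × (Fin (k + 1) → Bool) := fun c' =>
    (fun i => ⟨min 2 ((c'.1 i : ℕ) + 1 - (p i : ℕ)), by omega⟩, c'.2)
  have h1 : (univ.filter (fun c' : (Fin (k + 1) → Fin (N + 1)) × (Fin (k + 1) → Bool) =>
      ¬ Disjoint (cellV p) (cellV c'.1))).card ≤
      (univ : Finset ((Fin (k + 1) → Fin 3) × (Fin (k + 1) → Bool))).card := by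
    refine card_le_card_of_injOn f (fun _ _ => mem_coe.mpr (mem_univ _)) ?_
    intro c hc c' hc' h
    rw [mem_coe, mem_filter] at hc hc'
    have h2 := hb c hc.2
    have h3 := hb c' hc'.2
    have e1 : c.1 = c'.1 := by
      funext i
      have h4 : min 2 ((c.1 i : ℕ) + 1 - (p i : ℕ)) = min 2 ((c'.1 i : ℕ) + 1 - (p i : ℕ)) := by
        have := congrFun (congrArg Prod.fst h) i
        exact congrArg Fin.val this
      have h5 := h2 i
      have h6 := h3 i
      apply Fin.ext
      omega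
    have e2 : c.2 = c'.2 := by
      have h7 : (f c).2 = (f c').2 := congrArg Prod.snd h
      exact h7
    exact Prod.ext e1 e2
  refine le_trans h1 ?_
  rw [card_univ, Fintype.card_prod, Fintype.card_pi, Fintype.card_pi]
  simp only [Fintype.card_fin, Fintype.card_bool, prod_const, card_univ]
  rw [← mul_pow]
  norm_num

theorem cov_proof (h : LllStatement) : CovStatement := by
  classical
  intro k m N Q ρ I B hI hloc hB hρ hnum
  let V := Fin (k + 1) → Fin (N + 2)
  let C := (Fin (k + 1) → Fin (N + 1)) × (Fin (k + 1) → Bool)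
  have hcard : ∀ c : C, (({ω : V → Fin m → Bool | ∃ x : Fin (k + 1) → ℝ,
      (fun j : Fin m => ω (vtx c.1 x j) j) ∈ B c.1 c.2} : Set (V → Fin m → Bool)).ncard : ℝ) ≤
      ((Q : ℝ) + 1) ^ (k + 1) * ρ *
        (Fintype.card (Fin m → Bool) : ℝ) ^ Fintype.card V := by
    intro c
    obtain ⟨p, s⟩ := c
    let Er : (Fin (k + 1) → Fin (Q + 1)) → Finset (V → Fin m → Bool) := fun r =>
      univ.filter (fun ω => (fun j => ω (pat p (I p s) r j) j) ∈ B p s)
    have hsub : ({ω : V → Fin m → Bool | ∃ x : Fin (k + 1) → ℝ,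
        (fun j : Fin m => ω (vtx p x j) j) ∈ B p s} : Set (V → Fin m → Bool)) ⊆
        ((univ.biUnion Er : Finset (V → Fin m → Bool)) : Set (V → Fin m → Bool)) := by
      intro ω hω
      obtain ⟨x, hx⟩ := hω
      obtain ⟨r, hr⟩ := pat_eq_vtx p (I p s) (hI p s) x
      rw [mem_coe, mem_biUnion]
      refine ⟨r, mem_univ _, ?_⟩
      rw [mem_filter]
      refine ⟨mem_univ _, ?_⟩
      refine hloc p s (fun j : Fin m => ω (vtx p x j) j) _ ?_ hx
      intro j hj
      show ω (vtx p x j) j = ω (pat p (I p s) r j) j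
      rw [hr j hj]
    have h1 : ({ω : V → Fin m → Bool | ∃ x : Fin (k + 1) → ℝ,
        (fun j : Fin m => ω (vtx p x j) j) ∈ B p s} : Set (V → Fin m → Bool)).ncard ≤
        (univ.biUnion Er).card := by
      have := Set.ncard_le_ncard hsub (Set.toFinite _)
      rwa [Set.ncard_coe_finset] at this
    have h2 : (univ.biUnion Er).card ≤ ∑ r, (Er r).card := card_biUnion_le
    have h3 : ∀ r, ((Er r).card : ℝ) ≤ ρ * ((2 : ℝ) ^ m) ^ Fintype.card V := by
      intro r
      have h4 := card_hybrid (V := V) (fun j => pat p (I p s) r j) (B p s)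
      have h5 : ((Er r).card : ℝ) * 2 ^ m = ((B p s).card : ℝ) * (2 ^ m) ^ Fintype.card V := by
        exact_mod_cast h4
      have h6 : ((B p s).card : ℝ) ≤ 2 ^ m * ρ := hB p s
      have h7 : (0 : ℝ) < 2 ^ m := by positivity
      have h8 : ((Er r).card : ℝ) * 2 ^ m ≤ (ρ * ((2 : ℝ) ^ m) ^ Fintype.card V) * 2 ^ m := by
        rw [h5]
        have : (0 : ℝ) ≤ ((2 : ℝ) ^ m) ^ Fintype.card V := by positivity
        calc ((B p s).card : ℝ) * (2 ^ m) ^ Fintype.card V
            ≤ (2 ^ m * ρ) * (2 ^ m) ^ Fintype.card V := mul_le_mul_of_nonneg_right h6 this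
          _ = (ρ * ((2 : ℝ) ^ m) ^ Fintype.card V) * 2 ^ m := by ring
      exact le_of_mul_le_mul_right h8 h7
    have hα : (Fintype.card (Fin m → Bool) : ℝ) = 2 ^ m := by
      simp
    rw [hα]
    calc (({ω : V → Fin m → Bool | ∃ x : Fin (k + 1) → ℝ,
        (fun j : Fin m => ω (vtx p x j) j) ∈ B p s} : Set (V → Fin m → Bool)).ncard : ℝ)
        ≤ ((univ.biUnion Er).card : ℝ) := by exact_mod_cast h1
      _ ≤ ((∑ r, (Er r).card : ℕ) : ℝ) := by exact_mod_cast h2
      _ = ∑ r, ((Er r).card : ℝ) := by push_cast; rfl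
      _ ≤ ∑ _r : Fin (k + 1) → Fin (Q + 1), ρ * ((2 : ℝ) ^ m) ^ Fintype.card V :=
          sum_le_sum (fun r _ => h3 r)
      _ = ((Q : ℝ) + 1) ^ (k + 1) * ρ * ((2 : ℝ) ^ m) ^ Fintype.card V := by
          rw [sum_const, card_univ, Fintype.card_pi]
          simp only [Fintype.card_fin, prod_const, card_univ, nsmul_eq_mul]
          push_cast
          ring
  obtain ⟨ω, hω⟩ := h V (Fin m → Bool) C (fun c => cellV c.1)
    (fun c => {ω : V → Fin m → Bool | ∃ x : Fin (k + 1) → ℝ,
      (fun j : Fin m => ω (vtx c.1 x j) j) ∈ B c.1 c.2})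
    (((Q : ℝ) + 1) ^ (k + 1) * ρ) (6 ^ (k + 1))
    (by
      intro c ω ω' hv hω
      obtain ⟨x, hx⟩ := hω
      refine ⟨x, ?_⟩
      have : (fun j : Fin m => ω' (vtx c.1 x j) j) = (fun j : Fin m => ω (vtx c.1 x j) j) := by
        funext j
        rw [hv _ (vtx_mem_cellV c.1 x j)]
      rw [this]
      exact hx)
    hcard
    (by
      intro c
      exact card_meet c.1)
    (Nat.one_le_pow _ _ (by norm_num))
    (by
      push_cast
      calc 4 * (((Q : ℝ) + 1) ^ (k + 1) * ρ) * 6 ^ (k + 1)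
          = 4 * (6 * ((Q : ℝ) + 1)) ^ (k + 1) * ρ := by rw [mul_pow]; ring
        _ ≤ 1 := hnum)
  refine ⟨ω, ?_⟩
  intro p s x hx
  exact hω (p, s) ⟨x, hx⟩

end Pool.Agent.Lib.MP_506ba8_co.P50
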