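import Pool.Agent.Lib.MP_506ba8_co.P50.Iface

/-!
Row Ext: the multilinear extension (continuity, oddness, linear functions).
-/

open Finset

namespace Pool.Agent.Lib.MP_506ba8_co.P50

theorem wt_neg {m : ℕ} (y : Fin m → ℝ) (x : Fin m → Bool) :
    wt (fun j => (1 + (-y) j) / 2) x = wt (fun j => (1 + y j) / 2) (fun j => !(x j)) := by
  unfold wt
  refine Finset.prod_congr rfl fun j _ => ?_
  cases h : x j
  · simp only [h, Pi.neg_apply, Bool.not_false, Bool.false_eq_true, if_false, if_true]
    ring
  · simp only [h, Pi.neg_apply, Bool.not_true, Bool.false_eq_true, if_false, if_true]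
    ring

/-- the sum of a product over all sign vectors -/
theorem sum_prod_bool {m : ℕ} (f : Fin m → Bool → ℝ) :
    ∑ x : Fin m → Bool, ∏ i, f i (x i) = ∏ i, (f i true + f i false) := by
  have h := Finset.prod_univ_sum (fun _ : Fin m => (Finset.univ : Finset Bool)) f
  rw [Fintype.piFinset_univ] at h
  rw [← h]
  refine Finset.prod_congr rfl fun i _ => ?_
  simp

theorem sum_wt_sg {m : ℕ} (p : Fin m → ℝ) (j : Fin m) :
    ∑ x, wt p x * sg (x j) = 2 * p j - 1 := by
  have h := sum_prod_bool (fun i b => (if b then p i else 1 - p i) *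
    (if i = j then sg b else 1))
  have h1 : ∀ x : Fin m → Bool, (∏ i, ((if x i then p i else 1 - p i) *
      (if i = j then sg (x i) else 1))) = wt p x * sg (x j) := by
    intro x
    rw [Finset.prod_mul_distrib]
    unfold wt
    congr 1
    rw [Finset.prod_ite_eq' Finset.univ j (fun i => sg (x i))]
    simp
  rw [Finset.sum_congr rfl (fun x _ => h1 x)] at h
  rw [h]
  rw [Finset.prod_eq_single j]
  · simp [sg]; ring
  · intro i _ hi
    simp [hi]
  · intro hj
    exact absurd (Finset.mem_univ j) hj

theorem ext_proof : ExtStatement := by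
  intro m
  refine ⟨?_, ?_, ?_⟩
  · intro g
    unfold ext
    refine continuous_finsetSum _ fun x _ => ?_
    refine Continuous.mul ?_ continuous_const
    unfold wt
    refine continuous_finsetProd _ fun j _ => ?_
    cases h : x j
    · simp only [Bool.false_eq_true, if_false]
      fun_prop
    · simp only [if_true]
      fun_prop
  · intro g hg y
    unfold ext
    rw [← Finset.sum_neg_distrib]
    have hinv : Function.Involutive (fun (x : Fin m → Bool) (j : Fin m) => !(x j)) := by
      intro x
      funext j
      simp
    refine Fintype.sum_equiv hinv.toPerm _ _ fun x => ?_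
    rw [wt_neg]
    change _ = -(wt (fun j => (1 + y j) / 2) (fun j => !(x j)) * g (fun j => !(x j)))
    rw [hg x]
    ring
  · intro c y
    unfold ext
    have h1 : ∀ x : Fin m → Bool,
        wt (fun j => (1 + y j) / 2) x * ∑ j, c j * sg (x j) =
          ∑ j, c j * (wt (fun j => (1 + y j) / 2) x * sg (x j)) := by
      intro x
      rw [Finset.mul_sum]
      refine Finset.sum_congr rfl fun j _ => ?_
      ring
    rw [Finset.sum_congr rfl (fun x _ => h1 x), Finset.sum_comm]
    refine Finset.sum_congr rfl fun j _ => ?_
    rw [← Finset.mul_sum, sum_wt_sg]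
    ring

end Pool.Agent.Lib.MP_506ba8_co.P50
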