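import Pool.Agent.Lib.MP_506ba8_co.P50.Iface
import Pool.Agent.Lib.MP_506ba8_co.H4.Spencer

/-!
Row Fib: a large set of sign vectors on which all functionals are nearly constant.
-/

set_option autoImplicit false
set_option linter.style.longLine false

open Finset

namespace Pool.Agent.Lib.MP_506ba8_co.P50

namespace FibRow

open Pool.Agent.Lib.MP_506ba8_co.H4 (fv bb sum_exp abs_bb_le sum_weights)

lemma sum_exp_le' {m : ℕ} (c : Fin m → ℝ) {T : ℝ} (hc : ∑ j, c j ^ 2 ≤ T) (η : ℝ) :
    ∑ x : Fin m → Bool, Real.exp (η * fv c x) ≤ 2 ^ m * Real.exp (η ^ 2 * T / 2) := by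
  rw [sum_exp]
  have h1 : ∀ j ∈ (Finset.univ : Finset (Fin m)),
      (Real.exp (η * c j) + Real.exp (-(η * c j))) ≤ 2 * Real.exp ((η * c j) ^ 2 / 2) := by
    intro j _
    have h2 := Real.cosh_le_exp_half_sq (η * c j)
    rw [Real.cosh_eq] at h2
    linarith
  calc _ ≤ ∏ j : Fin m, (2 * Real.exp ((η * c j) ^ 2 / 2)) :=
        Finset.prod_le_prod (fun j _ => by positivity) h1
    _ = 2 ^ m * Real.exp (∑ j, (η * c j) ^ 2 / 2) := by
        rw [Finset.prod_mul_distrib, Finset.prod_const, Finset.card_univ, Fintype.card_fin,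
          Real.exp_sum]
    _ ≤ _ := by
        apply mul_le_mul_of_nonneg_left _ (by positivity)
        apply Real.exp_le_exp.2
        have : ∑ j, (η * c j) ^ 2 / 2 = η ^ 2 * (∑ j, c j ^ 2) / 2 := by
          rw [Finset.mul_sum, Finset.sum_div]
          refine Finset.sum_congr rfl fun j _ => ?_
          ring
        rw [this]
        have := mul_le_mul_of_nonneg_left hc (sq_nonneg η)
        linarith

/-- the pigeonhole principle with weights -/
lemma fiber {n m : ℕ} (b : Fin n → Fin m → ℝ) (L γ B : ℝ) (hγ0 : 0 < γ) (hγ1 : γ < 1)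
    (hB : 0 < B) (hE : ∑ i, ∑ x : Fin m → Bool, |(bb L (b i) x : ℝ)| ≤ 2 ^ m * (B / 2)) :
    ∃ A : Finset (Fin m → Bool),
      (2 : ℝ) ^ m / 2 * (((1 - γ) / (1 + γ)) ^ n * Real.exp (B * Real.log γ)) ≤ (A.card : ℝ) ∧
      ∀ u ∈ A, ∀ v ∈ A, ∀ i, bb L (b i) u = bb L (b i) v := by
  classical
  set f : (Fin m → Bool) → Fin n → ℤ := fun x i => bb L (b i) x with hf
  set w : (Fin n → ℤ) → ℝ := fun t => ∏ i, ((1 - γ) / (1 + γ) * γ ^ (t i).natAbs) with hw
  have hg0 : 0 < (1 - γ) / (1 + γ) := div_pos (by linarith) (by linarith)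
  have hw0 : ∀ t, 0 ≤ w t := fun t => Finset.prod_nonneg fun i _ => by positivity
  set Bx : (Fin m → Bool) → ℝ := fun x => ∑ i, |(f x i : ℝ)| with hBx
  have hBsum : ∑ x : Fin m → Bool, Bx x ≤ 2 ^ m * (B / 2) := by
    simp only [hBx]
    rw [Finset.sum_comm]
    exact hE
  -- at least half of the vectors are good
  have hgood : (2 : ℝ) ^ m / 2 ≤ ((Finset.univ.filter (fun x => Bx x ≤ B)).card : ℝ) := by
    have h1 : ((Finset.univ.filter (fun x => ¬ Bx x ≤ B)).card : ℝ) * B ≤ 2 ^ m * (B / 2) := by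
      calc _ = ∑ x ∈ Finset.univ.filter (fun x => ¬ Bx x ≤ B), B := by
            rw [Finset.sum_const, nsmul_eq_mul]
        _ ≤ ∑ x ∈ Finset.univ.filter (fun x => ¬ Bx x ≤ B), Bx x := by
            refine Finset.sum_le_sum fun x hx => ?_
            have := (Finset.mem_filter.1 hx).2
            linarith [not_le.1 this]
        _ ≤ ∑ x, Bx x := Finset.sum_le_sum_of_subset_of_nonneg (Finset.filter_subset _ _)
            fun x _ _ => Finset.sum_nonneg fun i _ => abs_nonneg _
        _ ≤ _ := hBsum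
    have h2 : ((Finset.univ.filter (fun x => Bx x ≤ B)).card : ℝ) +
        ((Finset.univ.filter (fun x => ¬ Bx x ≤ B)).card : ℝ) = 2 ^ m := by
      have := Finset.card_filter_add_card_filter_not (s := (Finset.univ : Finset (Fin m → Bool)))
        (fun x => Bx x ≤ B)
      rw [Finset.card_univ, Fintype.card_fun, Fintype.card_bool, Fintype.card_fin] at this
      exact_mod_cast this
    have h3 : ((Finset.univ.filter (fun x => ¬ Bx x ≤ B)).card : ℝ) ≤ 2 ^ m / 2 := by
      refine le_of_mul_le_mul_right ?_ hB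
      linarith
    linarith
  have hlogγ : Real.log γ ≤ 0 := Real.log_nonpos hγ0.le hγ1.le
  have hwlow : ∀ x, Bx x ≤ B →
      ((1 - γ) / (1 + γ)) ^ n * Real.exp (B * Real.log γ) ≤ w (f x) := by
    intro x hx
    simp only [hw]
    rw [Finset.prod_mul_distrib, Finset.prod_const, Finset.card_univ, Fintype.card_fin,
      Finset.prod_pow_eq_pow_sum]
    apply mul_le_mul_of_nonneg_left _ (by positivity)
    have e1 : ((∑ i, (f x i).natAbs : ℕ) : ℝ) = Bx x := by
      simp only [hBx]
      push_cast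
      refine Finset.sum_congr rfl fun i _ => ?_
      rw [Nat.cast_natAbs, Int.cast_abs]
    have e2 : γ ^ (∑ i, (f x i).natAbs) = Real.exp (Bx x * Real.log γ) := by
      rw [← e1, Real.exp_nat_mul, Real.exp_log hγ0]
    rw [e2]
    apply Real.exp_le_exp.2
    nlinarith
  have hlow : (2 : ℝ) ^ m / 2 * (((1 - γ) / (1 + γ)) ^ n * Real.exp (B * Real.log γ)) ≤
      ∑ x : Fin m → Bool, w (f x) := by
    calc _ ≤ ((Finset.univ.filter (fun x => Bx x ≤ B)).card : ℝ) *
          (((1 - γ) / (1 + γ)) ^ n * Real.exp (B * Real.log γ)) :=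
          mul_le_mul_of_nonneg_right hgood (by positivity)
      _ = ∑ x ∈ Finset.univ.filter (fun x => Bx x ≤ B),
          (((1 - γ) / (1 + γ)) ^ n * Real.exp (B * Real.log γ)) := by
          rw [Finset.sum_const, nsmul_eq_mul]
      _ ≤ ∑ x ∈ Finset.univ.filter (fun x => Bx x ≤ B), w (f x) :=
          Finset.sum_le_sum fun x hx => hwlow x (Finset.mem_filter.1 hx).2
      _ ≤ _ := Finset.sum_le_sum_of_subset_of_nonneg (Finset.filter_subset _ _)
          fun x _ _ => hw0 _
  -- the largest fibre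
  obtain ⟨t, ht, hmax⟩ := Finset.exists_max_image (Finset.univ.image f)
    (fun t => (Finset.univ.filter (fun x => f x = t)).card)
    (Finset.image_nonempty.2 Finset.univ_nonempty)
  refine ⟨Finset.univ.filter (fun x => f x = t), hlow.trans ?_, ?_⟩
  · have h1 : ∑ x : Fin m → Bool, w (f x) =
        ∑ t ∈ Finset.univ.image f, ∑ x ∈ Finset.univ.filter (fun x => f x = t), w (f x) := by
      rw [Finset.sum_fiberwise_of_maps_to
        (fun x _ => Finset.mem_image_of_mem f (Finset.mem_univ x))]
    rw [h1]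
    have h2 : ∀ s ∈ Finset.univ.image f,
        ∑ x ∈ Finset.univ.filter (fun x => f x = s), w (f x) ≤
          ((Finset.univ.filter (fun x => f x = t)).card : ℝ) * w s := by
      intro s hs
      have h3 : ∑ y ∈ Finset.univ.filter (fun y => f y = s), w (f y) =
          (Finset.univ.filter (fun y => f y = s)).card * w s := by
        rw [Finset.sum_congr rfl (fun y hy => by rw [(Finset.mem_filter.1 hy).2]),
          Finset.sum_const, nsmul_eq_mul]
      rw [h3]
      apply mul_le_mul_of_nonneg_right _ (hw0 s)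
      exact_mod_cast hmax s hs
    calc _ ≤ ∑ s ∈ Finset.univ.image f,
          ((Finset.univ.filter (fun x => f x = t)).card : ℝ) * w s := Finset.sum_le_sum h2
      _ = ((Finset.univ.filter (fun x => f x = t)).card : ℝ) *
          ∑ s ∈ Finset.univ.image f, w s := by rw [Finset.mul_sum]
      _ ≤ ((Finset.univ.filter (fun x => f x = t)).card : ℝ) * 1 := by
          apply mul_le_mul_of_nonneg_left _ (by positivity)
          exact sum_weights hγ0.le hγ1 _
      _ = _ := mul_one _
  · intro u hu v hv i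
    rw [Finset.mem_filter] at hu hv
    exact congrFun (hu.2.trans hv.2.symm) i

/-- equal boxes mean nearly equal values -/
lemma close_of_bb {m : ℕ} (c : Fin m → ℝ) {L : ℝ} (hL : 0 < L) (u v : Fin m → Bool)
    (h : bb L c u = bb L c v) : |∑ j, c j * ((sg (u j) - sg (v j)) / 2)| ≤ L := by
  have e1 : ∑ j, c j * ((sg (u j) - sg (v j)) / 2) = (fv c u - fv c v) / 2 := by
    rw [fv, fv, ← Finset.sum_sub_distrib, Finset.sum_div]
    refine Finset.sum_congr rfl fun j _ => ?_
    simp only [sg, H4.sg]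
    ring
  have e3 := Int.abs_sub_lt_one_of_floor_eq_floor h
  have e4 : fv c u / (2 * L) + 1 / 2 - (fv c v / (2 * L) + 1 / 2) =
      (fv c u - fv c v) / (2 * L) := by ring
  rw [e4, abs_div, abs_of_pos (by linarith : (0 : ℝ) < 2 * L), div_lt_one (by linarith)] at e3
  rw [e1, abs_div, abs_of_pos (by norm_num : (0 : ℝ) < 2)]
  linarith

/-- small widths: the rounded value is at most twice the value -/
lemma abs_bb_le_two {m : ℕ} (c : Fin m → ℝ) {L : ℝ} (hL : 0 < L) (x : Fin m → Bool) :
    |(bb L c x : ℝ)| ≤ |fv c x| / L := by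
  set f := fv c x with hf
  by_cases h : |f| < L
  · have h0 : bb L c x = 0 := by
      rw [bb, Int.floor_eq_zero_iff]
      rw [abs_lt] at h
      constructor
      · have : -(1 / 2) ≤ f / (2 * L) := by
          rw [le_div_iff₀ (by linarith)]
          linarith
        linarith
      · have : f / (2 * L) < 1 / 2 := by
          rw [div_lt_iff₀ (by linarith)]
          linarith
        linarith
    rw [h0]
    simp only [Int.cast_zero, abs_zero]
    positivity
  · push Not at h
    have h1 : |(bb L c x : ℝ)| ≤ |f| / (2 * L) + 1 / 2 := by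
      have e1 := Int.floor_le (f / (2 * L) + 1 / 2)
      have e2 := Int.lt_floor_add_one (f / (2 * L) + 1 / 2)
      have e3 : |f| / (2 * L) = |f / (2 * L)| := by
        rw [abs_div, abs_of_pos (by linarith : (0:ℝ) < 2 * L)]
      rw [e3, abs_le]
      have e4 := neg_abs_le (f / (2 * L))
      have e5 := le_abs_self (f / (2 * L))
      unfold bb
      constructor <;> linarith
    have e1 : 1 ≤ |f| / L := by
      rw [le_div_iff₀ hL]
      linarith
    have e2 : |f| / (2 * L) = (|f| / L) / 2 := by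
      field_simp
    rw [e2] at h1
    linarith

/-- first case: few points -/
lemma sum_bb_big {m : ℕ} (c : Fin m → ℝ) {T L : ℝ} (hT : 0 < T) (hL : 0 < L)
    (hc : ∑ j, c j ^ 2 ≤ T) (hLT : T ≤ L ^ 2) :
    ∑ x : Fin m → Bool, |(bb L c x : ℝ)| ≤ 2 ^ m * (2 * Real.exp (-(L ^ 2 / (2 * T)))) := by
  set η := L / T with hη
  have h1 : 1 ≤ η * L := by
    rw [hη, div_mul_eq_mul_div, le_div_iff₀ hT]
    nlinarith
  have h2 : ∑ x : Fin m → Bool, |(bb L c x : ℝ)| ≤ Real.exp (-(η * L)) *
      (∑ x : Fin m → Bool, Real.exp (η * fv c x) +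
        ∑ x : Fin m → Bool, Real.exp ((-η) * fv c x)) := by
    rw [← Finset.sum_add_distrib, Finset.mul_sum]
    exact Finset.sum_le_sum fun x _ => abs_bb_le hL h1 c x
  have h3 := sum_exp_le' c hc η
  have h4 := sum_exp_le' c hc (-η)
  rw [neg_sq] at h4
  have h5 : Real.exp (-(L ^ 2 / (2 * T))) = Real.exp (-(η * L)) * Real.exp (η ^ 2 * T / 2) := by
    rw [← Real.exp_add]
    congr 1
    rw [hη]
    field_simp
    ring
  calc _ ≤ _ := h2
    _ ≤ Real.exp (-(η * L)) * (2 ^ m * Real.exp (η ^ 2 * T / 2) +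
          2 ^ m * Real.exp (η ^ 2 * T / 2)) := by
        apply mul_le_mul_of_nonneg_left _ (Real.exp_pos _).le
        linarith
    _ = _ := by
        rw [h5]
        ring

lemma abs_le_exp_add (t : ℝ) : |t| ≤ Real.exp t + Real.exp (-t) := by
  have h1 := Real.add_one_le_exp t
  have h2 := Real.add_one_le_exp (-t)
  have h3 := Real.exp_pos t
  have h4 := Real.exp_pos (-t)
  rcases abs_cases t with ⟨e, _⟩ | ⟨e, _⟩ <;> rw [e] <;> linarith

/-- second case: small widths -/
lemma sum_bb_small {m : ℕ} (c : Fin m → ℝ) {T L : ℝ} (hT : 0 < T) (hL : 0 < L)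
    (hc : ∑ j, c j ^ 2 ≤ T) :
    ∑ x : Fin m → Bool, |(bb L c x : ℝ)| ≤ 2 ^ m * (4 * (√T / L)) := by
  have hs : 0 < √T := Real.sqrt_pos.2 hT
  set η := 1 / √T with hη
  have hη2 : η ^ 2 * T = 1 := by
    rw [hη, div_pow, Real.sq_sqrt hT.le]
    field_simp
  have h0 : ∀ x : Fin m → Bool, |(bb L c x : ℝ)| ≤
      (√T / L) * (Real.exp (η * fv c x) + Real.exp ((-η) * fv c x)) := by
    intro x
    refine (abs_bb_le_two c hL x).trans ?_
    have e1 : |fv c x| = √T * |η * fv c x| := by
      rw [abs_mul, hη, abs_of_pos (by positivity : 0 < 1 / √T)]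
      field_simp
    have e2 := abs_le_exp_add (η * fv c x)
    rw [e1, mul_div_right_comm]
    apply mul_le_mul_of_nonneg_left _ (by positivity)
    rw [neg_mul]
    exact e2
  have h3 := sum_exp_le' c hc η
  have h4 := sum_exp_le' c hc (-η)
  rw [neg_sq] at h4
  rw [hη2] at h3 h4
  have h5 : Real.exp (1 / 2) ≤ 2 := by
    have e1 : Real.exp (1 / 2) ^ 2 = Real.exp 1 := by
      rw [← Real.exp_nat_mul]
      norm_num
    have e2 := Real.exp_one_lt_d9
    have e3 := Real.exp_pos (1 / 2)
    nlinarith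
  calc _ ≤ ∑ x : Fin m → Bool,
        (√T / L) * (Real.exp (η * fv c x) + Real.exp ((-η) * fv c x)) :=
        Finset.sum_le_sum fun x _ => h0 x
    _ = (√T / L) * (∑ x : Fin m → Bool, Real.exp (η * fv c x) +
        ∑ x : Fin m → Bool, Real.exp ((-η) * fv c x)) := by
        rw [← Finset.sum_add_distrib, Finset.mul_sum]
    _ ≤ (√T / L) * (2 ^ m * 2 + 2 ^ m * 2) := by
        apply mul_le_mul_of_nonneg_left _ (by positivity)
        have : (2 : ℝ) ^ m * Real.exp (1 / 2) ≤ 2 ^ m * 2 :=
          mul_le_mul_of_nonneg_left h5 (by positivity)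
        linarith
    _ = _ := by ring

/-- `y^4 exp (-y) ≤ 24` -/
lemma y4 {y : ℝ} (hy : 0 ≤ y) : y ^ 4 * Real.exp (-y) ≤ 24 := by
  have h1 := Real.pow_div_factorial_le_exp y hy 4
  have h2 : ((Nat.factorial 4 : ℕ) : ℝ) = 24 := by norm_num [Nat.factorial]
  rw [h2, div_le_iff₀ (by norm_num)] at h1
  have h3 : Real.exp y * Real.exp (-y) = 1 := by
    rw [← Real.exp_add]
    simp
  calc y ^ 4 * Real.exp (-y) ≤ (Real.exp y * 24) * Real.exp (-y) :=
        mul_le_mul_of_nonneg_right h1 (Real.exp_pos _).le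
    _ = 24 * (Real.exp y * Real.exp (-y)) := by ring
    _ = 24 := by rw [h3, mul_one]

lemma finish {m : ℕ} {a X Y : ℝ} (ha : 2 ≤ a) (hX : Real.exp (-(a / 4)) ≤ X)
    (hY : Real.exp (-(a / 4)) ≤ Y) :
    (2 : ℝ) ^ m * Real.exp (-a) ≤ 2 ^ m / 2 * (X * Y) := by
  have h1 : Real.exp (-(a / 4)) * Real.exp (-(a / 4)) ≤ X * Y :=
    mul_le_mul hX hY (Real.exp_pos _).le ((Real.exp_pos _).le.trans hX)
  have h2 : Real.exp (-(a / 4)) * Real.exp (-(a / 4)) = Real.exp (-a) * Real.exp (a / 2) := by
    rw [← Real.exp_add, ← Real.exp_add]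
    congr 1
    ring
  have h3 := Real.add_one_le_exp (a / 2)
  have h4 : Real.exp (-a) * 2 ≤ X * Y := by
    calc Real.exp (-a) * 2 ≤ Real.exp (-a) * Real.exp (a / 2) :=
          mul_le_mul_of_nonneg_left (by linarith) (Real.exp_pos _).le
      _ ≤ X * Y := by rw [← h2]; exact h1
  calc (2 : ℝ) ^ m * Real.exp (-a) = 2 ^ m / 2 * (Real.exp (-a) * 2) := by ring
    _ ≤ _ := mul_le_mul_of_nonneg_left h4 (by positivity)

end FibRow

open FibRow Pool.Agent.Lib.MP_506ba8_co.H4 in
theorem fib_proof : FibStatement := by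
  intro η hη
  have hη1 : 0 < 1 / η := by positivity
  have hK1 : (1 : ℝ) ≤ 100000 * (1 + 1 / η) ^ 2 := by nlinarith [sq_nonneg (1 / η)]
  refine ⟨100000 * (1 + 1 / η) ^ 2, hK1, ?_⟩
  intro K hK n m T b hKT hb
  have hK1' : 1 ≤ K := hK1.trans hK
  have hK0 : 0 < K := by linarith
  have hT : 0 < T := by linarith
  have hTb : 100000 * (1 + 1 / η) ^ 2 ≤ T := hK.trans hKT
  have hcancel : η * (1 / η) = 1 := by field_simp
  have ha : 2 ≤ η * T := by
    have e1 : 2 * (1 / η) ≤ T := by nlinarith [sq_nonneg (1 / η)]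
    have e2 := mul_le_mul_of_nonneg_left e1 hη.le
    nlinarith
  by_cases hc : T ≤ K * n
  · -- many functionals
    have hn0 : (0 : ℝ) < n := by
      by_contra h
      have : (n : ℝ) = 0 := le_antisymm (not_lt.1 h) (Nat.cast_nonneg n)
      rw [this] at hc
      linarith
    have hW : Wd K n T = K * √√(n * T) := by rw [Wd, if_pos hc]
    set L : ℝ := K * √√(n * T) with hL
    have hnT : (0 : ℝ) < n * T := by positivity
    have hL0 : 0 < L := by positivity
    have hL2 : L ^ 2 = K ^ 2 * √(n * T) := by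
      rw [hL, mul_pow, Real.sq_sqrt (Real.sqrt_nonneg _)]
    have hL4 : (L ^ 2) ^ 2 = K ^ 4 * (n * T) := by
      rw [hL2, mul_pow, Real.sq_sqrt hnT.le]
      ring
    have hLT : T ≤ L ^ 2 := by
      refine abs_le_of_sq_le_sq' ?_ (by positivity) |>.2
      rw [hL4]
      have e1 : (1 : ℝ) ≤ K ^ 3 := one_le_pow₀ hK1'
      calc T ^ 2 = T * T := by ring
        _ ≤ (K * n) * T := mul_le_mul_of_nonneg_right hc hT.le
        _ = 1 * (K * (n * T)) := by ring
        _ ≤ K ^ 3 * (K * (n * T)) := mul_le_mul_of_nonneg_right e1 (by positivity)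
        _ = _ := by ring
    set y : ℝ := L ^ 2 / (2 * T) with hy
    have hy0 : 0 ≤ y := by positivity
    set q : ℝ := Real.exp (-y) with hq
    have hq0 : 0 < q := Real.exp_pos _
    have hy4 : y ^ 4 * q ≤ 24 := y4 hy0
    have hyn : y ^ 4 = K ^ 8 * n ^ 2 / (16 * T ^ 2) := by
      have : y ^ 4 = ((L ^ 2) ^ 2) ^ 2 / (16 * T ^ 4) := by
        rw [hy]
        field_simp
        ring
      rw [this, hL4]
      field_simp
    set γ : ℝ := η * T / (16 * (1 + η) * K * n) with hγ
    have hγ0 : 0 < γ := by positivity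
    have hγ1 : γ ≤ 1 / 16 := by
      rw [hγ, div_le_div_iff₀ (by positivity) (by norm_num)]
      have e1 : η * T ≤ (1 + η) * (K * n) := mul_le_mul (by linarith) hc hT.le (by linarith)
      linarith
    obtain ⟨A, hA, hAb⟩ := fiber b L γ (4 * n * q) hγ0 (by linarith) (by positivity) (by
      calc _ ≤ ∑ _i : Fin n, (2 : ℝ) ^ m * (2 * Real.exp (-(L ^ 2 / (2 * T)))) :=
            Finset.sum_le_sum fun i _ => sum_bb_big (b i) hT hL0 (hb i) hLT
        _ = n * ((2 : ℝ) ^ m * (2 * Real.exp (-(L ^ 2 / (2 * T))))) := by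
            rw [Finset.sum_const, Finset.card_univ, Fintype.card_fin, nsmul_eq_mul]
        _ ≤ _ := by
            rw [← hy, ← hq]
            apply le_of_eq
            ring)
    refine ⟨A, le_trans (finish ha ?_ ?_) hA, ?_⟩
    · have e1 : Real.exp (-(3 * γ)) ≤ (1 - γ) / (1 + γ) := by
        rw [Real.exp_neg, inv_eq_one_div, div_le_div_iff₀ (Real.exp_pos _) (by linarith)]
        have e2 := Real.add_one_le_exp (3 * γ)
        have e3 : (1 - γ) * (3 * γ + 1) ≤ (1 - γ) * Real.exp (3 * γ) :=
          mul_le_mul_of_nonneg_left e2 (by linarith)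
        nlinarith
      calc Real.exp (-(η * T / 4)) ≤ Real.exp (n * (-(3 * γ))) := by
            apply Real.exp_le_exp.2
            have e4 : n * (3 * γ) = 3 * (η * T) / (16 * ((1 + η) * K)) := by
              rw [hγ]
              field_simp
            have e5 : 3 * (η * T) / (16 * ((1 + η) * K)) ≤ η * T / 4 := by
              rw [div_le_div_iff₀ (by positivity) (by norm_num)]
              have e6 : 1 ≤ (1 + η) * K := by nlinarith
              have e7 : 0 < η * T := by positivity
              nlinarith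
            linarith
        _ = (Real.exp (-(3 * γ))) ^ n := by rw [← Real.exp_nat_mul]
        _ ≤ _ := pow_le_pow_left₀ (Real.exp_pos _).le e1 _
    · apply Real.exp_le_exp.2
      have e1 : Real.log γ = -Real.log (1 / γ) := by
        rw [one_div, Real.log_inv, neg_neg]
      have e2 : Real.log (1 / γ) ≤ 1 / γ := by
        have := Real.log_le_sub_one_of_pos (show 0 < 1 / γ by positivity)
        linarith
      have e3 : 4 * n * q * (1 / γ) ≤ η * T / 4 := by
        have f1 : 4 * n * q * (1 / γ) = 64 * (1 + η) * K * n ^ 2 * q / (η * T) := by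
          rw [hγ]
          field_simp
          ring
        rw [f1, div_le_div_iff₀ (by positivity) (by norm_num)]
        -- 256 (1+η) K n^2 q ≤ η^2 T^2
        have f2 : K ^ 8 * n ^ 2 * q ≤ 384 * T ^ 2 := by
          rw [hyn, div_mul_eq_mul_div, div_le_iff₀ (by positivity)] at hy4
          linarith
        have f3 : 98304 * (1 + η) ≤ η ^ 2 * K ^ 7 := by
          have g1 : K ≤ K ^ 7 := le_self_pow₀ hK1' (by norm_num)
          have g2 : η ^ 2 * (100000 * (1 + 1 / η) ^ 2) ≤ η ^ 2 * K ^ 7 :=
            mul_le_mul_of_nonneg_left (hK.trans g1) (by positivity)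
          have g3 : η ^ 2 * (100000 * (1 + 1 / η) ^ 2) = 100000 * (1 + η) ^ 2 := by
            field_simp
            ring
          have g4 : 98304 * (1 + η) ≤ 100000 * (1 + η) ^ 2 := by nlinarith
          linarith
        have f4 : K ^ 7 * (256 * (1 + η) * K * n ^ 2 * q) ≤ K ^ 7 * (η ^ 2 * T ^ 2) := by
          calc K ^ 7 * (256 * (1 + η) * K * n ^ 2 * q) =
                256 * (1 + η) * (K ^ 8 * n ^ 2 * q) := by ring
            _ ≤ 256 * (1 + η) * (384 * T ^ 2) :=
                mul_le_mul_of_nonneg_left f2 (by positivity)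
            _ = (98304 * (1 + η)) * T ^ 2 := by ring
            _ ≤ (η ^ 2 * K ^ 7) * T ^ 2 := mul_le_mul_of_nonneg_right f3 (by positivity)
            _ = _ := by ring
        have f5 := le_of_mul_le_mul_left f4 (by positivity)
        calc 64 * (1 + η) * K * n ^ 2 * q * 4 = 256 * (1 + η) * K * n ^ 2 * q := by ring
          _ ≤ η ^ 2 * T ^ 2 := f5
          _ = _ := by ring
      rw [e1]
      have e4 : 4 * n * q * Real.log (1 / γ) ≤ 4 * n * q * (1 / γ) :=
        mul_le_mul_of_nonneg_left e2 (by positivity)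
      linarith
    · intro u hu v hv i
      rw [hW]
      exact close_of_bb (b i) hL0 u v (hAb u hu v hv i)
  · -- few functionals
    push Not at hc
    have hW : Wd K n T = n / √T := by rw [Wd, if_neg (not_le.2 hc)]
    rcases Nat.eq_zero_or_pos n with hn | hn
    · subst hn
      refine ⟨Finset.univ, ?_, fun u _ v _ i => i.elim0⟩
      rw [Finset.card_univ, Fintype.card_fun, Fintype.card_bool, Fintype.card_fin]
      push_cast
      have : Real.exp (-(η * T)) ≤ 1 := Real.exp_le_one_iff.2 (by
        have : 0 < η * T := by positivity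
        linarith)
      calc (2 : ℝ) ^ m * Real.exp (-(η * T)) ≤ 2 ^ m * 1 :=
            mul_le_mul_of_nonneg_left this (by positivity)
        _ = _ := mul_one _
    have hn0 : (0 : ℝ) < n := by exact_mod_cast hn
    have hs : 0 < √T := Real.sqrt_pos.2 hT
    have hL0 : 0 < n / √T := by positivity
    set M : ℝ := T / n with hM
    have hMK : K < M := by
      rw [hM, lt_div_iff₀ hn0]
      exact hc
    have hM0 : 0 < M := by linarith
    have hM1 : 1 ≤ M := by linarith
    have hTM : T = n * M := by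
      rw [hM]
      field_simp
    have hMb : 100000 * (1 + 1 / η) ^ 2 ≤ M := by linarith
    set γ : ℝ := M / (1 + M) with hγ
    have hγ0 : 0 < γ := by positivity
    have hγ1 : γ < 1 := by
      rw [hγ, div_lt_one (by positivity)]
      linarith
    obtain ⟨A, hA, hAb⟩ := fiber b (n / √T) γ (8 * T) hγ0 hγ1 (by positivity) (by
      calc _ ≤ ∑ _i : Fin n, (2 : ℝ) ^ m * (4 * (√T / (n / √T))) :=
            Finset.sum_le_sum fun i _ => sum_bb_small (b i) hT hL0 (hb i)
        _ = n * ((2 : ℝ) ^ m * (4 * (√T / (n / √T)))) := by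
            rw [Finset.sum_const, Finset.card_univ, Fintype.card_fin, nsmul_eq_mul]
        _ = (2 : ℝ) ^ m * (4 * (√T * √T)) := by
            field_simp
        _ ≤ _ := by
            rw [Real.mul_self_sqrt hT.le]
            apply le_of_eq
            ring)
    refine ⟨A, le_trans (finish ha ?_ ?_) hA, ?_⟩
    · -- `(1-γ)/(1+γ) = 1/(1+2M)`
      have e1 : (1 - γ) / (1 + γ) = 1 / (1 + 2 * M) := by
        rw [hγ]
        field_simp
        ring
      have e2 : Real.exp (-(η * M / 4)) ≤ (1 - γ) / (1 + γ) := by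
        rw [e1, Real.exp_neg, inv_eq_one_div]
        apply one_div_le_one_div_of_le (by positivity)
        -- 1 + 2 M ≤ exp (η M / 4)
        have f1 := Real.quadratic_le_exp_of_nonneg (show 0 ≤ η * M / 4 by positivity)
        have f2 : 64 ≤ η ^ 2 * M := by
          have g1 : η ^ 2 * (100000 * (1 + 1 / η) ^ 2) ≤ η ^ 2 * M :=
            mul_le_mul_of_nonneg_left hMb (by positivity)
          have g3 : η ^ 2 * (100000 * (1 + 1 / η) ^ 2) = 100000 * (1 + η) ^ 2 := by
            field_simp
            ring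
          nlinarith
        have f3 : 64 * M ≤ η ^ 2 * M * M := mul_le_mul_of_nonneg_right f2 hM0.le
        have f4 : (η * M / 4) ^ 2 / 2 = η ^ 2 * M * M / 32 := by ring
        have f5 : 0 ≤ η * M / 4 := by positivity
        linarith
      calc Real.exp (-(η * T / 4)) = Real.exp (n * (-(η * M / 4))) := by
            congr 1
            rw [hTM]
            ring
        _ = (Real.exp (-(η * M / 4))) ^ n := by rw [← Real.exp_nat_mul]
        _ ≤ _ := pow_le_pow_left₀ (Real.exp_pos _).le e2 _
    · apply Real.exp_le_exp.2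
      have e1 : Real.log γ = -Real.log (1 / γ) := by
        rw [one_div, Real.log_inv, neg_neg]
      have e2 : Real.log (1 / γ) ≤ 1 / M := by
        have := Real.log_le_sub_one_of_pos (show 0 < 1 / γ by positivity)
        have h2 : 1 / γ = 1 + 1 / M := by
          rw [hγ]
          field_simp
          ring
        linarith
      have e3 : 8 * T * (1 / M) ≤ η * T / 4 := by
        have f1 : 32 ≤ η * M := by
          have g1 : 32 * (1 / η) ≤ M := by nlinarith [sq_nonneg (1 / η)]
          have g2 := mul_le_mul_of_nonneg_left g1 hη.le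
          nlinarith
        have f2 : 32 * (1 / M) ≤ η := by
          rw [mul_one_div, div_le_iff₀ hM0]
          exact f1
        nlinarith
      rw [e1]
      have e4 : 8 * T * Real.log (1 / γ) ≤ 8 * T * (1 / M) :=
        mul_le_mul_of_nonneg_left e2 (by positivity)
      linarith
    · intro u hu v hv i
      rw [hW]
      exact close_of_bb (b i) hL0 u v (hAb u hu v hv i)

end Pool.Agent.Lib.MP_506ba8_co.P50
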