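import Pool.Agent.Lib.MP_506ba8_co.P50.Iface

/-!
Row Hoe (helper56): Hoeffding for a random sign vector against a fixed one.
-/

open Finset

namespace Pool.Agent.Lib.MP_506ba8_co.P50

namespace Hoe

/-- the midpoint form of `cosh x ≤ exp (x ^ 2 / 2)` -/
theorem half_exp (a b c : ℝ) (h : |a - b| ≤ c) :
    1 / 2 * Real.exp a + (1 - 1 / 2) * Real.exp b ≤
      Real.exp (c ^ 2 / 8 + (1 / 2 * a + (1 - 1 / 2) * b)) := by
  have h1 := Real.cosh_le_exp_half_sq ((a - b) / 2)
  have h2 : 1 / 2 * Real.exp a + (1 - 1 / 2) * Real.exp b =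
      Real.exp ((a + b) / 2) * Real.cosh ((a - b) / 2) := by
    rw [Real.cosh_eq]
    have e1 : Real.exp a = Real.exp ((a + b) / 2) * Real.exp ((a - b) / 2) := by
      rw [← Real.exp_add]; congr 1; ring
    have e2 : Real.exp b = Real.exp ((a + b) / 2) * Real.exp (-((a - b) / 2)) := by
      rw [← Real.exp_add]; congr 1; ring
    rw [e1, e2]; ring
  rw [h2]
  calc Real.exp ((a + b) / 2) * Real.cosh ((a - b) / 2)
      ≤ Real.exp ((a + b) / 2) * Real.exp (((a - b) / 2) ^ 2 / 2) :=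
        mul_le_mul_of_nonneg_left h1 (Real.exp_pos _).le
    _ = Real.exp (((a - b) / 2) ^ 2 / 2 + (a + b) / 2) := by
        rw [← Real.exp_add]; congr 1; ring
    _ ≤ _ := by
        apply Real.exp_le_exp.mpr
        have h3 : (a - b) ^ 2 ≤ c ^ 2 := by
          rw [← sq_abs (a - b)]
          exact pow_le_pow_left₀ (abs_nonneg _) h 2
        nlinarith

theorem wt_half {m : ℕ} (x : Fin m → Bool) : wt (fun _ => (1 / 2 : ℝ)) x = (1 / 2 : ℝ) ^ m := by
  unfold wt
  have : ∀ j : Fin m, (if x j then (1 / 2 : ℝ) else 1 - 1 / 2) = 1 / 2 := by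
    intro j; split_ifs <;> norm_num
  simp only [this]
  simp

theorem sum_half {m : ℕ} (α : Fin m → ℝ) (s : Fin m → Bool) :
    2 * ∑ x : Fin m → Bool, (∑ j, if x j ≠ s j then α j else 0) = 2 ^ m * ∑ j, α j := by
  have e : ∑ x : Fin m → Bool, (∑ j, if x j ≠ s j then α j else 0) =
      ∑ x : Fin m → Bool, (∑ j, if (!(x j)) ≠ s j then α j else 0) := by
    refine (Equiv.sum_comp (Equiv.piCongrRight (fun _ : Fin m => Equiv.boolNot))
      (fun x : Fin m → Bool => ∑ j, if x j ≠ s j then α j else 0)).symm.trans ?_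
    rfl
  rw [two_mul]
  nth_rw 2 [e]
  rw [← sum_add_distrib]
  have h2 : ∀ x : Fin m → Bool, (∑ j, if x j ≠ s j then α j else 0) +
      (∑ j, if (!(x j)) ≠ s j then α j else 0) = ∑ j, α j := by
    intro x
    rw [← sum_add_distrib]
    apply sum_congr rfl
    intro j _
    cases x j <;> cases s j <;> simp
  rw [sum_congr rfl (fun x _ => h2 x)]
  simp

end Hoe

theorem hoe_proof (h : MgfStatement) : HoeStatement := by
  intro m α s V t hα hV V0 t0
  set F : (Fin m → Bool) → ℝ := fun θ => ∑ j, if θ j ≠ s j then α j else 0 with hF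
  set lam : ℝ := 4 * t / V with hlam
  have lam0 : 0 ≤ lam := by positivity
  -- the exponential moment
  have key := h m (fun _ => 1 / 2) (fun j => lam * α j) (fun j => (lam * α j) ^ 2 / 8)
    (fun θ => lam * F θ) (fun j => ⟨by norm_num, by norm_num⟩) ?_
    (fun j a b hab => Hoe.half_exp a b _ hab)
  swap
  · intro x j b
    have e : F (Function.update x j b) - F x =
        (if b ≠ s j then α j else 0) - (if x j ≠ s j then α j else 0) := by
      simp only [hF]
      rw [← sum_sub_distrib, ← add_sum_erase _ _ (mem_univ j)]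
      rw [sum_eq_zero (s := univ.erase j)]
      · simp
      · intro i hi
        rw [Function.update_of_ne (ne_of_mem_erase hi)]
        ring
    rw [← mul_sub, abs_mul, abs_of_nonneg lam0, e]
    apply mul_le_mul_of_nonneg_left _ lam0
    have := hα j
    split_ifs <;> simp [abs_of_nonneg this, this]
  have k1 : ∑ x, wt (fun _ => (1 / 2 : ℝ)) x * (lam * F x) = lam * ((∑ j, α j) / 2) := by
    have e1 : ∀ x : Fin m → Bool, wt (fun _ => (1 / 2 : ℝ)) x * (lam * F x) =
        (1 / 2 : ℝ) ^ m * lam * F x := by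
      intro x; rw [Hoe.wt_half]; ring
    rw [sum_congr rfl (fun x _ => e1 x), ← mul_sum]
    have e2 : ∑ x, F x = 2 ^ m * (∑ j, α j) / 2 := by
      have := Hoe.sum_half α s
      simp only [hF]
      linarith
    rw [e2]
    have e3 : (1 / 2 : ℝ) ^ m * 2 ^ m = 1 := by
      rw [← mul_pow]; norm_num
    calc (1 / 2 : ℝ) ^ m * lam * (2 ^ m * (∑ j, α j) / 2)
        = ((1 / 2 : ℝ) ^ m * 2 ^ m) * (lam * ((∑ j, α j) / 2)) := by ring
      _ = _ := by rw [e3, one_mul]
  have k2 : ∑ j, (lam * α j) ^ 2 / 8 ≤ lam ^ 2 * V / 8 := by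
    have e1 : ∑ j, (lam * α j) ^ 2 / 8 = lam ^ 2 / 8 * ∑ j, α j ^ 2 := by
      rw [mul_sum]
      apply sum_congr rfl
      intro j _
      ring
    rw [e1]
    have : 0 ≤ lam ^ 2 / 8 := by positivity
    nlinarith [mul_le_mul_of_nonneg_left hV this]
  have k3 : (1 / 2 : ℝ) ^ m * ((univ.filter (fun θ : Fin m → Bool =>
      (∑ j, α j) / 2 + t < ∑ j, if θ j ≠ s j then α j else 0)).card : ℝ) *
      Real.exp (lam * ((∑ j, α j) / 2 + t)) ≤
      ∑ x, wt (fun _ => (1 / 2 : ℝ)) x * Real.exp (lam * F x) := by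
    have e1 : ∀ x : Fin m → Bool, wt (fun _ => (1 / 2 : ℝ)) x * Real.exp (lam * F x) =
        (1 / 2 : ℝ) ^ m * Real.exp (lam * F x) := by
      intro x; rw [Hoe.wt_half]
    rw [sum_congr rfl (fun x _ => e1 x), ← mul_sum, mul_assoc]
    apply mul_le_mul_of_nonneg_left _ (by positivity)
    calc ((univ.filter (fun θ : Fin m → Bool =>
          (∑ j, α j) / 2 + t < ∑ j, if θ j ≠ s j then α j else 0)).card : ℝ) *
          Real.exp (lam * ((∑ j, α j) / 2 + t))
        = ∑ x ∈ univ.filter (fun θ : Fin m → Bool =>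
          (∑ j, α j) / 2 + t < ∑ j, if θ j ≠ s j then α j else 0),
            Real.exp (lam * ((∑ j, α j) / 2 + t)) := by
          rw [sum_const, nsmul_eq_mul]
      _ ≤ ∑ x ∈ univ.filter (fun θ : Fin m → Bool =>
          (∑ j, α j) / 2 + t < ∑ j, if θ j ≠ s j then α j else 0),
            Real.exp (lam * F x) := by
          apply sum_le_sum
          intro x hx
          apply Real.exp_le_exp.mpr
          apply mul_le_mul_of_nonneg_left _ lam0
          exact (mem_filter.mp hx).2.le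
      _ ≤ _ := by
          apply sum_le_sum_of_subset_of_nonneg (filter_subset _ _)
          intro x _ _
          exact (Real.exp_pos _).le
  have k4 := k3.trans key
  simp only [k1] at k4
  have k5 : (1 / 2 : ℝ) ^ m * ((univ.filter (fun θ : Fin m → Bool =>
      (∑ j, α j) / 2 + t < ∑ j, if θ j ≠ s j then α j else 0)).card : ℝ) *
      Real.exp (lam * ((∑ j, α j) / 2 + t)) ≤
      Real.exp (lam ^ 2 * V / 8 + lam * ((∑ j, α j) / 2)) :=
    k4.trans (Real.exp_le_exp.mpr (by linarith))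
  have k6 : ((univ.filter (fun θ : Fin m → Bool =>
      (∑ j, α j) / 2 + t < ∑ j, if θ j ≠ s j then α j else 0)).card : ℝ) =
      2 ^ m * ((1 / 2 : ℝ) ^ m * ((univ.filter (fun θ : Fin m → Bool =>
      (∑ j, α j) / 2 + t < ∑ j, if θ j ≠ s j then α j else 0)).card : ℝ) *
      Real.exp (lam * ((∑ j, α j) / 2 + t))) * Real.exp (-(lam * ((∑ j, α j) / 2 + t))) := by
    have e3 : (2 : ℝ) ^ m * (1 / 2 : ℝ) ^ m = 1 := by
      rw [← mul_pow]; norm_num
    have e4 : Real.exp (lam * ((∑ j, α j) / 2 + t)) *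
        Real.exp (-(lam * ((∑ j, α j) / 2 + t))) = 1 := by
      rw [← Real.exp_add]; simp
    set X : ℝ := ((univ.filter (fun θ : Fin m → Bool =>
      (∑ j, α j) / 2 + t < ∑ j, if θ j ≠ s j then α j else 0)).card : ℝ)
    calc X = (2 ^ m * (1 / 2 : ℝ) ^ m) * X * (Real.exp (lam * ((∑ j, α j) / 2 + t)) *
        Real.exp (-(lam * ((∑ j, α j) / 2 + t)))) := by rw [e3, e4]; ring
      _ = _ := by ring
  rw [k6]
  calc 2 ^ m * ((1 / 2 : ℝ) ^ m * ((univ.filter (fun θ : Fin m → Bool =>
      (∑ j, α j) / 2 + t < ∑ j, if θ j ≠ s j then α j else 0)).card : ℝ) *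
      Real.exp (lam * ((∑ j, α j) / 2 + t))) * Real.exp (-(lam * ((∑ j, α j) / 2 + t)))
      ≤ 2 ^ m * Real.exp (lam ^ 2 * V / 8 + lam * ((∑ j, α j) / 2)) *
        Real.exp (-(lam * ((∑ j, α j) / 2 + t))) := by
        apply mul_le_mul_of_nonneg_right _ (Real.exp_pos _).le
        exact mul_le_mul_of_nonneg_left k5 (by positivity)
    _ = 2 ^ m * Real.exp (-(2 * t ^ 2 / V)) := by
        rw [mul_assoc, ← Real.exp_add]
        congr 2
        rw [hlam]
        field_simp
        ring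

end Pool.Agent.Lib.MP_506ba8_co.P50
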