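import Pool.Agent.Lib.MP_506ba8_co.P50.Iface

/-!
Row Iso: the weighted isoperimetric inequality of the cube (from the exponential moments).
-/

open Finset

namespace Pool.Agent.Lib.MP_506ba8_co.P50

/-- weighted Hamming distance -/
noncomputable def isoD {m : ℕ} (β : Fin m → ℝ) (u θ : Fin m → Bool) : ℝ :=
  ∑ j, if u j ≠ θ j then β j else 0

lemma isoD_nonneg {m : ℕ} {β : Fin m → ℝ} (hβ : ∀ j, 0 ≤ β j) (u θ : Fin m → Bool) :
    0 ≤ isoD β u θ := by
  unfold isoD
  refine Finset.sum_nonneg fun j _ => ?_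
  split_ifs
  · exact hβ j
  · exact le_rfl

lemma isoD_self {m : ℕ} (β : Fin m → ℝ) (u : Fin m → Bool) : isoD β u u = 0 := by
  unfold isoD
  simp

lemma isoD_update {m : ℕ} {β : Fin m → ℝ} (hβ : ∀ j, 0 ≤ β j) (u x : Fin m → Bool)
    (j : Fin m) (b : Bool) : |isoD β u (Function.update x j b) - isoD β u x| ≤ β j := by
  unfold isoD
  rw [← Finset.sum_sub_distrib, Finset.sum_eq_single j]
  · have h := hβ j
    split_ifs <;> simp [abs_of_nonneg h, h]
  · intro i _ hij
    rw [Function.update_of_ne hij]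
    simp
  · intro h
    exact absurd (Finset.mem_univ j) h

/-- distance to a nonempty set -/
noncomputable def isoF {m : ℕ} (β : Fin m → ℝ) (A : Finset (Fin m → Bool)) (hA : A.Nonempty)
    (θ : Fin m → Bool) : ℝ := A.inf' hA (fun u => isoD β u θ)

lemma isoF_update {m : ℕ} {β : Fin m → ℝ} (hβ : ∀ j, 0 ≤ β j) (A : Finset (Fin m → Bool))
    (hA : A.Nonempty) (x : Fin m → Bool) (j : Fin m) (b : Bool) :
    |isoF β A hA (Function.update x j b) - isoF β A hA x| ≤ β j := by
  unfold isoF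
  rw [abs_le]
  constructor
  · obtain ⟨u, hu, hu2⟩ := Finset.exists_mem_eq_inf' hA
      (fun u => isoD β u (Function.update x j b))
    rw [hu2]
    have h1 : A.inf' hA (fun u => isoD β u x) ≤ isoD β u x := Finset.inf'_le _ hu
    have h2 := (abs_le.1 (isoD_update hβ u x j b)).1
    linarith
  · obtain ⟨u, hu, hu2⟩ := Finset.exists_mem_eq_inf' hA (fun u => isoD β u x)
    rw [hu2]
    have h1 : A.inf' hA (fun u => isoD β u (Function.update x j b)) ≤
        isoD β u (Function.update x j b) := Finset.inf'_le _ hu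
    have h2 := (abs_le.1 (isoD_update hβ u x j b)).2
    linarith

lemma isoF_zero {m : ℕ} {β : Fin m → ℝ} (hβ : ∀ j, 0 ≤ β j) (A : Finset (Fin m → Bool))
    (hA : A.Nonempty) {x : Fin m → Bool} (hx : x ∈ A) : isoF β A hA x = 0 := by
  unfold isoF
  refine le_antisymm ?_ ?_
  · have h1 : A.inf' hA (fun u => isoD β u x) ≤ isoD β x x := Finset.inf'_le _ hx
    rwa [isoD_self] at h1
  · exact Finset.le_inf' _ _ fun u _ => isoD_nonneg hβ u x

/-- two point inequality for `p = 1/2` -/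
lemma iso_two {c a b : ℝ} (hab : |a - b| ≤ c) :
    (1 / 2 : ℝ) * Real.exp a + (1 - 1 / 2) * Real.exp b ≤
      Real.exp (c ^ 2 / 8 + (1 / 2 * a + (1 - 1 / 2) * b)) := by
  have h0 : Real.exp a = Real.exp ((a + b) / 2) * Real.exp ((a - b) / 2) := by
    rw [← Real.exp_add]
    congr 1
    ring
  have h1 : Real.exp b = Real.exp ((a + b) / 2) * Real.exp (-((a - b) / 2)) := by
    rw [← Real.exp_add]
    congr 1
    ring
  have h2 : Real.cosh ((a - b) / 2) ≤ Real.exp (((a - b) / 2) ^ 2 / 2) :=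
    Real.cosh_le_exp_half_sq _
  have h3 : (1 / 2 : ℝ) * Real.exp a + (1 - 1 / 2) * Real.exp b =
      Real.exp ((a + b) / 2) * Real.cosh ((a - b) / 2) := by
    rw [h0, h1, Real.cosh_eq]
    ring
  have h4 : ((a - b) / 2) ^ 2 / 2 ≤ c ^ 2 / 8 := by
    have h5 : (a - b) ^ 2 ≤ c ^ 2 := by
      rw [← sq_abs (a - b)]
      exact pow_le_pow_left₀ (abs_nonneg _) hab 2
    linarith [h5, (by ring : ((a - b) / 2) ^ 2 / 2 = (a - b) ^ 2 / 8)]
  rw [h3]
  calc Real.exp ((a + b) / 2) * Real.cosh ((a - b) / 2)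
      ≤ Real.exp ((a + b) / 2) * Real.exp (c ^ 2 / 8) := by
        refine mul_le_mul_of_nonneg_left (h2.trans (Real.exp_le_exp.2 h4)) (Real.exp_pos _).le
    _ = Real.exp (c ^ 2 / 8 + (1 / 2 * a + (1 - 1 / 2) * b)) := by
        rw [← Real.exp_add]
        congr 1
        ring

lemma iso_wt {m : ℕ} (x : Fin m → Bool) : wt (fun _ => (1 / 2 : ℝ)) x = (1 / 2) ^ m := by
  unfold wt
  have h : ∀ j : Fin m, (if x j = true then (1 / 2 : ℝ) else 1 - 1 / 2) = 1 / 2 := by
    intro j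
    split_ifs <;> norm_num
  rw [Finset.prod_congr rfl (fun j _ => h j)]
  simp

/-- the exponential moment of a function with bounded differences, fair coins -/
lemma iso_moment (h : MgfStatement) {m : ℕ} {β : Fin m → ℝ} {V : ℝ}
    (hV : ∑ j, β j ^ 2 ≤ V) (f : (Fin m → Bool) → ℝ)
    (hf : ∀ x j b, |f (Function.update x j b) - f x| ≤ β j) (l : ℝ) :
    ∑ x, Real.exp (l * f x) ≤
      2 ^ m * Real.exp (l ^ 2 * V / 8 + l * ((1 / 2) ^ m * ∑ x, f x)) := by
  have h1 := h m (fun _ => 1 / 2) (fun j => |l| * β j) (fun j => (|l| * β j) ^ 2 / 8)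
    (fun x => l * f x) (fun j => by norm_num)
    (fun x j b => by
      rw [← mul_sub, abs_mul]
      exact mul_le_mul_of_nonneg_left (hf x j b) (abs_nonneg _))
    (fun j a b hab => iso_two hab)
  simp only [iso_wt] at h1
  have h2 : ∑ x : Fin m → Bool, (1 / 2 : ℝ) ^ m * Real.exp (l * f x) =
      (1 / 2) ^ m * ∑ x, Real.exp (l * f x) := by rw [Finset.mul_sum]
  have h3 : ∑ x : Fin m → Bool, (1 / 2 : ℝ) ^ m * (l * f x) =
      l * ((1 / 2) ^ m * ∑ x, f x) := by
    rw [Finset.mul_sum, Finset.mul_sum]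
    exact Finset.sum_congr rfl fun x _ => by ring
  rw [h2, h3] at h1
  have h4 : ∑ j, (|l| * β j) ^ 2 / 8 ≤ l ^ 2 * V / 8 := by
    have h5 : ∑ j, (|l| * β j) ^ 2 / 8 = l ^ 2 * (∑ j, β j ^ 2) / 8 := by
      rw [Finset.mul_sum, Finset.sum_div]
      exact Finset.sum_congr rfl fun j _ => by rw [mul_pow, sq_abs]
    rw [h5]
    have h6 : l ^ 2 * (∑ j, β j ^ 2) ≤ l ^ 2 * V := mul_le_mul_of_nonneg_left hV (sq_nonneg _)
    linarith
  have h7 : (0 : ℝ) < 2 ^ m := by positivity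
  have h8 : (2 : ℝ) ^ m * (1 / 2) ^ m = 1 := by
    rw [← mul_pow]
    norm_num
  calc ∑ x, Real.exp (l * f x) = 2 ^ m * ((1 / 2) ^ m * ∑ x, Real.exp (l * f x)) := by
        rw [← mul_assoc, h8, one_mul]
    _ ≤ 2 ^ m * Real.exp (l ^ 2 * V / 8 + l * ((1 / 2) ^ m * ∑ x, f x)) := by
        refine mul_le_mul_of_nonneg_left (h1.trans (Real.exp_le_exp.2 ?_)) h7.le
        linarith

theorem iso_proof (h : MgfStatement) : IsoStatement := by
  intro m β V t A hβ hV hV0 ht
  rcases A.eq_empty_or_nonempty with rfl | hA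
  · simp only [Finset.card_empty, Nat.cast_zero, mul_zero]
    positivity
  set f := isoF β A hA with hf
  set l : ℝ := 2 * t / V with hl
  have hl0 : 0 ≤ l := by positivity
  have hfd : ∀ x j b, |f (Function.update x j b) - f x| ≤ β j := isoF_update hβ A hA
  have h1 := iso_moment h hV f hfd l
  have h2 := iso_moment h hV f hfd (-l)
  set M : ℝ := (1 / 2) ^ m * ∑ x, f x with hM
  have h3 : ((univ.filter (fun θ : Fin m → Bool =>
      ∀ u ∈ A, t ≤ ∑ j, if u j ≠ θ j then β j else 0)).card : ℝ) * Real.exp (l * t) ≤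
      ∑ x, Real.exp (l * f x) := by
    rw [← nsmul_eq_mul, ← Finset.sum_const]
    refine (Finset.sum_le_sum fun x hx => ?_).trans
      (Finset.sum_le_sum_of_subset_of_nonneg (Finset.filter_subset _ _)
        fun x _ _ => (Real.exp_pos _).le)
    rw [Finset.mem_filter] at hx
    refine Real.exp_le_exp.2 (mul_le_mul_of_nonneg_left ?_ hl0)
    exact Finset.le_inf' _ _ fun u hu => hx.2 u hu
  have h4 : (A.card : ℝ) ≤ ∑ x, Real.exp (-l * f x) := by
    have h5 : (A.card : ℝ) = ∑ _x ∈ A, (1 : ℝ) := by simp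
    rw [h5]
    refine (Finset.sum_le_sum fun x hx => ?_).trans
      (Finset.sum_le_sum_of_subset_of_nonneg (Finset.subset_univ A)
        fun x _ _ => (Real.exp_pos _).le)
    have h6 : f x = 0 := isoF_zero hβ A hA hx
    rw [h6, mul_zero, Real.exp_zero]
  set N : ℝ := ((univ.filter (fun θ : Fin m → Bool =>
      ∀ u ∈ A, t ≤ ∑ j, if u j ≠ θ j then β j else 0)).card : ℝ) with hN
  have hN0 : 0 ≤ N := by rw [hN]; positivity
  have h7 : N * Real.exp (l * t) * A.card ≤
      (2 ^ m * Real.exp (l ^ 2 * V / 8 + l * M)) *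
        (2 ^ m * Real.exp ((-l) ^ 2 * V / 8 + -l * M)) := by
    refine mul_le_mul (h3.trans h1) (h4.trans h2) (by positivity) (by positivity)
  have h8 : (2 ^ m * Real.exp (l ^ 2 * V / 8 + l * M)) *
        (2 ^ m * Real.exp ((-l) ^ 2 * V / 8 + -l * M)) =
      4 ^ m * Real.exp (l ^ 2 * V / 4) := by
    have h9 : (4 : ℝ) ^ m = 2 ^ m * 2 ^ m := by
      rw [← mul_pow]
      norm_num
    have h10 : Real.exp (l ^ 2 * V / 4) =
        Real.exp (l ^ 2 * V / 8 + l * M) * Real.exp ((-l) ^ 2 * V / 8 + -l * M) := by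
      rw [← Real.exp_add]
      congr 1
      ring
    rw [h9, h10]
    ring
  rw [h8] at h7
  have h11 : l * t = 2 * (t ^ 2 / V) := by
    rw [hl]
    field_simp
  have h12 : l ^ 2 * V / 4 = t ^ 2 / V := by
    rw [hl]
    field_simp
    ring
  rw [h11, h12] at h7
  have h13 : N * (A.card : ℝ) = (N * Real.exp (2 * (t ^ 2 / V)) * A.card) *
      Real.exp (-(2 * (t ^ 2 / V))) := by
    have h14 : Real.exp (2 * (t ^ 2 / V)) * Real.exp (-(2 * (t ^ 2 / V))) = 1 := by
      rw [← Real.exp_add]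
      simp
    calc N * (A.card : ℝ) = N * A.card *
          (Real.exp (2 * (t ^ 2 / V)) * Real.exp (-(2 * (t ^ 2 / V)))) := by rw [h14, mul_one]
      _ = _ := by ring
  rw [h13]
  calc (N * Real.exp (2 * (t ^ 2 / V)) * A.card) * Real.exp (-(2 * (t ^ 2 / V)))
      ≤ (4 ^ m * Real.exp (t ^ 2 / V)) * Real.exp (-(2 * (t ^ 2 / V))) :=
        mul_le_mul_of_nonneg_right h7 (Real.exp_pos _).le
    _ = 4 ^ m * Real.exp (-(t ^ 2 / V)) := by
        rw [mul_assoc, ← Real.exp_add]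
        congr 2
        ring

end Pool.Agent.Lib.MP_506ba8_co.P50
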