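import Pool.Agent.Lib.MP_506ba8_co.P50.Iface

/-!
Row Iter of the board `lip_modules`: the iterated map of the sphere into the cube.
-/

open Finset

namespace Pool.Agent.Lib.MP_506ba8_co.P50

theorem iter_geom (S : ℕ) : ∑ s ∈ range S, (19 / 20 : ℝ) ^ s ≤ 20 := by
  have h := geom_sum_eq (x := (19 / 20 : ℝ)) (by norm_num) S
  rw [h]
  have h2 : (0 : ℝ) < (19 / 20 : ℝ) ^ S := by positivity
  rw [div_le_iff_of_neg (by norm_num)]
  linarith

theorem iter_proof (h : SelStatement) : IterStatement := by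
  obtain ⟨K0, hK0, hK⟩ := h
  obtain ⟨K1, hK1, hsel⟩ := hK K0 le_rfl
  refine ⟨K0, K1, hK0, by linarith, ?_⟩
  intro n m k a ha hm
  set Ts : ℝ := K1 * (k + 1) * Real.log (k + 2) with hTs
  have hmR : (0 : ℝ) < m := by exact_mod_cast hm
  have hk : (0 : ℝ) ≤ k := Nat.cast_nonneg k
  have hlog : (1 / 2 : ℝ) ≤ Real.log (k + 2) := by
    have h1 : Real.log 2 ≤ Real.log ((k : ℝ) + 2) :=
      Real.log_le_log (by norm_num) (by linarith)
    have h2 := Real.log_two_gt_d9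
    linarith
  have hTs1 : (1 : ℝ) ≤ Ts := by
    have h1 : (2 : ℝ) ≤ K1 * (k + 1) := by nlinarith
    rw [hTs]
    nlinarith
  have key : ∀ s : ℕ, (∀ s' < s, Ts ≤ m * (19 / 20 : ℝ) ^ s') →
      ∃ Y : (Fin (k + 1) → ℝ) → (Fin m → ℝ),
      ContinuousOn Y {z | ‖z‖ = 1} ∧ (∀ z, ‖z‖ = 1 → Y (-z) = -Y z) ∧
      (∀ z, ‖z‖ = 1 → Cube (Y z)) ∧ (∀ z, ‖z‖ = 1 → Psi (Y z) ≤ m * (19 / 20 : ℝ) ^ s) ∧
      ∀ z, ‖z‖ = 1 → ∀ i, |∑ j, a i j * Y z j| ≤
        ∑ t ∈ range s, (Wd K0 n (m * (19 / 20) ^ t) + 2 / (m * (19 / 20 : ℝ) ^ t)) := by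
    intro s
    induction s with
    | zero =>
      intro _
      refine ⟨fun _ => 0, continuousOn_const, ?_, ?_, ?_, ?_⟩
      · intro z _; simp
      · intro z _ j; simp
      · intro z _; simp [Psi]
      · intro z _ i; simp
    | succ s ih =>
      intro hs
      obtain ⟨Y, hc, ho, hcu, hp, hb⟩ := ih (fun s' h' => hs s' (by omega))
      obtain ⟨Y', hc', ho', hcu', hp', hb'⟩ :=
        hsel n m k a (m * (19 / 20 : ℝ) ^ s) Y ha hm (hs s (by omega)) hc ho hcu hp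
      refine ⟨Y', hc', ho', hcu', ?_, ?_⟩
      · intro z hz
        have := hp' z hz
        rw [pow_succ]
        linarith
      · intro z hz i
        rw [sum_range_succ]
        have h1 := hb z hz i
        have h2 := hb' z hz i
        have h3 : ∑ j, a i j * Y' z j = ∑ j, a i j * Y z j + ∑ j, a i j * (Y' z j - Y z j) := by
          rw [← sum_add_distrib]
          exact sum_congr rfl (fun j _ => by ring)
        rw [h3]
        exact (abs_add_le _ _).trans (by linarith)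
  have hex : ∃ S : ℕ, m * (19 / 20 : ℝ) ^ S ≤ Ts := by
    obtain ⟨S, hS⟩ := exists_pow_lt_of_lt_one (x := Ts / m) (y := (19 / 20 : ℝ))
      (by positivity) (by norm_num)
    refine ⟨S, ?_⟩
    rw [lt_div_iff₀ hmR] at hS
    linarith
  classical
  set S := Nat.find hex with hSdef
  have hS1 : m * (19 / 20 : ℝ) ^ S ≤ Ts := Nat.find_spec hex
  have hS2 : ∀ s < S, Ts ≤ m * (19 / 20 : ℝ) ^ s := fun s hs =>
    (not_le.1 (Nat.find_min hex hs)).le
  obtain ⟨Y, hc, ho, hcu, hp, hb⟩ := key S hS2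
  refine ⟨S, Y, hc, ho, hcu, fun z hz => (hp z hz).trans hS1, ?_⟩
  intro z hz i
  refine (hb z hz i).trans ?_
  rw [sum_add_distrib]
  have hsum : ∑ t ∈ range S, 2 / (m * (19 / 20 : ℝ) ^ t) ≤ 40 := by
    have h1 : ∀ t ∈ range S, 2 / (m * (19 / 20 : ℝ) ^ t) ≤ 2 * (19 / 20 : ℝ) ^ (S - 1 - t) := by
      intro t ht
      rw [mem_range] at ht
      have h2 : (1 : ℝ) ≤ m * (19 / 20 : ℝ) ^ (S - 1) :=
        hTs1.trans (hS2 (S - 1) (by omega))
      have h3 : (19 / 20 : ℝ) ^ (S - 1) = (19 / 20 : ℝ) ^ t * (19 / 20 : ℝ) ^ (S - 1 - t) := by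
        rw [← pow_add]
        congr 1
        omega
      rw [div_le_iff₀ (by positivity)]
      rw [h3] at h2
      nlinarith
    refine (sum_le_sum h1).trans ?_
    rw [← mul_sum, sum_range_reflect (fun t => (19 / 20 : ℝ) ^ t) S]
    have := iter_geom S
    linarith
  linarith

end Pool.Agent.Lib.MP_506ba8_co.P50
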