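import Pool.Agent.Lib.MP_506ba8_co.P50.Iface
import Pool.Agent.Lib.MP_916c87_co.LLL

/-!
Row Lll: the symmetric local lemma (from `Lib/MP_916c87_co/LLL.lean`).
-/

open Finset

namespace Pool.Agent.Lib.MP_506ba8_co.P50

theorem lll_proof : LllStatement := by
  intro V α C _ _ _ _ _ _ vb E p D hE hp hD hD1 hpD
  classical
  rcases isEmpty_or_nonempty C with hC | ⟨⟨c0⟩⟩
  · exact ⟨fun _ => Classical.arbitrary α, fun c => (hC.false c).elim⟩
  have hpos : (0 : ℝ) < (Fintype.card α : ℝ) ^ Fintype.card V := by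
    have : (0 : ℝ) < Fintype.card α := by exact_mod_cast Fintype.card_pos
    positivity
  have hp0 : 0 ≤ p := by
    have h1 : (0 : ℝ) ≤ p * (Fintype.card α : ℝ) ^ Fintype.card V :=
      le_trans (Nat.cast_nonneg _) (hp c0)
    by_contra hneg
    push Not at hneg
    have := mul_neg_of_neg_of_pos hneg hpos
    linarith
  have hiff : ∀ v, ∀ x y : V → α, (∀ i ∈ vb v, x i = y i) → (x ∈ E v ↔ y ∈ E v) := by
    intro v x y hxy
    exact ⟨hE v x y hxy, hE v y x (fun i hi => (hxy i hi).symm)⟩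
  have hcard : ∀ v, (Nat.card {x : V → α // x ∈ E v} : ℝ) ≤
      p * (Fintype.card (V → α) : ℝ) := by
    intro v
    have h1 := hp v
    rw [Fintype.card_fun, Nat.cast_pow]
    exact h1
  obtain ⟨x, hx⟩ := MP_916c87_co.lovasz_local (fun c x => x ∈ E c) vb hiff p hp0 (D : ℝ)
    hcard (fun c => univ.filter (fun c' => ¬ Disjoint (vb c) (vb c')))
    (fun v u h => by simpa using h)
    (fun v => by exact_mod_cast hD v) (by exact_mod_cast hD1) hpD
  exact ⟨x, hx⟩

end Pool.Agent.Lib.MP_506ba8_co.P50
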