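import Pool.Agent.Lib.MP_506ba8_co.P50.Iface
import Pool.Agent.Lib.MP_506ba8_co.H4.Final

/-!
Row Main: Borsuk–Ulam at the end of the iteration and random rounding.
-/

open Finset

namespace Pool.Agent.Lib.MP_506ba8_co.P50

/-- Row Main. -/
theorem main_proof (h1 : IterStatement) (h2 : SumStatement) (h3 : RndStatement)
    (h4 : ExtStatement) : MainStatement := by
  classical
  obtain ⟨K, K1, hK, hK1, it⟩ := h1
  obtain ⟨C0, hC0, hs⟩ := h2 K hK
  refine ⟨C0 + 60 + 4 * √(2 * (K1 + 2)), by positivity, ?_⟩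
  intro n m k a g ha hg hodd
  have hlog2 : (0.69 : ℝ) < Real.log 2 := by
    have := Real.log_two_gt_d9
    linarith
  have hn0 : (0 : ℝ) ≤ n := Nat.cast_nonneg n
  have hk0 : (0 : ℝ) ≤ k := Nat.cast_nonneg k
  set L : ℝ := Real.log (n + k + 2) with hL
  have hL2 : Real.log 2 ≤ L := Real.log_le_log (by norm_num) (by linarith)
  have hLk : Real.log (k + 2) ≤ L := Real.log_le_log (by linarith) (by linarith)
  have hLk0 : 0 ≤ Real.log ((k : ℝ) + 2) := Real.log_nonneg (by linarith)
  have hL0 : 0 < L := by linarith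
  have hsk : 1 ≤ √((k : ℝ) + 1) := by
    rw [Real.one_le_sqrt]
    linarith
  have hsk0 : 0 < √((k : ℝ) + 1) := by linarith
  have hsn : 0 ≤ √(n : ℝ) := Real.sqrt_nonneg _
  have hsK : 0 ≤ √(2 * (K1 + 2)) := Real.sqrt_nonneg _
  have hkL : 0 ≤ √((k : ℝ) + 1) * L := by positivity
  rcases Nat.eq_zero_or_pos m with hm | hm
  · subst hm
    refine ⟨fun _ => true, ?_, ?_⟩
    · intro i
      simp only [Finset.univ_eq_empty, Finset.sum_empty, abs_zero]
      positivity
    · intro l
      have e : g l (fun _ => true) = 0 := by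
        have h := hodd l (fun _ => true)
        have e2 : (fun j : Fin 0 => !((fun _ => true : Fin 0 → Bool) j)) = fun _ => true :=
          Subsingleton.elim _ _
        rw [e2] at h
        linarith
      rw [e, abs_zero]
      positivity
  obtain ⟨S, Y, hYc, hYodd, hYcube, hYPsi, hYlin⟩ := it n m k a ha hm
  obtain ⟨hext1, hext2, hext3⟩ := h4 m
  obtain ⟨z, hz, hz0⟩ := H4.bu (fun l z => ext (g l) (Y z))
    (fun l => (hext1 (g l)).comp_continuousOn hYc)
    (fun l z hz => by
      rw [hYodd z hz]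
      exact hext2 (g l) (hodd l) (Y z))
  set y := Y z with hy
  have hcube : Cube y := hYcube z hz
  have hPsi : Psi y ≤ K1 * (k + 1) * Real.log (k + 2) := hYPsi z hz
  have hsum : ∑ j, (1 - |y j|) ≤ Psi y := by
    unfold Psi
    refine Finset.sum_le_sum fun j _ => ?_
    have h0 : 0 ≤ 1 - |y j| := by linarith [hcube j]
    have h1 : 1 - |y j| ≤ 1 := by linarith [abs_nonneg (y j)]
    refine Real.le_sqrt_of_sq_le ?_
    nlinarith
  set G : Fin (n + k) → (Fin m → Bool) → ℝ :=
    Fin.addCases (fun i x => ∑ j, a i j * sg (x j)) g with hG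
  have hG1 : ∀ i : Fin n, G (Fin.castAdd k i) = fun x => ∑ j, a i j * sg (x j) := by
    intro i
    rw [hG]
    simp only
    rw [Fin.addCases_left]
  have hG2 : ∀ l : Fin k, G (Fin.natAdd n l) = g l := by
    intro l
    rw [hG]
    simp only
    rw [Fin.addCases_right]
  have hGlip : ∀ i x j b, |G i (Function.update x j b) - G i x| ≤ 2 := by
    intro i
    refine Fin.addCases (fun i => ?_) (fun l => ?_) i
    · rw [hG1]
      intro x j b
      simp only
      rw [← Finset.sum_sub_distrib, Finset.sum_eq_single j]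
      · rw [Function.update_self, ← mul_sub, abs_mul]
        have h1 := ha i j
        have h2 : |sg b - sg (x j)| ≤ 2 := by
          unfold sg
          rcases b <;> rcases x j <;> norm_num
        have h3 := abs_nonneg (a i j)
        have h4 := abs_nonneg (sg b - sg (x j))
        nlinarith
      · intro j' _ hj'
        rw [Function.update_of_ne hj', sub_self]
      · intro h
        exact absurd (Finset.mem_univ j) h
    · rw [hG2]
      exact hg l
  set A : ℝ := K1 * (k + 1) * Real.log (k + 2) with hA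
  have hA0 : 0 ≤ A := by positivity
  obtain ⟨x, hx⟩ := h3 m (n + k) G y (A + 2 * L) (2 * L) hcube hGlip (by linarith) (by
      rw [show (2 : ℝ) * L = L + L by ring, hL, ← Real.log_mul (by positivity) (by positivity)]
      refine Real.log_le_log (by positivity) ?_
      push_cast
      nlinarith) (by linarith)
  -- the rounding error
  have herr : 4 * √((2 * L) * (A + 2 * L)) ≤ 4 * √(2 * (K1 + 2)) * (√((k : ℝ) + 1) * L) := by
    have hAL : A + 2 * L ≤ (K1 + 2) * ((k + 1) * L) := by
      have h1 : A ≤ K1 * (k + 1) * L := by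
        rw [hA]
        exact mul_le_mul_of_nonneg_left hLk (by positivity)
      have h2 : L ≤ (k + 1) * L := by nlinarith
      nlinarith
    have h1 : (2 * L) * (A + 2 * L) ≤ (2 * (K1 + 2)) * ((k + 1) * L ^ 2) := by
      calc (2 * L) * (A + 2 * L) ≤ (2 * L) * ((K1 + 2) * ((k + 1) * L)) :=
            mul_le_mul_of_nonneg_left hAL (by positivity)
        _ = (2 * (K1 + 2)) * ((k + 1) * L ^ 2) := by ring
    have h2 : √((2 * (K1 + 2)) * (((k : ℝ) + 1) * L ^ 2)) =
        √(2 * (K1 + 2)) * (√((k : ℝ) + 1) * L) := by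
      rw [Real.sqrt_mul (show (0 : ℝ) ≤ 2 * (K1 + 2) by positivity),
        Real.sqrt_mul (show (0 : ℝ) ≤ (k : ℝ) + 1 by positivity), Real.sqrt_sq hL0.le]
    have h3 := Real.sqrt_le_sqrt h1
    rw [h2] at h3
    linarith
  refine ⟨x, ?_, ?_⟩
  · intro i
    have e1 := hx (Fin.castAdd k i)
    rw [hG1] at e1
    have e2 := hext3 (a i) y
    rw [e2] at e1
    have e3 := hYlin z hz i
    have e4 := hs n m S
    have e5 : |∑ j, a i j * sg (x j)| ≤ |∑ j, a i j * y j| +
        |∑ j, a i j * sg (x j) - ∑ j, a i j * y j| := by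
      have := abs_add_le (∑ j, a i j * y j) (∑ j, a i j * sg (x j) - ∑ j, a i j * y j)
      simpa using this
    have e6 : (40 : ℝ) ≤ 60 * (√((k : ℝ) + 1) * L) := by
      have : 0.69 ≤ √((k : ℝ) + 1) * L := by nlinarith
      linarith
    calc |∑ j, a i j * sg (x j)| ≤ (C0 * √n + 40) +
          4 * √(2 * (K1 + 2)) * (√((k : ℝ) + 1) * L) := by linarith
      _ ≤ (C0 * √n + 60 * (√((k : ℝ) + 1) * L)) +
          4 * √(2 * (K1 + 2)) * (√((k : ℝ) + 1) * L) := by linarith
      _ ≤ (C0 + 60 + 4 * √(2 * (K1 + 2))) * (√n + √((k : ℝ) + 1) * L) := by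
          have p1 : 0 ≤ C0 * (√((k : ℝ) + 1) * L) := by positivity
          have p2 : 0 ≤ 60 * √(n : ℝ) := by positivity
          have p3 : 0 ≤ 4 * √(2 * (K1 + 2)) * √(n : ℝ) := by positivity
          nlinarith
  · intro l
    have e1 := hx (Fin.natAdd n l)
    rw [hG2, hz0 l, sub_zero] at e1
    calc |g l x| ≤ 4 * √(2 * (K1 + 2)) * (√((k : ℝ) + 1) * L) := by linarith
      _ ≤ (C0 + 60 + 4 * √(2 * (K1 + 2))) * (√((k : ℝ) + 1) * L) := by
          have p1 : 0 ≤ C0 * (√((k : ℝ) + 1) * L) := by positivity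
          nlinarith

end Pool.Agent.Lib.MP_506ba8_co.P50
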