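import Pool.Agent.Lib.MP_506ba8_co.P50.Iface

/-!
Row Num: the numerical condition of a stage.
-/

namespace Pool.Agent.Lib.MP_506ba8_co.P50

/-- the numerical condition of a stage -/
theorem num_proof : NumStatement := by
  intro K hK
  refine ⟨10 ^ 6 * K ^ 2, by nlinarith, ?_⟩
  intro k T hT
  have hk0 : (0 : ℝ) ≤ (k : ℝ) := Nat.cast_nonneg k
  have hl2 : (1 / 2 : ℝ) < Real.log 2 := by
    have := Real.log_two_gt_d9
    linarith
  have hlk : Real.log 2 ≤ Real.log ((k : ℝ) + 2) := Real.log_le_log (by norm_num) (by linarith)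
  set L := Real.log ((k : ℝ) + 2) with hL
  have hL1 : 1 / 2 < L := lt_of_lt_of_le hl2 hlk
  have hK2 : 1 ≤ K ^ 2 := by nlinarith
  have hKK : K ≤ K ^ 2 := by nlinarith
  -- T / (k+1) ≥ 10^6 K² L
  set x := T / ((k : ℝ) + 1) with hx
  have hk1 : (0 : ℝ) < (k : ℝ) + 1 := by linarith
  have hTx : T = x * ((k : ℝ) + 1) := by
    rw [hx]
    field_simp
  have hxL : 10 ^ 6 * K ^ 2 * L ≤ x := by
    rw [hx, le_div_iff₀ hk1]
    linarith [hT, (by ring : 10 ^ 6 * K ^ 2 * L * ((k : ℝ) + 1) =
      10 ^ 6 * K ^ 2 * ((k : ℝ) + 1) * L)]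
  have hx1 : 5 * 10 ^ 5 * K ^ 2 ≤ x := by
    have : 10 ^ 6 * K ^ 2 * (1 / 2) ≤ 10 ^ 6 * K ^ 2 * L :=
      mul_le_mul_of_nonneg_left hL1.le (by positivity)
    linarith
  have hx2 : 5 * 10 ^ 5 ≤ x := by linarith
  have hT2 : x ≤ T := by
    rw [hTx]
    nlinarith
  refine ⟨by linarith, ?_, ?_⟩
  · push_cast
    rw [hTx]
    have h1 : 2 * K ≤ x := by linarith
    nlinarith
  · -- exponential
    have hT0 : 0 < T := by linarith
    have hT1 : 1 ≤ T := by linarith
    have hlogT0 : 0 ≤ Real.log T := Real.log_nonneg hT1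
    have h1 : 6 * (T ^ 3 + 1) ≤ 12 * T ^ 3 := by
      have : 1 ≤ T ^ 3 := one_le_pow₀ hT1
      linarith
    -- log x ≤ 2 sqrt x, sqrt x ≤ x / (700 K)
    have hx0 : 0 < x := by linarith
    have h2 : Real.log x ≤ 2 * √x := by
      have h3 := Real.log_le_sub_one_of_pos (Real.sqrt_pos.2 hx0)
      have h4 : Real.log x = 2 * Real.log (√x) := by
        rw [Real.log_sqrt hx0.le]
        ring
      rw [h4]
      linarith
    have h5 : √x * (700 * K) ≤ x := by
      have h6 : 700 * K ≤ √x := by
        apply Real.le_sqrt_of_sq_le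
        nlinarith
      calc √x * (700 * K) ≤ √x * √x := mul_le_mul_of_nonneg_left h6 (Real.sqrt_nonneg _)
        _ = x := Real.mul_self_sqrt hx0.le
    have h7 : Real.log x * (350 * K) ≤ x := by
      calc Real.log x * (350 * K) ≤ 2 * √x * (350 * K) :=
            mul_le_mul_of_nonneg_right h2 (by positivity)
        _ = √x * (700 * K) := by ring
        _ ≤ x := h5
    have h8 : Real.log T = Real.log x + Real.log ((k : ℝ) + 1) := by
      rw [hTx, Real.log_mul hx0.ne' hk1.ne']
    have h9 : Real.log ((k : ℝ) + 1) ≤ L := Real.log_le_log hk1 (by linarith)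
    have h10 : L * (10 ^ 6 * K) ≤ x := by
      have h11 : L * (10 ^ 6 * K) ≤ L * (10 ^ 6 * K ^ 2) :=
        mul_le_mul_of_nonneg_left (by linarith) (by linarith)
      linarith
    have h12 : Real.log 12 ≤ 3 := by
      have h13 : Real.log 12 ≤ Real.log (Real.exp 3) := by
        apply Real.log_le_log (by norm_num)
        have h14 := Real.exp_one_gt_d9
        have h15 : Real.exp 3 = Real.exp 1 ^ 3 := by
          rw [← Real.exp_nat_mul]
          norm_num
        rw [h15]
        nlinarith [pow_le_pow_left₀ (by norm_num : (0 : ℝ) ≤ 2.7) (by linarith : (2.7 : ℝ) ≤ Real.exp 1) 3]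
      rwa [Real.log_exp] at h13
    -- main inequality: log 4 + (k+1) (log 12 + 3 log T) ≤ T / K
    have h16 : Real.log 4 ≤ 2 := by
      have h17 : Real.log 4 = 2 * Real.log 2 := by
        rw [show (4 : ℝ) = 2 ^ 2 by norm_num, Real.log_pow]
        norm_num
      have := Real.log_two_lt_d9
      rw [h17]
      linarith
    have hK0 : 0 < K := by linarith
    have h18 : 2 + (3 + 3 * Real.log T) ≤ x / K := by
      rw [le_div_iff₀ hK0, h8]
      have hxK : 5 * 10 ^ 5 * K ≤ x := by linarith
      nlinarith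
    have h19 : Real.log 4 + ((k : ℝ) + 1) * (Real.log 12 + 3 * Real.log T) ≤ T / K := by
      have h20 : T / K = ((k : ℝ) + 1) * (x / K) := by
        rw [hTx]
        ring
      rw [h20]
      have h21 : ((k : ℝ) + 1) * (2 + (3 + 3 * Real.log T)) ≤ ((k : ℝ) + 1) * (x / K) :=
        mul_le_mul_of_nonneg_left h18 hk1.le
      have h22 : ((k : ℝ) + 1) * (Real.log 12) ≤ ((k : ℝ) + 1) * 3 :=
        mul_le_mul_of_nonneg_left h12 hk1.le
      nlinarith
    have h23 : 4 * (6 * (T ^ 3 + 1)) ^ (k + 1) ≤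
        Real.exp (Real.log 4 + ((k : ℝ) + 1) * (Real.log 12 + 3 * Real.log T)) := by
      have h24 : Real.exp (Real.log 12 + 3 * Real.log T) = 12 * T ^ 3 := by
        rw [Real.exp_add, Real.exp_log (by norm_num)]
        congr 1
        have h25 : 3 * Real.log T = Real.log (T ^ 3) := by
          rw [Real.log_pow]
          norm_num
        rw [h25, Real.exp_log (by positivity)]
      have h26 : Real.exp (((k : ℝ) + 1) * (Real.log 12 + 3 * Real.log T)) =
          (12 * T ^ 3) ^ (k + 1) := by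
        rw [← h24, ← Real.exp_nat_mul]
        congr 1
        push_cast
        ring
      rw [Real.exp_add, Real.exp_log (by norm_num), h26]
      refine mul_le_mul_of_nonneg_left ?_ (by norm_num)
      exact pow_le_pow_left₀ (by positivity) h1 _
    calc 4 * (6 * (T ^ 3 + 1)) ^ (k + 1) * Real.exp (-(T / K))
        ≤ Real.exp (Real.log 4 + ((k : ℝ) + 1) * (Real.log 12 + 3 * Real.log T)) *
            Real.exp (-(T / K)) := mul_le_mul_of_nonneg_right h23 (Real.exp_pos _).le
      _ ≤ Real.exp (T / K) * Real.exp (-(T / K)) :=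
          mul_le_mul_of_nonneg_right (Real.exp_le_exp.2 h19) (Real.exp_pos _).le
      _ = 1 := by
          rw [← Real.exp_add]
          simp

end Pool.Agent.Lib.MP_506ba8_co.P50
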