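import Pool.Agent.Lib.MP_506ba8_co.P50.Iface

/-!
Row Pot of board `lip_modules`: the potential after a step, deterministic.
-/

open Finset

namespace Pool.Agent.Lib.MP_506ba8_co.P50

/-- Young: `√u ≤ 3/20 + (125/4) u²`. -/
theorem Pot.young (u : ℝ) (hu : 0 ≤ u) : √u ≤ 3 / 20 + 125 / 4 * u ^ 2 := by
  have ht : 0 ≤ √u := Real.sqrt_nonneg u
  have h2 : √u ^ 2 = u := Real.sq_sqrt hu
  have h3 : 0 ≤ (√u - 1 / 5) ^ 2 * (125 / 4 * √u ^ 2 + 25 / 2 * √u + 15 / 4) := by positivity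
  have h4 : u ^ 2 = √u ^ 4 := by
    calc u ^ 2 = (√u ^ 2) ^ 2 := by rw [h2]
      _ = √u ^ 4 := by ring
  rw [h4]
  nlinarith [h3]

theorem Pot.sg_sq (b : Bool) : sg b * sg b = 1 := by
  cases b <;> simp [sg]

/-- The pointwise estimate. -/
theorem Pot.pointwise (y θ v s : ℝ) (hy : |y| ≤ 1) (hθ : |θ| ≤ 1) (hv : |v| ≤ 1)
    (hs : s * s = 1) (hsy : s * y = |y|) :
    √(1 - |y + (1 - |y|) * v|) ≤
      (if θ * s < 0 then √2 * √(1 - |y|) else 0) +
      (3 / 20 * √(1 - |y|) + 125 / 4 * (√(1 - |y|) * (v - θ) ^ 2)) +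
      (if |θ| < 1 then √2 else 0) := by
  have hδ : 0 ≤ 1 - |y| := by linarith
  have hD : 0 ≤ √(1 - |y|) := Real.sqrt_nonneg _
  have hD1 : √(1 - |y|) ≤ 1 := by
    rw [Real.sqrt_le_one]
    linarith [abs_nonneg y]
  have habs : |s| = 1 := by
    have h1 : |s| * |s| = 1 := by rw [← abs_mul, hs, abs_one]
    nlinarith [abs_nonneg s]
  have hsv : |s * v| ≤ 1 := by rw [abs_mul, habs, one_mul]; exact hv
  have hsv' := abs_le.mp hsv
  have h1 : 1 - |y + (1 - |y|) * v| ≤ (1 - |y|) * (1 - s * v) := by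
    have h2 : s * (y + (1 - |y|) * v) ≤ |y + (1 - |y|) * v| := by
      calc s * (y + (1 - |y|) * v) ≤ |s * (y + (1 - |y|) * v)| := le_abs_self _
        _ = |y + (1 - |y|) * v| := by rw [abs_mul, habs, one_mul]
    have h3 : s * (y + (1 - |y|) * v) = |y| + (1 - |y|) * (s * v) := by
      rw [mul_add, hsy]; ring
    nlinarith [h2, h3]
  have h2 : √(1 - |y + (1 - |y|) * v|) ≤ √(1 - |y|) * √(1 - s * v) := by
    rw [← Real.sqrt_mul hδ]
    exact Real.sqrt_le_sqrt h1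
  have h3 : √(1 - s * v) ≤ √2 := Real.sqrt_le_sqrt (by linarith [hsv'.1])
  have h2' : √(1 - |y|) * √(1 - s * v) ≤ √(1 - |y|) * √2 :=
    mul_le_mul_of_nonneg_left h3 hD
  have hnn : 0 ≤ 3 / 20 * √(1 - |y|) + 125 / 4 * (√(1 - |y|) * (v - θ) ^ 2) := by positivity
  have hr2 : 0 ≤ √2 := Real.sqrt_nonneg _
  by_cases hθ1 : |θ| < 1
  · rw [if_pos hθ1]
    have h4 : √(1 - |y|) * √2 ≤ √2 := by
      calc √(1 - |y|) * √2 ≤ 1 * √2 := mul_le_mul_of_nonneg_right hD1 hr2
        _ = √2 := one_mul _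
    have h5 : 0 ≤ (if θ * s < 0 then √2 * √(1 - |y|) else 0) := by
      split_ifs
      · positivity
      · exact le_rfl
    linarith
  · rw [if_neg hθ1]
    by_cases hθs : θ * s < 0
    · rw [if_pos hθs]
      have h5 : √(1 - |y|) * √2 = √2 * √(1 - |y|) := mul_comm _ _
      linarith
    · rw [if_neg hθs]
      have hθ2 : |θ| = 1 := le_antisymm hθ (not_lt.mp hθ1)
      have hθs1 : θ * s = 1 := by
        have h6 : |θ * s| = 1 := by rw [abs_mul, hθ2, habs, one_mul]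
        rwa [abs_of_nonneg (not_lt.mp hθs)] at h6
      have h7 : 1 - s * v = |v - θ| := by
        have h8 : |v - θ| = |s * (v - θ)| := by rw [abs_mul, habs, one_mul]
        have h9 : s * (v - θ) = -(1 - s * v) := by
          have : s * θ = 1 := by rw [mul_comm]; exact hθs1
          rw [mul_sub, this]; ring
        rw [h8, h9, abs_neg, abs_of_nonneg (by linarith [hsv'.2])]
      have h10 := Pot.young |v - θ| (abs_nonneg _)
      rw [sq_abs] at h10
      have h11 : √(1 - |y|) * √(1 - s * v) ≤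
          √(1 - |y|) * (3 / 20 + 125 / 4 * (v - θ) ^ 2) := by
        rw [h7]
        exact mul_le_mul_of_nonneg_left h10 hD
      have h12 : √(1 - |y|) * (3 / 20 + 125 / 4 * (v - θ) ^ 2) =
          3 / 20 * √(1 - |y|) + 125 / 4 * (√(1 - |y|) * (v - θ) ^ 2) := by ring
      linarith

/-- Row Pot. -/
theorem pot_proof : PotStatement := by
  intro m r y θ v s T hy hθ hv hs hr hT hΨ hneg hbt
  have hr2 : 0 ≤ √(2 : ℝ) := Real.sqrt_nonneg _
  have hr2' : √(2 : ℝ) ≤ 14143 / 10000 := by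
    rw [Real.sqrt_le_left (by norm_num)]
    norm_num
  have hTr : (r : ℝ) ≤ T / 100000 := by
    have : (0 : ℝ) ≤ r := Nat.cast_nonneg r
    linarith
  have hT0 : 0 ≤ T := by
    have : (0 : ℝ) ≤ r := Nat.cast_nonneg r
    linarith
  have h1 : Psi (fun j => y j + (1 - |y j|) * v j) ≤
      ∑ j, ((if θ j * sg (s j) < 0 then √2 * √(1 - |y j|) else 0) +
        (3 / 20 * √(1 - |y j|) + 125 / 4 * (√(1 - |y j|) * (v j - θ j) ^ 2)) +
        (if |θ j| < 1 then √2 else 0)) := by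
    unfold Psi
    exact Finset.sum_le_sum fun j _ =>
      Pot.pointwise (y j) (θ j) (v j) (sg (s j)) (hy j) (hθ j) (hv j) (Pot.sg_sq _) (hs j)
  rw [Finset.sum_add_distrib, Finset.sum_add_distrib, Finset.sum_add_distrib] at h1
  have h2 : (∑ j, if θ j * sg (s j) < 0 then √2 * √(1 - |y j|) else 0) =
      √2 * ∑ j, (if θ j * sg (s j) < 0 then √(1 - |y j|) else 0) := by
    rw [Finset.mul_sum]
    refine Finset.sum_congr rfl fun j _ => ?_
    split_ifs
    · rfl
    · rw [mul_zero]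
  have h3 : (∑ j, 3 / 20 * √(1 - |y j|)) = 3 / 20 * Psi y := by
    unfold Psi
    rw [Finset.mul_sum]
  have h4 : (∑ j, 125 / 4 * (√(1 - |y j|) * (v j - θ j) ^ 2)) ≤ 125 / 4 * (T / 10000) := by
    rw [← Finset.mul_sum]
    refine mul_le_mul_of_nonneg_left (le_trans ?_ hbt) (by norm_num)
    refine Finset.sum_le_sum fun j _ => mul_le_mul_of_nonneg_right ?_ (sq_nonneg _)
    unfold bt
    refine Real.sqrt_le_sqrt ?_
    have : 0 ≤ 1 / (m : ℝ) ^ 2 := by positivity
    linarith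
  have h5 : (∑ j, if |θ j| < 1 then √(2 : ℝ) else 0) ≤ √2 * r := by
    rw [← Finset.sum_filter, Finset.sum_const, nsmul_eq_mul, mul_comm]
    exact mul_le_mul_of_nonneg_left (by exact_mod_cast hr) hr2
  have h6 : √2 * ∑ j, (if θ j * sg (s j) < 0 then √(1 - |y j|) else 0) ≤
      14143 / 10000 * (T / 2 + T / 50000) := by
    have h7 : √2 * ∑ j, (if θ j * sg (s j) < 0 then √(1 - |y j|) else 0) ≤
        √2 * (T / 2 + T / 50000) := mul_le_mul_of_nonneg_left hneg hr2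
    have h8 : √2 * (T / 2 + T / 50000) ≤ 14143 / 10000 * (T / 2 + T / 50000) :=
      mul_le_mul_of_nonneg_right hr2' (by positivity)
    linarith
  have h9 : √2 * (r : ℝ) ≤ 14143 / 10000 * (T / 100000) := by
    calc √2 * (r : ℝ) ≤ √2 * (T / 100000) := mul_le_mul_of_nonneg_left hTr hr2
      _ ≤ 14143 / 10000 * (T / 100000) := mul_le_mul_of_nonneg_right hr2' (by positivity)
  rw [h2, h3] at h1
  linarith

end Pool.Agent.Lib.MP_506ba8_co.P50
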