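import Pool.Agent.Lib.MP_506ba8_co.P50.Iface

/-!
From sign vectors to subsets.
-/

open Finset

namespace Pool.Agent.Lib.MP_506ba8_co.P50

variable {m : ℕ}

/-- the set of a sign vector -/
def toSet (x : Fin m → Bool) : Finset (Fin m) := univ.filter (fun j => x j = true)

lemma mem_toSet {x : Fin m → Bool} {j : Fin m} : j ∈ toSet x ↔ x j = true := by
  simp [toSet]

lemma toSet_not (x : Fin m → Bool) : toSet (fun j => !(x j)) = (toSet x)ᶜ := by
  ext j
  rw [mem_compl, mem_toSet, mem_toSet]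
  cases x j <;> simp

lemma toSet_update_true (x : Fin m → Bool) (j : Fin m) :
    toSet (Function.update x j true) = insert j (toSet x) := by
  ext i
  rw [mem_insert, mem_toSet, mem_toSet]
  by_cases h : i = j
  · subst h; simp
  · simp [h]

lemma toSet_update_false (x : Fin m → Bool) (j : Fin m) :
    toSet (Function.update x j false) = (toSet x).erase j := by
  ext i
  rw [mem_erase, mem_toSet, mem_toSet]
  by_cases h : i = j
  · subst h; simp
  · simp [h]

lemma lip_insert {f : Finset (Fin m) → ℝ} (hf : ∀ S x, |f (insert x S) - f (S.erase x)| ≤ 1)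
    (S : Finset (Fin m)) (x : Fin m) : |f (insert x S) - f S| ≤ 1 := by
  by_cases h : x ∈ S
  · rw [insert_eq_of_mem h, sub_self, abs_zero]
    exact zero_le_one
  · have := hf S x
    rwa [erase_eq_of_notMem h] at this

lemma lip_erase {f : Finset (Fin m) → ℝ} (hf : ∀ S x, |f (insert x S) - f (S.erase x)| ≤ 1)
    (S : Finset (Fin m)) (x : Fin m) : |f (S.erase x) - f S| ≤ 1 := by
  by_cases h : x ∈ S
  · have := hf S x
    rwa [insert_eq_of_mem h, abs_sub_comm] at this
  · rw [erase_eq_of_notMem h, sub_self, abs_zero]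
    exact zero_le_one

lemma sum_sg (a : Fin m → ℝ) (x : Fin m → Bool) :
    ∑ j, a j * sg (x j) = ∑ g ∈ toSet x, a g - ∑ g ∈ (toSet x)ᶜ, a g := by
  have h1 : ∑ g ∈ toSet x, a g = ∑ g, if x g = true then a g else 0 := by
    rw [toSet, sum_filter]
  have h2 : ∑ g ∈ (toSet x)ᶜ, a g = ∑ g, if x g = true then 0 else a g := by
    rw [← toSet_not, toSet, sum_filter]
    refine sum_congr rfl fun g _ => ?_
    cases x g <;> simp
  rw [h1, h2, ← sum_sub_distrib]
  refine sum_congr rfl fun g _ => ?_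
  cases x g <;> simp [sg]

theorem sets_of_main (h : MainStatement) : ∃ C : ℝ, 0 ≤ C ∧
    ∀ (n m k : ℕ) (a : Fin n → Fin m → ℝ) (h : Fin k → Finset (Fin m) → ℝ),
      (∀ i g, |a i g| ≤ 1) →
      (∀ (l : Fin k) (S : Finset (Fin m)) (x : Fin m), |h l (insert x S) - h l (S.erase x)| ≤ 1) →
      ∃ A : Finset (Fin m),
        (∀ i, |∑ g ∈ A, a i g - ∑ g ∈ Aᶜ, a i g| ≤
          C * (√n + √(k + 1) * Real.log (n + k + 2))) ∧
        ∀ l, |h l A - h l Aᶜ| ≤ C * (√(k + 1) * Real.log (n + k + 2)) := by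
  obtain ⟨C, hC, hmain⟩ := h
  refine ⟨C, hC, ?_⟩
  intro n m k a h ha hh
  have hg1 : ∀ (l : Fin k) (x : Fin m → Bool) (j : Fin m) (b : Bool),
      |(h l (toSet (Function.update x j b)) - h l (toSet (Function.update x j b))ᶜ)
        - (h l (toSet x) - h l (toSet x)ᶜ)| ≤ 2 := by
    intro l x j b
    have e1 : ∀ (S : Finset (Fin m)) (x : Fin m), |h l (insert x S) - h l S| ≤ 1 :=
      lip_insert (hh l)
    have e2 : ∀ (S : Finset (Fin m)) (x : Fin m), |h l (S.erase x) - h l S| ≤ 1 :=
      lip_erase (hh l)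
    cases b
    · rw [toSet_update_false]
      have h1 := e2 (toSet x) j
      have h2 := e1 (toSet x)ᶜ j
      rw [← compl_erase] at h2
      calc |h l ((toSet x).erase j) - h l ((toSet x).erase j)ᶜ - (h l (toSet x) - h l (toSet x)ᶜ)|
          = |(h l ((toSet x).erase j) - h l (toSet x))
              - (h l ((toSet x).erase j)ᶜ - h l (toSet x)ᶜ)| := by congr 1; ring
        _ ≤ |h l ((toSet x).erase j) - h l (toSet x)|
              + |h l ((toSet x).erase j)ᶜ - h l (toSet x)ᶜ| := abs_sub _ _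
        _ ≤ 2 := by linarith
    · rw [toSet_update_true]
      have h1 := e1 (toSet x) j
      have h2 := e2 (toSet x)ᶜ j
      rw [← compl_insert] at h2
      calc |h l (insert j (toSet x)) - h l (insert j (toSet x))ᶜ - (h l (toSet x) - h l (toSet x)ᶜ)|
          = |(h l (insert j (toSet x)) - h l (toSet x))
              - (h l (insert j (toSet x))ᶜ - h l (toSet x)ᶜ)| := by congr 1; ring
        _ ≤ |h l (insert j (toSet x)) - h l (toSet x)|
              + |h l (insert j (toSet x))ᶜ - h l (toSet x)ᶜ| := abs_sub _ _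
        _ ≤ 2 := by linarith
  have hg2 : ∀ (l : Fin k) (x : Fin m → Bool),
      h l (toSet (fun j => !(x j))) - h l (toSet (fun j => !(x j)))ᶜ
        = -(h l (toSet x) - h l (toSet x)ᶜ) := by
    intro l x
    rw [toSet_not, compl_compl]
    ring
  obtain ⟨x, hx1, hx2⟩ := hmain n m k a (fun l x => h l (toSet x) - h l (toSet x)ᶜ) ha hg1 hg2
  refine ⟨toSet x, fun i => ?_, fun l => hx2 l⟩
  have := hx1 i
  rwa [sum_sg] at this

/-- The statement of the hand-in. -/
def ResStatement : Prop := ∃ C : ℝ,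
    (∀ (n m : ℕ) (f : Fin n → Finset (Fin m) → ℝ) (E : Finset (Fin n)),
      ((E.card : ℝ) + 1) * Real.log (n + 2) ^ 2 ≤ n →
      (∀ (i : Fin n) (S : Finset (Fin m)) (x : Fin m), |f i (insert x S) - f i (S.erase x)| ≤ 1) →
      (∀ i ∉ E, ∃ (a : Fin m → ℝ) (b : ℝ), ∀ S : Finset (Fin m), f i S = b + ∑ g ∈ S, a g) →
      ∃ A : Finset (Fin m), ∀ i, |f i A - f i Aᶜ| ≤ C * √n) ∧
    (∀ (n m k : ℕ) (a : Fin n → Fin m → ℝ) (h : Fin k → Finset (Fin m) → ℝ),
      (∀ i g, |a i g| ≤ 1) →
      (∀ (l : Fin k) (S : Finset (Fin m)) (x : Fin m), |h l (insert x S) - h l (S.erase x)| ≤ 1) →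
      ∃ A : Finset (Fin m), (∀ l, |h l A - h l Aᶜ| ≤ C * (√(k + 1) * Real.log (n + k + 2))) ∧
        ∀ f : Finset (Fin m) → ℝ,
          (∀ (S T : Finset (Fin m)) (δ : ℝ), 0 ≤ δ →
            (∀ i, |∑ g ∈ S, a i g - ∑ g ∈ T, a i g| ≤ δ) → (∀ l, |h l S - h l T| ≤ δ) →
            |f S - f T| ≤ δ) →
          |f A - f Aᶜ| ≤ C * (√n + √(k + 1) * Real.log (n + k + 2)))

theorem res_of_main (h : MainStatement) : ResStatement := by
  classical
  obtain ⟨C, hC, hsets⟩ := sets_of_main h
  refine ⟨3 * C, ?_, ?_⟩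
  · intro n m f E hE hf hadd
    choose! a b hab using hadd
    set a' : Fin n → Fin m → ℝ := fun i g => if i ∈ E then 0 else a i g with ha'
    set e := E.equivFin.symm with he
    have ha1 : ∀ i g, |a' i g| ≤ 1 := by
      intro i g
      simp only [ha']
      split_ifs with hi
      · simp
      · have h1 := lip_insert (hf i) ∅ g
        rw [hab i hi, hab i hi] at h1
        simpa using h1
    obtain ⟨A, hA1, hA2⟩ := hsets n m E.card a' (fun l S => f (e l) S) ha1
      (fun l S x => hf _ S x)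
    refine ⟨A, fun i => ?_⟩
    have hk : (E.card : ℝ) ≤ n := by
      have := Finset.card_le_univ E
      rw [Fintype.card_fin] at this
      exact_mod_cast this
    have hn0 : (0 : ℝ) ≤ n := Nat.cast_nonneg n
    have hL0 : 0 ≤ Real.log ((n : ℝ) + 2) := Real.log_nonneg (by linarith)
    have hlog : Real.log ((n : ℝ) + E.card + 2) ≤ 2 * Real.log ((n : ℝ) + 2) := by
      have h2 : 2 * Real.log ((n : ℝ) + 2) = Real.log (((n : ℝ) + 2) ^ 2) := by
        rw [Real.log_pow]
        norm_num
      rw [h2]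
      apply Real.log_le_log
      · have : (0 : ℝ) ≤ E.card := Nat.cast_nonneg _
        linarith
      · nlinarith
    have hs : √((E.card : ℝ) + 1) * Real.log ((n : ℝ) + 2) ≤ √n := by
      apply Real.le_sqrt_of_sq_le
      rw [mul_pow, Real.sq_sqrt (by positivity)]
      exact hE
    have hs2 : √((E.card : ℝ) + 1) * Real.log ((n : ℝ) + E.card + 2) ≤ 2 * √n := by
      calc √((E.card : ℝ) + 1) * Real.log ((n : ℝ) + E.card + 2)
          ≤ √((E.card : ℝ) + 1) * (2 * Real.log ((n : ℝ) + 2)) :=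
            mul_le_mul_of_nonneg_left hlog (Real.sqrt_nonneg _)
        _ = 2 * (√((E.card : ℝ) + 1) * Real.log ((n : ℝ) + 2)) := by ring
        _ ≤ 2 * √n := by linarith
    have hsn : 0 ≤ √(n : ℝ) := Real.sqrt_nonneg _
    by_cases hi : i ∈ E
    · have h3 := hA2 (E.equivFin ⟨i, hi⟩)
      simp only [he, Equiv.symm_apply_apply] at h3
      refine h3.trans ?_
      calc C * (√((E.card : ℝ) + 1) * Real.log ((n : ℝ) + E.card + 2)) ≤ C * (2 * √n) :=
            mul_le_mul_of_nonneg_left hs2 hC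
        _ ≤ 3 * C * √n := by nlinarith
    · have h3 := hA1 i
      have h4 : f i A - f i Aᶜ = ∑ g ∈ A, a' i g - ∑ g ∈ Aᶜ, a' i g := by
        rw [hab i hi, hab i hi]
        simp only [ha', hi, if_false]
        ring
      rw [h4]
      refine h3.trans ?_
      calc C * (√n + √((E.card : ℝ) + 1) * Real.log ((n : ℝ) + E.card + 2)) ≤ C * (√n + 2 * √n) :=
            mul_le_mul_of_nonneg_left (by linarith) hC
        _ = 3 * C * √n := by ring
  · intro n m k a h ha hh
    obtain ⟨A, hA1, hA2⟩ := hsets n m k a h ha hh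
    have hL : 0 ≤ √((k : ℝ) + 1) * Real.log ((n : ℝ) + k + 2) := by
      apply mul_nonneg (Real.sqrt_nonneg _)
      apply Real.log_nonneg
      have h1 : (0 : ℝ) ≤ n := Nat.cast_nonneg n
      have h2 : (0 : ℝ) ≤ k := Nat.cast_nonneg k
      linarith
    have hsn : 0 ≤ √(n : ℝ) := Real.sqrt_nonneg _
    refine ⟨A, fun l => (hA2 l).trans ?_, fun f hf => ?_⟩
    · apply mul_le_mul_of_nonneg_right _ hL
      linarith
    · refine hf A Aᶜ _ (by positivity) (fun i => (hA1 i).trans ?_) (fun l => (hA2 l).trans ?_)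
      · apply mul_le_mul_of_nonneg_right _ (by positivity)
        linarith
      · calc C * (√((k : ℝ) + 1) * Real.log ((n : ℝ) + k + 2))
            ≤ C * (√n + √((k : ℝ) + 1) * Real.log ((n : ℝ) + k + 2)) :=
              mul_le_mul_of_nonneg_left (by linarith) hC
          _ ≤ 3 * C * (√n + √((k : ℝ) + 1) * Real.log ((n : ℝ) + k + 2)) := by
              apply mul_le_mul_of_nonneg_right _ (by positivity)
              linarith

end Pool.Agent.Lib.MP_506ba8_co.P50
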