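import Pool.Agent.Lib.MP_506ba8_co.P50.Iface

/-!
Row Rnd: random rounding of a nearly integral point (Bernstein).
-/

open Finset

namespace Pool.Agent.Lib.MP_506ba8_co.P50

/-- the weights of the product measure add up to `1` -/
lemma rnd_sum_wt {m : ℕ} (p : Fin m → ℝ) : ∑ x, wt p x = 1 := by
  have h := Finset.prod_univ_sum (fun _ : Fin m => (Finset.univ : Finset Bool))
    (fun j (b : Bool) => if b = true then p j else 1 - p j)
  rw [Fintype.piFinset_univ] at h
  unfold wt
  rw [← h]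
  simp

lemma rnd_wt_nonneg {m : ℕ} (p : Fin m → ℝ) (hp : ∀ j, 0 ≤ p j ∧ p j ≤ 1) (x : Fin m → Bool) :
    0 ≤ wt p x := by
  unfold wt
  refine Finset.prod_nonneg fun j _ => ?_
  split_ifs
  · exact (hp j).1
  · linarith [(hp j).2]

lemma rnd_exp_le {x : ℝ} (hx : |x| ≤ 1) : Real.exp x ≤ 1 + x + x ^ 2 := by
  have h := Real.abs_exp_sub_one_sub_id_le hx
  have := (abs_le.1 h).2
  linarith

/-- the two point inequality -/
lemma rnd_two {p c a b : ℝ} (hp : 0 ≤ p ∧ p ≤ 1) (hc : c ≤ 1) (hab : |a - b| ≤ c) :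
    p * Real.exp a + (1 - p) * Real.exp b ≤
      Real.exp (p * (1 - p) * c ^ 2 + (p * a + (1 - p) * b)) := by
  obtain ⟨hp0, hp1⟩ := hp
  set d := a - b with hd
  set μ := p * a + (1 - p) * b with hμ
  have hd1 : |d| ≤ 1 := hab.trans hc
  have hc0 : 0 ≤ c := (abs_nonneg _).trans hab
  have e1 : a = μ + (1 - p) * d := by rw [hμ, hd]; ring
  have e2 : b = μ + (-(p * d)) := by rw [hμ, hd]; ring
  have h1 : Real.exp ((1 - p) * d) ≤ 1 + (1 - p) * d + ((1 - p) * d) ^ 2 := by
    refine rnd_exp_le ?_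
    rw [abs_mul, abs_of_nonneg (by linarith : (0 : ℝ) ≤ 1 - p)]
    have := abs_nonneg d
    nlinarith
  have h2 : Real.exp (-(p * d)) ≤ 1 + -(p * d) + (-(p * d)) ^ 2 := by
    refine rnd_exp_le ?_
    rw [abs_neg, abs_mul, abs_of_nonneg hp0]
    have := abs_nonneg d
    nlinarith
  have hq : 0 ≤ p * (1 - p) := mul_nonneg hp0 (by linarith)
  have hdc : d ^ 2 ≤ c ^ 2 := by
    rw [← sq_abs d]
    exact pow_le_pow_left₀ (abs_nonneg _) hab 2
  have h3 : p * Real.exp ((1 - p) * d) + (1 - p) * Real.exp (-(p * d)) ≤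
      Real.exp (p * (1 - p) * c ^ 2) := by
    have h4 : p * Real.exp ((1 - p) * d) ≤ p * (1 + (1 - p) * d + ((1 - p) * d) ^ 2) :=
      mul_le_mul_of_nonneg_left h1 hp0
    have h5 : (1 - p) * Real.exp (-(p * d)) ≤ (1 - p) * (1 + -(p * d) + (-(p * d)) ^ 2) :=
      mul_le_mul_of_nonneg_left h2 (by linarith)
    have h6 : p * (1 + (1 - p) * d + ((1 - p) * d) ^ 2) +
        (1 - p) * (1 + -(p * d) + (-(p * d)) ^ 2) = 1 + p * (1 - p) * d ^ 2 := by ring
    have h7 : p * (1 - p) * d ^ 2 ≤ p * (1 - p) * c ^ 2 := mul_le_mul_of_nonneg_left hdc hq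
    have h8 := Real.add_one_le_exp (p * (1 - p) * c ^ 2)
    linarith
  have ea : Real.exp a = Real.exp μ * Real.exp ((1 - p) * d) := by
    rw [← Real.exp_add, ← e1]
  have eb : Real.exp b = Real.exp μ * Real.exp (-(p * d)) := by
    rw [← Real.exp_add, ← e2]
  calc p * Real.exp a + (1 - p) * Real.exp b
      = Real.exp μ * (p * Real.exp ((1 - p) * d) + (1 - p) * Real.exp (-(p * d))) := by
        rw [ea, eb]
        ring
    _ ≤ Real.exp μ * Real.exp (p * (1 - p) * c ^ 2) :=
        mul_le_mul_of_nonneg_left h3 (Real.exp_pos _).le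
    _ = Real.exp (p * (1 - p) * c ^ 2 + μ) := by rw [← Real.exp_add, add_comm]

/-- one event -/
lemma rnd_event (h : MgfStatement) {m : ℕ} (g : (Fin m → Bool) → ℝ) (y : Fin m → ℝ)
    (D l : ℝ) (hy : Cube y) (hg : ∀ x j b, |g (Function.update x j b) - g x| ≤ 2)
    (hD : ∑ j, (1 - |y j|) ≤ D) (hl : 0 < l) (hlD : l ≤ D) :
    ∑ x, wt (fun j => (1 + y j) / 2) x *
      Real.exp (√(l / D) / 2 * ((g x - ext g y) - 4 * √(l * D))) ≤ Real.exp (-(3 / 2 * l)) := by
  have hD0 : 0 < D := hl.trans_le hlD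
  set r := √(l / D) / 2 with hr
  have hr0 : 0 ≤ r := by rw [hr]; positivity
  have hr2 : r ^ 2 = l / D / 4 := by
    rw [hr, div_pow, Real.sq_sqrt (by positivity)]; norm_num
  have hr1 : 2 * r ≤ 1 := by
    rw [hr]
    have : √(l / D) ≤ 1 := by
      rw [Real.sqrt_le_one]
      exact (div_le_one hD0).2 hlD
    linarith
  have hrs : r * (4 * √(l * D)) = 2 * l := by
    have h1 : √(l / D) * √(l * D) = l := by
      rw [← Real.sqrt_mul (by positivity)]
      have : l / D * (l * D) = l ^ 2 := by field_simp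
      rw [this, Real.sqrt_sq hl.le]
    rw [hr]
    linear_combination 2 * h1
  have hp : ∀ j, 0 ≤ (1 + y j) / 2 ∧ (1 + y j) / 2 ≤ 1 := by
    intro j
    have := abs_le.1 (hy j)
    constructor <;> linarith
  have key := h m (fun j => (1 + y j) / 2) (fun _ => 2 * r)
    (fun j => (1 + y j) / 2 * (1 - (1 + y j) / 2) * (2 * r) ^ 2) (fun x => r * g x) hp
    (fun x j b => by
      rw [← mul_sub, abs_mul, abs_of_nonneg hr0]
      have := hg x j b
      nlinarith)
    (fun j a b hab => rnd_two (hp j) hr1 hab)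
  have hψ : ∑ j, (1 + y j) / 2 * (1 - (1 + y j) / 2) * (2 * r) ^ 2 ≤ l / 2 := by
    have h1 : ∀ j ∈ (univ : Finset (Fin m)), (1 + y j) / 2 * (1 - (1 + y j) / 2) * (2 * r) ^ 2 ≤
        (1 - |y j|) * (2 * r ^ 2) := by
      intro j _
      have ha := hy j
      have hs := sq_abs (y j)
      have h0 := abs_nonneg (y j)
      have e : (1 + y j) / 2 * (1 - (1 + y j) / 2) = (1 - |y j|) * (1 + |y j|) / 4 := by
        linear_combination (1 / 4) * hs
      rw [e]
      have h2 : (1 - |y j|) * (1 + |y j|) / 4 ≤ (1 - |y j|) * 2 / 4 := by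
        have : (1 - |y j|) * (1 + |y j|) ≤ (1 - |y j|) * 2 :=
          mul_le_mul_of_nonneg_left (by linarith) (by linarith)
        linarith
      calc (1 - |y j|) * (1 + |y j|) / 4 * (2 * r) ^ 2
          ≤ (1 - |y j|) * 2 / 4 * (2 * r) ^ 2 := mul_le_mul_of_nonneg_right h2 (by positivity)
        _ = (1 - |y j|) * (2 * r ^ 2) := by ring
    refine (Finset.sum_le_sum h1).trans ?_
    rw [← Finset.sum_mul]
    calc (∑ j, (1 - |y j|)) * (2 * r ^ 2) ≤ D * (2 * r ^ 2) :=
          mul_le_mul_of_nonneg_right hD (by positivity)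
      _ = l / 2 := by rw [hr2]; field_simp; norm_num
  have hmean : ∑ x, wt (fun j => (1 + y j) / 2) x * (r * g x) = r * ext g y := by
    unfold ext
    rw [Finset.mul_sum]
    exact Finset.sum_congr rfl fun x _ => by ring
  rw [hmean] at key
  have hsplit : ∀ x, wt (fun j => (1 + y j) / 2) x *
      Real.exp (r * ((g x - ext g y) - 4 * √(l * D))) =
      (wt (fun j => (1 + y j) / 2) x * Real.exp (r * g x)) * Real.exp (-(r * ext g y) - 2 * l) := by
    intro x
    rw [mul_assoc, ← Real.exp_add]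
    congr 2
    linear_combination -hrs
  rw [Finset.sum_congr rfl fun x _ => hsplit x, ← Finset.sum_mul]
  calc (∑ x, wt (fun j => (1 + y j) / 2) x * Real.exp (r * g x)) *
        Real.exp (-(r * ext g y) - 2 * l)
      ≤ Real.exp (∑ j, (1 + y j) / 2 * (1 - (1 + y j) / 2) * (2 * r) ^ 2 + r * ext g y) *
        Real.exp (-(r * ext g y) - 2 * l) :=
        mul_le_mul_of_nonneg_right key (Real.exp_pos _).le
    _ = Real.exp (∑ j, (1 + y j) / 2 * (1 - (1 + y j) / 2) * (2 * r) ^ 2 - 2 * l) := by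
        rw [← Real.exp_add]
        congr 1
        ring
    _ ≤ Real.exp (-(3 / 2 * l)) := Real.exp_le_exp.2 (by linarith)

theorem rnd_proof (h : MgfStatement) : RndStatement := by
  intro m N g y D l hy hg hD hl hlD
  rcases Nat.eq_zero_or_pos N with hN | hN
  · subst hN
    exact ⟨fun _ => true, fun i => i.elim0⟩
  have hN1 : (1 : ℝ) ≤ N := by exact_mod_cast hN
  have hl0 : 0 < l := lt_of_lt_of_le (Real.log_pos (by linarith)) hl
  have hD0 : 0 < D := hl0.trans_le hlD
  by_contra hcon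
  push Not at hcon
  have hp : ∀ j, 0 ≤ (1 + y j) / 2 ∧ (1 + y j) / 2 ≤ 1 := by
    intro j
    have := abs_le.1 (hy j)
    constructor <;> linarith
  -- the negative of a function
  have hneg : ∀ i, ext (fun x => -g i x) y = -ext (g i) y := by
    intro i
    unfold ext
    rw [← Finset.sum_neg_distrib]
    exact Finset.sum_congr rfl fun x _ => by ring
  have h1 : ∀ i, ∑ x, wt (fun j => (1 + y j) / 2) x *
      (Real.exp (√(l / D) / 2 * ((g i x - ext (g i) y) - 4 * √(l * D))) +
       Real.exp (√(l / D) / 2 * ((-g i x - -ext (g i) y) - 4 * √(l * D)))) ≤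
      2 * Real.exp (-(3 / 2 * l)) := by
    intro i
    have ha := rnd_event h (g i) y D l hy (hg i) hD hl0 hlD
    have hb := rnd_event h (fun x => -g i x) y D l hy (fun x j b => by
      have := hg i x j b
      rw [← neg_sub', abs_neg]
      exact this) hD hl0 hlD
    rw [hneg] at hb
    simp only [mul_add, Finset.sum_add_distrib]
    linarith
  have h2 : (1 : ℝ) ≤ ∑ i : Fin N, ∑ x, wt (fun j => (1 + y j) / 2) x *
      (Real.exp (√(l / D) / 2 * ((g i x - ext (g i) y) - 4 * √(l * D))) +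
       Real.exp (√(l / D) / 2 * ((-g i x - -ext (g i) y) - 4 * √(l * D)))) := by
    rw [Finset.sum_comm]
    calc (1 : ℝ) = ∑ x, wt (fun j => (1 + y j) / 2) x := (rnd_sum_wt _).symm
      _ ≤ _ := by
        refine Finset.sum_le_sum fun x _ => ?_
        rw [← Finset.mul_sum]
        obtain ⟨i, hi⟩ := hcon x
        have h3 : (1 : ℝ) ≤
            Real.exp (√(l / D) / 2 * ((g i x - ext (g i) y) - 4 * √(l * D))) +
            Real.exp (√(l / D) / 2 * ((-g i x - -ext (g i) y) - 4 * √(l * D))) := by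
          have hr0 : 0 ≤ √(l / D) / 2 := by positivity
          rcases lt_abs.1 hi with h4 | h4
          · have : (1 : ℝ) ≤ Real.exp (√(l / D) / 2 * ((g i x - ext (g i) y) - 4 * √(l * D))) :=
              Real.one_le_exp (mul_nonneg hr0 (by linarith))
            have := Real.exp_pos (√(l / D) / 2 * ((-g i x - -ext (g i) y) - 4 * √(l * D)))
            linarith
          · have : (1 : ℝ) ≤ Real.exp (√(l / D) / 2 * ((-g i x - -ext (g i) y) - 4 * √(l * D))) :=
              Real.one_le_exp (mul_nonneg hr0 (by linarith))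
            have := Real.exp_pos (√(l / D) / 2 * ((g i x - ext (g i) y) - 4 * √(l * D)))
            linarith
        have h5 : (1 : ℝ) ≤ ∑ i : Fin N,
            (Real.exp (√(l / D) / 2 * ((g i x - ext (g i) y) - 4 * √(l * D))) +
            Real.exp (√(l / D) / 2 * ((-g i x - -ext (g i) y) - 4 * √(l * D)))) :=
          h3.trans (Finset.single_le_sum (f := fun i : Fin N =>
            (Real.exp (√(l / D) / 2 * ((g i x - ext (g i) y) - 4 * √(l * D))) +
            Real.exp (√(l / D) / 2 * ((-g i x - -ext (g i) y) - 4 * √(l * D)))))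
            (fun i _ => by positivity) (Finset.mem_univ i))
        exact le_mul_of_one_le_right (rnd_wt_nonneg _ hp x) h5
  have h6 := Finset.sum_le_sum fun (i : Fin N) (_ : i ∈ univ) => h1 i
  rw [Finset.sum_const, Finset.card_univ, Fintype.card_fin, nsmul_eq_mul] at h6
  have h7 : Real.exp (-(3 / 2 * l)) ≤ Real.exp (-l) := Real.exp_le_exp.2 (by linarith)
  have h8 : Real.exp (-l) ≤ (2 * (N : ℝ) + 1)⁻¹ := by
    rw [← Real.exp_log (by positivity : (0 : ℝ) < (2 * (N : ℝ) + 1)⁻¹), Real.log_inv]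
    exact Real.exp_le_exp.2 (by linarith)
  have h9 : (N : ℝ) * (2 * Real.exp (-(3 / 2 * l))) ≤ N * (2 * (2 * (N : ℝ) + 1)⁻¹) :=
    mul_le_mul_of_nonneg_left (by linarith) (by positivity)
  have h10 : (N : ℝ) * (2 * (2 * (N : ℝ) + 1)⁻¹) < 1 := by
    rw [← mul_assoc, ← div_eq_mul_inv, div_lt_one (by positivity)]
    linarith
  linarith

end Pool.Agent.Lib.MP_506ba8_co.P50
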