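import Pool.Agent.Lib.MP_506ba8_co.P50.Iface

/-!
Row Sel: one stage of the iteration.
-/

open Finset

namespace Pool.Agent.Lib.MP_506ba8_co.P50

lemma cube_iff {m : ℕ} (y : Fin m → ℝ) : Cube y ↔ ‖y‖ ≤ 1 := by
  rw [pi_norm_le_iff_of_nonneg zero_le_one]
  rfl

lemma isCompact_cc (m : ℕ) :
    IsCompact {q : (Fin m → ℝ) × (Fin m → ℝ) | Cube q.1 ∧ Cube q.2} := by
  have h := (isCompact_closedBall (0 : Fin m → ℝ) 1).prod (isCompact_closedBall (0 : Fin m → ℝ) 1)
  have he : {q : (Fin m → ℝ) × (Fin m → ℝ) | Cube q.1 ∧ Cube q.2}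
      = Metric.closedBall (0 : Fin m → ℝ) 1 ×ˢ Metric.closedBall (0 : Fin m → ℝ) 1 := by
    ext q
    simp only [Set.mem_ofPred_eq, Set.mem_prod, mem_closedBall_zero_iff, cube_iff]
  rw [he]
  exact h

lemma isCompact_sp (k : ℕ) : IsCompact {z : Fin (k + 1) → ℝ | ‖z‖ = 1} := by
  have := isCompact_sphere (0 : Fin (k + 1) → ℝ) 1
  simpa [Metric.sphere, dist_zero_right] using this

lemma cube_mv {m : ℕ} {y v : Fin m → ℝ} (hy : Cube y) (hv : Cube v) :
    Cube (fun j => y j + (1 - |y j|) * v j) := by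
  intro j
  have h1 : 0 ≤ 1 - |y j| := by linarith [hy j]
  calc |y j + (1 - |y j|) * v j| ≤ |y j| + |(1 - |y j|) * v j| := abs_add_le _ _
    _ = |y j| + (1 - |y j|) * |v j| := by rw [abs_mul, abs_of_nonneg h1]
    _ ≤ |y j| + (1 - |y j|) * 1 := by
        have := mul_le_mul_of_nonneg_left (hv j) h1
        linarith
    _ = 1 := by ring

lemma mv_neg {n m : ℕ} {a : Fin n → Fin m → ℝ} {w ρ : ℝ}
    {Φ : (Fin m → ℝ) → (Fin m → ℝ) → (Fin m → ℝ)} (h : IsStep a w ρ Φ) {y θ : Fin m → ℝ}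
    (hy : Cube y) (hθ : Cube θ) : mv Φ (-y) (-θ) = -mv Φ y θ := by
  funext j
  simp only [mv, h.odd y θ hy hθ, Pi.neg_apply, abs_neg]
  ring

lemma continuousOn_mv {n m : ℕ} {a : Fin n → Fin m → ℝ} {w ρ : ℝ}
    {Φ : (Fin m → ℝ) → (Fin m → ℝ) → (Fin m → ℝ)} (h : IsStep a w ρ Φ) :
    ContinuousOn (fun q : (Fin m → ℝ) × (Fin m → ℝ) => mv Φ q.1 q.2)
      {q | Cube q.1 ∧ Cube q.2} := by
  refine continuousOn_pi.mpr fun j => ?_
  have h1 : ContinuousOn (fun q : (Fin m → ℝ) × (Fin m → ℝ) => Φ q.1 q.2 j)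
      {q | Cube q.1 ∧ Cube q.2} := (continuousOn_pi.mp h.cont) j
  have h2 : Continuous (fun q : (Fin m → ℝ) × (Fin m → ℝ) => q.1 j) := by fun_prop
  show ContinuousOn (fun q : (Fin m → ℝ) × (Fin m → ℝ) => q.1 j + (1 - |q.1 j|) * Φ q.1 q.2 j) _
  exact h2.continuousOn.add (((continuous_const.sub h2.abs).continuousOn).mul h1)

lemma continuous_Psi (m : ℕ) : Continuous (Psi : (Fin m → ℝ) → ℝ) := by
  unfold Psi
  fun_prop

lemma sg_mul_sg (a b : Bool) : sg a * sg b = sg (a == b) := by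
  cases a <;> cases b <;> simp [sg]

lemma abs_sg (b : Bool) : |sg b| = 1 := by cases b <;> simp [sg]

/-- being in a cell -/
def InCell {k N : ℕ} (p : Fin (k + 1) → Fin (N + 1)) (s : Fin (k + 1) → Bool)
    (z : Fin (k + 1) → ℝ) : Prop :=
  ‖z‖ = 1 ∧ (∀ i, ((p i : ℕ) : ℝ) ≤ N * |z i| ∧ N * |z i| < (p i : ℕ) + 1) ∧
    ∀ i, (s i = true ↔ 0 ≤ z i)

/-- centre of a cell -/
lemma exists_centre (k N : ℕ) : ∃ zc : (Fin (k + 1) → Fin (N + 1)) → (Fin (k + 1) → Bool) →
    (Fin (k + 1) → ℝ), (∀ p s, ‖zc p s‖ = 1) ∧ ∀ p s, (∃ z, InCell p s z) → InCell p s (zc p s) := by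
  classical
  refine ⟨fun p s => if h : ∃ z, InCell p s z then h.choose else fun _ => 1, ?_, ?_⟩
  · intro p s
    by_cases h : ∃ z, InCell p s z
    · simp only [h, dif_pos]
      exact h.choose_spec.1
    · simp only [h, dif_neg, not_false_eq_true]
      rw [pi_norm_const]
      simp
  · intro p s h
    simp only [h, dif_pos]
    exact h.choose_spec

lemma inCell_dist {k N : ℕ} (hN : 0 < N) {p : Fin (k + 1) → Fin (N + 1)}
    {s : Fin (k + 1) → Bool} {z z' : Fin (k + 1) → ℝ} (h : InCell p s z) (h' : InCell p s z') :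
    dist z z' ≤ 1 / N := by
  have hN' : (0 : ℝ) < N := by exact_mod_cast hN
  rw [dist_pi_le_iff (by positivity)]
  intro i
  rw [Real.dist_eq]
  obtain ⟨h1, h2⟩ := h.2.1 i
  obtain ⟨h3, h4⟩ := h'.2.1 i
  have hs := h.2.2 i
  have hs' := h'.2.2 i
  have key : |z i - z' i| = abs (abs (z i) - abs (z' i)) := by
    by_cases hc : s i = true
    · have a1 := hs.mp hc
      have a2 := hs'.mp hc
      rw [abs_of_nonneg a1, abs_of_nonneg a2]
    · have a1 : z i < 0 := by
        by_contra hcon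
        exact hc (hs.mpr (not_lt.mp hcon))
      have a2 : z' i < 0 := by
        by_contra hcon
        exact hc (hs'.mpr (not_lt.mp hcon))
      rw [abs_of_neg a1, abs_of_neg a2, ← abs_neg (z i - z' i)]
      congr 1
      ring
  rw [key]
  have hd : abs ((N : ℝ) * abs (z i) - N * abs (z' i)) ≤ 1 := by
    rw [abs_le]
    constructor <;> linarith
  rw [← mul_sub, abs_mul, abs_of_pos hN'] at hd
  rw [le_div_iff₀ hN']
  linarith

/-- the cell of a point -/
lemma exists_cell' {k N : ℕ} {z : Fin (k + 1) → ℝ} (hz : ‖z‖ = 1) :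
    ∃ (p : Fin (k + 1) → Fin (N + 1)) (s : Fin (k + 1) → Bool), InCell p s z := by
  have h1 : ∀ i, |z i| ≤ 1 := fun i => by
    have := norm_le_pi_norm z i
    rw [hz] at this
    simpa using this
  have h2 : ∀ i, ⌊(N : ℝ) * |z i|⌋₊ < N + 1 := by
    intro i
    have h3 : (N : ℝ) * |z i| ≤ N := by
      have := mul_le_mul_of_nonneg_left (h1 i) (Nat.cast_nonneg N : (0 : ℝ) ≤ N)
      linarith
    have h4 : ⌊(N : ℝ) * |z i|⌋₊ ≤ ⌊(N : ℝ)⌋₊ := Nat.floor_le_floor h3
    rw [Nat.floor_natCast] at h4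
    omega
  refine ⟨fun i => ⟨⌊(N : ℝ) * |z i|⌋₊, h2 i⟩, fun i => decide (0 ≤ z i), hz, fun i => ⟨?_, ?_⟩,
    fun i => by simp⟩
  · exact Nat.floor_le (by positivity)
  · exact Nat.lt_floor_add_one _

section bad

variable {n m k : ℕ}

open Classical in
/-- the bad sign vectors of a cell -/
noncomputable def Bad (Φ : (Fin m → ℝ) → (Fin m → ℝ) → (Fin m → ℝ)) (y : Fin m → ℝ)
    (σ : Fin m → Bool) (r : ℕ) (T : ℝ) : Finset (Fin m → Bool) :=
  univ.filter (fun ξ => ∃ θ : Fin m → ℝ, Cube θ ∧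
    ((univ.filter (fun j => |y j| < 1)).filter (fun j => θ j ≠ sg (ξ j) * sg (σ j))).card ≤ r ∧
    9 / 10 * T < Psi (mv Φ y θ))

lemma mem_Bad {Φ : (Fin m → ℝ) → (Fin m → ℝ) → (Fin m → ℝ)} {y : Fin m → ℝ}
    {σ : Fin m → Bool} {r : ℕ} {T : ℝ} {ξ : Fin m → Bool} : ξ ∈ Bad Φ y σ r T ↔
    ∃ θ : Fin m → ℝ, Cube θ ∧
    ((univ.filter (fun j => |y j| < 1)).filter (fun j => θ j ≠ sg (ξ j) * sg (σ j))).card ≤ r ∧
    9 / 10 * T < Psi (mv Φ y θ) := by
  classical
  rw [Bad, Finset.mem_filter]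
  simp

lemma Bad_dep {Φ : (Fin m → ℝ) → (Fin m → ℝ) → (Fin m → ℝ)} {y : Fin m → ℝ}
    {σ : Fin m → Bool} {r : ℕ} {T : ℝ} {ξ ξ' : Fin m → Bool}
    (h : ∀ j ∈ univ.filter (fun j => |y j| < 1), ξ j = ξ' j) (hξ : ξ ∈ Bad Φ y σ r T) :
    ξ' ∈ Bad Φ y σ r T := by
  rw [mem_Bad] at hξ ⊢
  obtain ⟨θ, h1, h2, h3⟩ := hξ
  refine ⟨θ, h1, ?_, h3⟩
  rw [Finset.filter_congr (q := fun j => θ j ≠ sg (ξ j) * sg (σ j))]
  · exact h2
  · intro j hj
    rw [h j hj]

lemma card_Bad {a : Fin n → Fin m → ℝ} {w ρ : ℝ}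
    {Φ : (Fin m → ℝ) → (Fin m → ℝ) → (Fin m → ℝ)} (hΦ : IsStep a w ρ Φ) {y : Fin m → ℝ}
    (hy : Cube y) {σ : Fin m → Bool} {r : ℕ} {T : ℝ} {B0 : Finset (Fin m → Bool)}
    (hB : ∀ ξ, ξ ∉ B0 → ∀ θ, Cube θ → (univ.filter (fun j => θ j ≠ sg (ξ j))).card ≤ r →
      Psi (mv Φ y θ) ≤ 9 / 10 * T) : (Bad Φ y σ r T).card ≤ B0.card := by
  classical
  refine Finset.card_le_card_of_injOn (fun ξ j => ξ j == σ j) ?_ ?_
  · intro ξ hξ
    rw [Finset.mem_coe, mem_Bad] at hξ
    obtain ⟨θ, h1, h2, h3⟩ := hξ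
    rw [Finset.mem_coe]
    by_contra hcon
    set I := univ.filter (fun j => |y j| < 1) with hI
    set θ' : Fin m → ℝ := fun j => if |y j| < 1 then θ j else sg (ξ j == σ j) with hθ'
    have hc : Cube θ' := by
      intro j
      simp only [hθ']
      split_ifs
      · exact h1 j
      · rw [abs_sg]
    have h4 := hB _ hcon θ' hc (by
      refine le_trans (Finset.card_le_card ?_) h2
      intro j hj
      rw [Finset.mem_filter] at hj ⊢
      by_cases hj1 : |y j| < 1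
      · refine ⟨by simp [hI, hj1], ?_⟩
        have := hj.2
        simp only [hθ', hj1, if_true] at this
        rw [sg_mul_sg]
        exact this
      · exfalso
        apply hj.2
        simp only [hθ', hj1, if_false])
    have h5 : mv Φ y θ' = mv Φ y θ := by
      funext j
      simp only [mv]
      by_cases hj1 : |y j| < 1
      · rw [hΦ.loc y θ' θ hy hc h1 (fun j hj => by simp only [hθ', hj, if_true]) j hj1]
      · have : |y j| = 1 := le_antisymm (hy j) (not_lt.mp hj1)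
        rw [this]
        ring
    rw [h5] at h4
    linarith
  · intro ξ _ ξ' _ h
    funext j
    have := congrFun h j
    simp only at this
    revert this
    cases ξ j <;> cases ξ' j <;> cases σ j <;> simp

end bad

theorem sel_proof (h1 : StepStatement) (h2 : StageStatement) (h3 : CovStatement)
    (h4 : XiStatement) (h5 : TrnStatement) (h6 : NumStatement) : SelStatement := by
  classical
  obtain ⟨K0, hK0, hst⟩ := h2
  refine ⟨K0, hK0, fun K hK => ?_⟩
  obtain ⟨K1, hK1, hnum⟩ := h6 K (hK0.trans hK)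
  refine ⟨K1, hK1, ?_⟩
  intro n m k a T Y ha hm hT hYc hYodd hYcube hYPsi
  obtain ⟨hT2, hTK, hTe⟩ := hnum k T hT
  have hT0 : 0 < T := by linarith
  have hK0' : 0 < K := by linarith
  have hw : 0 ≤ Wd K n T := by
    unfold Wd
    split_ifs <;> positivity
  obtain ⟨Φ, hΦ⟩ := h1 n m a (Wd K n T) (1 / T) ha hw (by positivity)
  obtain ⟨tr, htc, htodd, htr⟩ := h5 m T hT2
  -- the truncated map
  set Yt : (Fin (k + 1) → ℝ) → (Fin m → ℝ) := fun z => tr (Y z) with hYt
  have hYtc : ContinuousOn Yt {z | ‖z‖ = 1} := htc.comp_continuousOn hYc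
  have hYtcube : ∀ z, ‖z‖ = 1 → Cube (Yt z) := fun z hz => (htr _ (hYcube z hz)).1
  have hYtPsi : ∀ z, ‖z‖ = 1 → Psi (Yt z) ≤ T := fun z hz =>
    (htr _ (hYcube z hz)).2.1.trans (hYPsi z hz)
  have hnkcube : ∀ z : Fin (k + 1) → ℝ, ‖z‖ = 1 → Cube (H52.nk m z) :=
    fun z hz j => H52.abs_nk_le hz j
  -- uniform continuity
  have hF : ContinuousOn (fun q : (Fin m → ℝ) × (Fin m → ℝ) => Psi (mv Φ q.1 q.2))
      {q | Cube q.1 ∧ Cube q.2} := (continuous_Psi m).comp_continuousOn (continuousOn_mv hΦ)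
  have hFu := (isCompact_cc m).uniformContinuousOn_of_continuous hF
  rw [Metric.uniformContinuousOn_iff] at hFu
  obtain ⟨δ, hδ, hFδ⟩ := hFu (T / 20) (by positivity)
  have hYu := (isCompact_sp k).uniformContinuousOn_of_continuous hYtc
  rw [Metric.uniformContinuousOn_iff] at hYu
  obtain ⟨δ1, hδ1, hYδ⟩ := hYu δ hδ
  have hnu := (isCompact_sp k).uniformContinuousOn_of_continuous
    (H52.continuousOn_nk (r := k) (m := m))
  rw [Metric.uniformContinuousOn_iff] at hnu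
  obtain ⟨δ2, hδ2, hnδ⟩ := hnu δ hδ
  obtain ⟨N', hN'⟩ := exists_nat_one_div_lt (lt_min hδ1 hδ2)
  set N : ℕ := N' + 1 with hN
  have hNpos : 0 < N := by omega
  have hNlt : 1 / (N : ℝ) < min δ1 δ2 := by
    rw [hN]
    push_cast
    exact hN'
  -- centres and bad sets
  obtain ⟨zc, hzc1, hzc2⟩ := exists_centre k N
  set σ : (Fin (k + 1) → Fin (N + 1)) → (Fin (k + 1) → Bool) → (Fin m → Bool) :=
    fun p s j => decide (0 ≤ H52.nk m (zc p s) j) with hσ
  set I : (Fin (k + 1) → Fin (N + 1)) → (Fin (k + 1) → Bool) → Finset (Fin m) :=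
    fun p s => univ.filter (fun j => |Yt (zc p s) j| < 1) with hI
  set B : (Fin (k + 1) → Fin (N + 1)) → (Fin (k + 1) → Bool) → Finset (Fin m → Bool) :=
    fun p s => Bad Φ (Yt (zc p s)) (σ p s) (2 * k + 1) T with hB
  have hIcard : ∀ p s, (I p s).card ≤ ⌊T ^ 3⌋₊ := by
    intro p s
    apply Nat.le_floor
    have h7 := (htr _ (hYcube _ (hzc1 p s))).2.2.2
    refine h7.trans ?_
    calc T ^ 2 * Psi (Y (zc p s)) ≤ T ^ 2 * T :=
          mul_le_mul_of_nonneg_left (hYPsi _ (hzc1 p s)) (by positivity)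
      _ = T ^ 3 := by ring
  have hBcard : ∀ p s, ((B p s).card : ℝ) ≤ 2 ^ m * Real.exp (-(T / K)) := by
    intro p s
    obtain ⟨B0, hB0, hB0'⟩ := hst K hK n m (2 * k + 1) a T (1 / T) Φ (Yt (zc p s)) ha
      (by exact_mod_cast hTK) hΦ (hYtcube _ (hzc1 p s)) (hYtPsi _ (hzc1 p s))
    have h8 : (B p s).card ≤ B0.card := card_Bad hΦ (hYtcube _ (hzc1 p s)) hB0'
    exact le_trans (by exact_mod_cast h8) hB0
  obtain ⟨ω, hω⟩ := h3 k m N ⌊T ^ 3⌋₊ (Real.exp (-(T / K))) I B hIcard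
    (fun p s ξ ξ' h hξ => Bad_dep h hξ) hBcard (Real.exp_pos _).le (by
      refine le_trans ?_ hTe
      have h9 : ((⌊T ^ 3⌋₊ : ℕ) : ℝ) ≤ T ^ 3 := Nat.floor_le (by positivity)
      have h10 : (6 * (((⌊T ^ 3⌋₊ : ℕ) : ℝ) + 1)) ^ (k + 1) ≤ (6 * (T ^ 3 + 1)) ^ (k + 1) := by
        apply pow_le_pow_left₀ (by positivity)
        linarith
      exact mul_le_mul_of_nonneg_right (mul_le_mul_of_nonneg_left h10 (by norm_num))
        (Real.exp_pos _).le)
  obtain ⟨Ξ, hΞc, hΞe, hΞcube, hΞp⟩ := h4 k m N ω hm hNpos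
  have hz1 : ∀ z : Fin (k + 1) → ℝ, ‖z‖ = 1 → ∀ i, |z i| ≤ 1 := fun z hz i => by
    have := norm_le_pi_norm z i
    rw [hz] at this
    simpa using this
  have hprod : ∀ z z' : Fin (k + 1) → ℝ, ‖z‖ = 1 → ‖z'‖ = 1 →
      Cube (fun j => Ξ z j * H52.nk m z' j) := by
    intro z z' hz hz' j
    simp only
    rw [abs_mul]
    exact mul_le_one₀ (hΞcube z (hz1 z hz) j) (abs_nonneg _) (hnkcube z' hz' j)
  refine ⟨fun z => mv Φ (Yt z) (fun j => Ξ z j * H52.nk m z j), ?_, ?_, ?_, ?_, ?_⟩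
  · -- continuity
    have hq : ContinuousOn (fun z : Fin (k + 1) → ℝ =>
        ((Yt z, fun j => Ξ z j * H52.nk m z j) : (Fin m → ℝ) × (Fin m → ℝ))) {z | ‖z‖ = 1} := by
      refine hYtc.prodMk (continuousOn_pi.mpr fun j => ?_)
      have hc1 : Continuous (fun z => Ξ z j) := (continuous_apply j).comp hΞc
      exact hc1.continuousOn.mul ((continuousOn_pi.mp H52.continuousOn_nk) j)
    exact (continuousOn_mv hΦ).comp hq (fun z hz => ⟨hYtcube z hz, hprod z z hz hz⟩)
  · -- oddness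
    intro z hz
    have e1 : Yt (-z) = -Yt z := by
      simp only [hYt]
      rw [hYodd z hz, htodd]
    have e2 : (fun j => Ξ (-z) j * H52.nk m (-z) j) = -(fun j => Ξ z j * H52.nk m z j) := by
      funext j
      rw [hΞe, H52.nk_neg, Pi.neg_apply]
      ring
    simp only
    rw [e1, e2, mv_neg hΦ (hYtcube z hz) (hprod z z hz hz)]
  · -- cube
    intro z hz
    exact cube_mv (hYtcube z hz) (hΦ.bd _ _ (hYtcube z hz) (hprod z z hz hz))
  · -- potential
    intro z hz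
    obtain ⟨p, s, hps⟩ := exists_cell' (N := N) hz
    have hc := hzc2 p s ⟨z, hps⟩
    have hd := inCell_dist hNpos hps hc
    have hd1 : dist z (zc p s) < δ1 := lt_of_le_of_lt hd (hNlt.trans_le (min_le_left _ _))
    have hd2 : dist z (zc p s) < δ2 := lt_of_le_of_lt hd (hNlt.trans_le (min_le_right _ _))
    have hy := hYδ z hz (zc p s) hc.1 hd1
    have hn := hnδ z hz (zc p s) hc.1 hd2
    have hθ : dist (fun j => Ξ z j * H52.nk m z j) (fun j => Ξ z j * H52.nk m (zc p s) j) < δ := by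
      rw [dist_pi_lt_iff hδ] at hn ⊢
      intro j
      have h11 := hn j
      rw [Real.dist_eq] at h11 ⊢
      rw [← mul_sub, abs_mul]
      have h12 := hΞcube z (hz1 z hz) j
      calc |Ξ z j| * |H52.nk m z j - H52.nk m (zc p s) j|
          ≤ 1 * |H52.nk m z j - H52.nk m (zc p s) j| :=
            mul_le_mul_of_nonneg_right h12 (abs_nonneg _)
        _ < δ := by rw [one_mul]; exact h11
    have h13 := hFδ (Yt z, fun j => Ξ z j * H52.nk m z j) ⟨hYtcube z hz, hprod z z hz hz⟩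
      (Yt (zc p s), fun j => Ξ z j * H52.nk m (zc p s) j)
      ⟨hYtcube _ hc.1, hprod z (zc p s) hz hc.1⟩ (by
        rw [Prod.dist_eq]
        exact max_lt hy hθ)
    rw [Real.dist_eq] at h13
    have h14 : Psi (mv Φ (Yt (zc p s)) (fun j => Ξ z j * H52.nk m (zc p s) j)) ≤ 9 / 10 * T := by
      by_contra hcon
      push Not at hcon
      obtain ⟨x, hx⟩ := hΞp z p (hz1 z hz) hps.2.1
      apply hω p s x
      rw [hB]
      simp only
      rw [mem_Bad]
      refine ⟨_, hprod z (zc p s) hz hc.1, ?_, hcon⟩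
      have hfr := H52.frac_card hm hc.1
      have hsub : ((univ.filter (fun j => |Yt (zc p s) j| < 1)).filter (fun j =>
          Ξ z j * H52.nk m (zc p s) j ≠ sg (ω (vtx p x j) j) * sg (σ p s j))) ⊆
          (univ.filter (fun j : Fin m => Ξ z j ≠ sg (ω (vtx p x j) j))) ∪
          (univ.filter (fun j : Fin m => |H52.nk m (zc p s) j| < 1)) := by
        intro j hj
        rw [Finset.mem_filter] at hj
        rw [Finset.mem_union, Finset.mem_filter, Finset.mem_filter]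
        by_contra hcon2
        push Not at hcon2
        have a1 := hcon2.1 (Finset.mem_univ _)
        have a2 := hcon2.2 (Finset.mem_univ _)
        apply hj.2
        rw [a1]
        congr 1
        have a3 : |H52.nk m (zc p s) j| = 1 := le_antisymm (hnkcube _ hc.1 j) a2
        simp only [hσ, sg]
        by_cases h0 : 0 ≤ H52.nk m (zc p s) j
        · rw [abs_of_nonneg h0] at a3
          simp [h0, a3]
        · rw [abs_of_neg (not_le.mp h0)] at a3
          simp only [h0, decide_false, Bool.false_eq_true, if_false]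
          linarith
      refine (Finset.card_le_card hsub).trans ((Finset.card_union_le _ _).trans ?_)
      omega
    have h15 := abs_lt.mp h13
    simp only at h15 h14 ⊢
    linarith [h15.2]
  · -- linear forms
    intro z hz i
    set θ : Fin m → ℝ := fun j => Ξ z j * H52.nk m z j with hθ
    have e1 : ∑ j, a i j * (mv Φ (Yt z) θ j - Y z j)
        = ∑ j, (1 - |Yt z j|) * a i j * Φ (Yt z) θ j + ∑ j, a i j * (Yt z j - Y z j) := by
      rw [← Finset.sum_add_distrib]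
      refine Finset.sum_congr rfl fun j _ => ?_
      simp only [mv]
      ring
    have e2 := hΦ.lin (Yt z) θ (hYtcube z hz) (hprod z z hz hz) i
    have e3 : |∑ j, a i j * (Yt z j - Y z j)| ≤ 1 / T := by
      refine (Finset.abs_sum_le_sum_abs _ _).trans ?_
      have e4 : ∑ j, |a i j * (Yt z j - Y z j)| ≤ ∑ j, |tr (Y z) j - Y z j| := by
        refine Finset.sum_le_sum fun j _ => ?_
        rw [abs_mul]
        calc |a i j| * |Yt z j - Y z j| ≤ 1 * |Yt z j - Y z j| :=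
              mul_le_mul_of_nonneg_right (ha i j) (abs_nonneg _)
          _ = |tr (Y z) j - Y z j| := by rw [one_mul]
      refine e4.trans ((htr _ (hYcube z hz)).2.2.1.trans ?_)
      rw [div_le_div_iff₀ (by positivity) hT0]
      have := hYPsi z hz
      nlinarith
    calc |∑ j, a i j * (mv Φ (Yt z) θ j - Y z j)|
        ≤ |∑ j, (1 - |Yt z j|) * a i j * Φ (Yt z) θ j| + |∑ j, a i j * (Yt z j - Y z j)| := by
          rw [e1]
          exact abs_add_le _ _
      _ ≤ (Wd K n T + 1 / T) + 1 / T := add_le_add e2 e3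
      _ = Wd K n T + 2 / T := by ring

end Pool.Agent.Lib.MP_506ba8_co.P50
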