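import Pool.Agent.Lib.MP_506ba8_co.P50.Iface

/-!
Row Stage of board `lip_modules` (paper section 3): for all but a small fraction of the sign
vectors one stage of the walk decreases the potential.
-/

open Finset

namespace Pool.Agent.Lib.MP_506ba8_co.P50

namespace StageAux

theorem sg_abs (b : Bool) : |sg b| = 1 := by
  unfold sg; split_ifs <;> simp

theorem del_nonneg {m : ℕ} {y : Fin m → ℝ} (hy : Cube y) (j : Fin m) : 0 ≤ 1 - |y j| := by
  have := hy j; linarith

theorem del_le_one {m : ℕ} (y : Fin m → ℝ) (j : Fin m) : 1 - |y j| ≤ 1 := by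
  have := abs_nonneg (y j); linarith

theorem le_sqrt_self {x : ℝ} (h0 : 0 ≤ x) (h1 : x ≤ 1) : x ≤ √x := by
  apply Real.le_sqrt_of_sq_le
  nlinarith

theorem sum_del_le {m : ℕ} {y : Fin m → ℝ} (hy : Cube y) : ∑ j, (1 - |y j|) ≤ Psi y :=
  Finset.sum_le_sum fun j _ => le_sqrt_self (del_nonneg hy j) (del_le_one y j)

theorem bt_sq {m : ℕ} {y : Fin m → ℝ} (hy : Cube y) (j : Fin m) :
    bt m y j ^ 2 = 1 - |y j| + 1 / (m : ℝ) ^ 2 := by
  unfold bt
  rw [Real.sq_sqrt]
  have := del_nonneg hy j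
  positivity

theorem bt_nonneg {m : ℕ} (y : Fin m → ℝ) (j : Fin m) : 0 ≤ bt m y j := Real.sqrt_nonneg _

theorem bt_le {m : ℕ} (y : Fin m → ℝ) (j : Fin m) : bt m y j ≤ 3 / 2 := by
  unfold bt
  have hm : (1 : ℝ) ≤ m := by
    have : 0 < m := Fin.pos j
    exact_mod_cast this
  have h2 : 1 / (m : ℝ) ^ 2 ≤ 1 := by
    rw [div_le_one (by positivity)]
    nlinarith
  have h3 := del_le_one y j
  rw [Real.sqrt_le_left (by norm_num)]
  nlinarith

theorem sum_bt_sq {m : ℕ} {y : Fin m → ℝ} (hy : Cube y) :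
    ∑ j, bt m y j ^ 2 ≤ Psi y + 1 := by
  have h1 : ∑ j, bt m y j ^ 2 = ∑ j, (1 - |y j|) + (m : ℝ) * (1 / (m : ℝ) ^ 2) := by
    rw [Finset.sum_congr rfl fun j _ => bt_sq hy j, Finset.sum_add_distrib]
    simp
  have h2 : (m : ℝ) * (1 / (m : ℝ) ^ 2) ≤ 1 := by
    rcases Nat.eq_zero_or_pos m with h | h
    · subst h; simp
    · have hm : (1 : ℝ) ≤ m := by exact_mod_cast h
      have : (m : ℝ) * (1 / (m : ℝ) ^ 2) = 1 / m := by field_simp
      rw [this, div_le_one (by linarith)]
      exact hm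
  have h3 := sum_del_le hy
  linarith

/-- the far set -/
noncomputable def far {m : ℕ} (β : Fin m → ℝ) (t : ℝ) (A : Finset (Fin m → Bool)) :
    Finset (Fin m → Bool) := by
  classical
  exact univ.filter (fun θ : Fin m → Bool =>
    ∀ u ∈ A, t ≤ ∑ j, if u j ≠ θ j then β j else 0)

theorem far_card (h1 : IsoStatement) {m : ℕ} (β : Fin m → ℝ) {T η ε : ℝ}
    {A : Finset (Fin m → Bool)} (hβ : ∀ j, 0 ≤ β j) (hV : ∑ j, β j ^ 2 ≤ T + 1) (hT : 1 ≤ T)
    (hε : 0 ≤ ε) (hη : η ≤ ε ^ 2 / 4) (hA : 2 ^ m * Real.exp (-(η * T)) ≤ (A.card : ℝ)) :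
    ((far β (ε * T) A).card : ℝ) ≤ 2 ^ m * Real.exp (-(ε ^ 2 / 4 * T)) := by
  classical
  have h := h1 m β (T + 1) (ε * T) A hβ hV (by linarith) (by positivity)
  have hcard : (far β (ε * T) A).card = (univ.filter (fun θ : Fin m → Bool =>
      ∀ u ∈ A, ε * T ≤ ∑ j, if u j ≠ θ j then β j else 0)).card := by
    unfold far
    congr
  rw [← hcard] at h
  have h2 : ((far β (ε * T) A).card : ℝ) * (2 ^ m * Real.exp (-(η * T))) ≤
      4 ^ m * Real.exp (-((ε * T) ^ 2 / (T + 1))) :=
    le_trans (mul_le_mul_of_nonneg_left hA (Nat.cast_nonneg _)) h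
  have h3 : Real.exp (-((ε * T) ^ 2 / (T + 1))) ≤ Real.exp (-(ε ^ 2 / 2 * T)) := by
    apply Real.exp_le_exp.2
    have : ε ^ 2 / 2 * T ≤ (ε * T) ^ 2 / (T + 1) := by
      rw [le_div_iff₀ (by linarith)]
      nlinarith [mul_nonneg (mul_nonneg (sq_nonneg ε) (by linarith : (0:ℝ) ≤ T))
        (by linarith : (0:ℝ) ≤ T - 1)]
    linarith
  have h4 : (4 : ℝ) ^ m = 2 ^ m * 2 ^ m := by
    rw [← mul_pow]; norm_num
  have h5 : ((far β (ε * T) A).card : ℝ) * (2 ^ m * Real.exp (-(η * T))) ≤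
      (2 ^ m * Real.exp (-(ε ^ 2 / 4 * T))) * (2 ^ m * Real.exp (-(η * T))) := by
    calc _ ≤ _ := h2
      _ ≤ 4 ^ m * Real.exp (-(ε ^ 2 / 2 * T)) := by gcongr
      _ ≤ 4 ^ m * (Real.exp (-(ε ^ 2 / 4 * T)) * Real.exp (-(η * T))) := by
          rw [← Real.exp_add]
          gcongr
          nlinarith
      _ = _ := by rw [h4]; ring
  exact le_of_mul_le_mul_right h5 (by positivity)

theorem far_neg_card {m : ℕ} (β : Fin m → ℝ) (t : ℝ) (A : Finset (Fin m → Bool)) :
    ((far β t A).image (fun θ j => !(θ j))).card = (far β t A).card := by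
  classical
  apply Finset.card_image_of_injective
  intro θ θ' h
  funext j
  have := congrFun h j
  simpa using this

theorem not_far {m : ℕ} {β : Fin m → ℝ} {t : ℝ} {A : Finset (Fin m → Bool)}
    {ξ : Fin m → Bool} (h : ξ ∉ far β t A) :
    ∃ u ∈ A, ∑ j, (if u j ≠ ξ j then β j else 0) < t := by
  classical
  unfold far at h
  simp only [Finset.mem_filter, Finset.mem_univ, true_and, not_forall, not_le] at h
  obtain ⟨u, hu, h⟩ := h
  exact ⟨u, hu, h⟩

theorem not_far_neg {m : ℕ} {β : Fin m → ℝ} {t : ℝ} {A : Finset (Fin m → Bool)}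
    {ξ : Fin m → Bool} (h : ξ ∉ (far β t A).image (fun θ j => !(θ j))) :
    ∃ u ∈ A, ∑ j, (if u j = ξ j then β j else 0) < t := by
  classical
  have h1 : (fun j => !(ξ j)) ∉ far β t A := by
    intro h2
    apply h
    rw [Finset.mem_image]
    exact ⟨_, h2, by funext j; simp⟩
  obtain ⟨u, hu, hlt⟩ := not_far h1
  refine ⟨u, hu, lt_of_le_of_lt (le_of_eq ?_) hlt⟩
  refine Finset.sum_congr rfl fun j _ => ?_
  by_cases hj : u j = ξ j
  · have : u j ≠ !(ξ j) := by rw [hj]; cases ξ j <;> simp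
    simp only [hj, if_true]
    rw [if_pos]
    cases ξ j <;> simp
  · rw [if_neg hj, if_neg]
    intro h2
    apply h2
    cases hu : u j <;> cases hx : ξ j <;> simp_all

theorem pt_aux (u ξ u' : Bool) (b : ℝ) (hb : 0 ≤ b) :
    b * ((sg u - sg u') / 2 - sg ξ) ^ 2 ≤
      2 * (if u ≠ ξ then b else 0) + 2 * (if u' = ξ then b else 0) := by
  cases u <;> cases ξ <;> cases u' <;> norm_num [sg] <;> linarith

/-- the distance of the projected point to the direction -/
theorem dist_le {m r : ℕ} {β : Fin m → ℝ} {ξ u u' : Fin m → Bool} {θ : Fin m → ℝ} {t : ℝ}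
    (hβ0 : ∀ j, 0 ≤ β j) (hβ1 : ∀ j, β j ≤ 3 / 2) (hθ : Cube θ)
    (hr : (univ.filter (fun j => θ j ≠ sg (ξ j))).card ≤ r)
    (hu : ∑ j, (if u j ≠ ξ j then β j else 0) < t)
    (hu' : ∑ j, (if u' j = ξ j then β j else 0) < t) :
    ∑ j, β j * ((sg (u j) - sg (u' j)) / 2 - θ j) ^ 2 ≤ 4 * t + 6 * r := by
  classical
  have hpt : ∀ j, β j * ((sg (u j) - sg (u' j)) / 2 - θ j) ^ 2 ≤
      2 * (if u j ≠ ξ j then β j else 0) + 2 * (if u' j = ξ j then β j else 0) +
        (if θ j ≠ sg (ξ j) then 6 else 0) := by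
    intro j
    have hb0 := hβ0 j
    have hb1 := hβ1 j
    have ht := abs_le.1 (hθ j)
    by_cases h3 : θ j ≠ sg (ξ j)
    · rw [if_pos h3]
      have h4 : 0 ≤ 2 * (if u j ≠ ξ j then β j else 0) + 2 * (if u' j = ξ j then β j else 0) := by
        split_ifs <;> linarith
      have h5 : ((sg (u j) - sg (u' j)) / 2 - θ j) ^ 2 ≤ 4 := by
        have h6 : |(sg (u j) - sg (u' j)) / 2 - θ j| ≤ 2 := by
          rw [abs_le]
          unfold sg
          split_ifs <;> constructor <;> linarith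
        nlinarith [abs_le.1 h6]
      have h7 : β j * ((sg (u j) - sg (u' j)) / 2 - θ j) ^ 2 ≤ 3 / 2 * 4 :=
        mul_le_mul hb1 h5 (sq_nonneg _) (by norm_num)
      linarith
    · rw [if_neg h3]
      rw [not_not] at h3
      rw [h3]
      rw [add_zero]
      exact pt_aux (u j) (ξ j) (u' j) (β j) hb0
  calc ∑ j, β j * ((sg (u j) - sg (u' j)) / 2 - θ j) ^ 2
      ≤ ∑ j, (2 * (if u j ≠ ξ j then β j else 0) + 2 * (if u' j = ξ j then β j else 0) +
        (if θ j ≠ sg (ξ j) then (6 : ℝ) else 0)) := Finset.sum_le_sum fun j _ => hpt j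
    _ = 2 * ∑ j, (if u j ≠ ξ j then β j else 0) + 2 * ∑ j, (if u' j = ξ j then β j else 0) +
        6 * ((univ.filter (fun j => θ j ≠ sg (ξ j))).card : ℝ) := by
          rw [Finset.sum_add_distrib, Finset.sum_add_distrib, ← Finset.mul_sum, ← Finset.mul_sum,
            ← Finset.sum_filter (fun j => θ j ≠ sg (ξ j)), Finset.sum_const, nsmul_eq_mul]
          ring
    _ ≤ 4 * t + 6 * r := by
          have : ((univ.filter (fun j => θ j ≠ sg (ξ j))).card : ℝ) ≤ r := by exact_mod_cast hr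
          linarith

end StageAux

open StageAux

theorem stage_proof (h1 : IsoStatement) (h2 : HoeStatement) (h3 : FibStatement)
    (h4 : PotStatement) : StageStatement := by
  classical
  obtain ⟨KF, hKF1, hKF⟩ := h3 (1 / 40000000000) (by norm_num)
  refine ⟨max KF 1000000000000, le_trans (by norm_num) (le_max_right _ _), ?_⟩
  intro K hK n m r a T ρ Φ y ha hT hstep hy hPsi
  have hK1 : KF ≤ K := le_trans (le_max_left _ _) hK
  have hK2 : (1000000000000 : ℝ) ≤ K := le_trans (le_max_right _ _) hK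
  have hr0 : (0 : ℝ) ≤ r := Nat.cast_nonneg r
  have hKT : K ≤ T := by nlinarith
  have hT1 : (1 : ℝ) ≤ T := by linarith
  have hrT : (r : ℝ) ≤ T / 100000 := by nlinarith
  -- the large set
  set b : Fin n → Fin m → ℝ := fun i j => (1 - |y j|) * a i j with hb
  have hbT : ∀ i, ∑ j, b i j ^ 2 ≤ T := by
    intro i
    refine le_trans (Finset.sum_le_sum fun j _ => ?_) (le_trans (sum_del_le hy) hPsi)
    have e0 := del_nonneg hy j
    have e1 := del_le_one y j
    have e2 : (a i j) ^ 2 ≤ 1 := by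
      have := abs_le.1 (ha i j)
      nlinarith
    calc b i j ^ 2 = (1 - |y j|) ^ 2 * (a i j) ^ 2 := by rw [hb]; ring
      _ ≤ (1 - |y j|) ^ 2 * 1 := by gcongr
      _ ≤ 1 - |y j| := by nlinarith
  obtain ⟨A, hA, hAw⟩ := hKF K hK1 n m T b hKT hbT
  -- the three bad sets
  set β : Fin m → ℝ := bt m y with hβ
  set s : Fin m → Bool := fun j => decide (0 ≤ y j) with hs
  have hsy : ∀ j, sg (s j) * y j = |y j| := by
    intro j
    by_cases h : 0 ≤ y j
    · simp [hs, sg, h, abs_of_nonneg h]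
    · simp [hs, sg, h, abs_of_neg (not_le.1 h)]
  have hα0 : ∀ j, 0 ≤ √(1 - |y j|) := fun j => Real.sqrt_nonneg _
  have hα2 : ∑ j, √(1 - |y j|) ^ 2 ≤ T := by
    refine le_trans (le_of_eq ?_) (le_trans (sum_del_le hy) hPsi)
    exact Finset.sum_congr rfl fun j _ => Real.sq_sqrt (del_nonneg hy j)
  have hH := h2 m (fun j => √(1 - |y j|)) s T (T / 100000) hα0 hα2 (by linarith) (by linarith)
  set H : Finset (Fin m → Bool) := univ.filter (fun θ : Fin m → Bool =>
      (∑ j, √(1 - |y j|)) / 2 + T / 100000 < ∑ j, if θ j ≠ s j then √(1 - |y j|) else 0) with hHdef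
  have hF := far_card h1 β (T := T) (η := 1 / 40000000000) (ε := 1 / 100000) (A := A)
    (fun j => bt_nonneg y j) (le_trans (sum_bt_sq hy) (by linarith)) hT1 (by norm_num)
    (by norm_num) hA
  set F := far β (1 / 100000 * T) A with hFdef
  refine ⟨H ∪ F ∪ F.image (fun θ j => !(θ j)), ?_, ?_⟩
  · have e1 : ((H ∪ F ∪ F.image (fun θ j => !(θ j))).card : ℝ) ≤
        (H.card : ℝ) + F.card + (F.image (fun θ j => !(θ j))).card := by
      have h5 := Finset.card_union_le (H ∪ F) (F.image (fun θ j => !(θ j)))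
      have h6 := Finset.card_union_le H F
      exact_mod_cast le_trans h5 (Nat.add_le_add_right h6 _)
    have e2 : ((F.image (fun θ j => !(θ j))).card : ℝ) = F.card := by
      exact_mod_cast far_neg_card β (1 / 100000 * T) A
    have e3 : Real.exp (-(2 * (T / 100000) ^ 2 / T)) ≤
        Real.exp (-((1 / 100000) ^ 2 / 4 * T)) := by
      apply Real.exp_le_exp.2
      have : 2 * (T / 100000) ^ 2 / T = 2 / 10000000000 * T := by
        field_simp
        norm_num
      rw [this]
      nlinarith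
    have e4 : 3 * Real.exp (-((1 / 100000) ^ 2 / 4 * T)) ≤ Real.exp (-(T / K)) := by
      have h5 : T / K ≤ T / 1000000000000 := by
        apply div_le_div_of_nonneg_left (by linarith) (by norm_num) hK2
      have h6 : (3 : ℝ) ≤ Real.exp 2 := by
        have := Real.add_one_le_exp (2 : ℝ)
        linarith
      calc 3 * Real.exp (-((1 / 100000) ^ 2 / 4 * T))
          ≤ Real.exp 2 * Real.exp (-((1 / 100000) ^ 2 / 4 * T)) := by gcongr
        _ = Real.exp (2 - (1 / 100000) ^ 2 / 4 * T) := by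
            rw [← Real.exp_add]; ring_nf
        _ ≤ Real.exp (-(T / K)) := by
            apply Real.exp_le_exp.2
            nlinarith
    have e5 : (0 : ℝ) < 2 ^ m := by positivity
    calc ((H ∪ F ∪ F.image (fun θ j => !(θ j))).card : ℝ)
        ≤ (H.card : ℝ) + F.card + F.card := by rw [e2] at e1; exact e1
      _ ≤ 2 ^ m * Real.exp (-((1 / 100000) ^ 2 / 4 * T)) +
          2 ^ m * Real.exp (-((1 / 100000) ^ 2 / 4 * T)) +
          2 ^ m * Real.exp (-((1 / 100000) ^ 2 / 4 * T)) := by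
            have h7 : (H.card : ℝ) ≤ 2 ^ m * Real.exp (-((1 / 100000) ^ 2 / 4 * T)) :=
              le_trans hH (mul_le_mul_of_nonneg_left e3 e5.le)
            linarith
      _ = 2 ^ m * (3 * Real.exp (-((1 / 100000) ^ 2 / 4 * T))) := by ring
      _ ≤ 2 ^ m * Real.exp (-(T / K)) := mul_le_mul_of_nonneg_left e4 e5.le
  · intro ξ hξ θ hθ hr
    rw [Finset.mem_union, Finset.mem_union, not_or, not_or] at hξ
    obtain ⟨⟨hξH, hξF⟩, hξF'⟩ := hξ
    obtain ⟨u, hu, hud⟩ := not_far hξF
    obtain ⟨u', hu', hud'⟩ := not_far_neg hξF'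
    have hv : Cube (fun j => (sg (u j) - sg (u' j)) / 2) := by
      intro j
      show |(sg (u j) - sg (u' j)) / 2| ≤ 1
      unfold sg
      split_ifs <;> norm_num
    have hfeas : ∀ i, |∑ j, (1 - |y j|) * a i j * ((sg (u j) - sg (u' j)) / 2)| ≤ Wd K n T :=
      fun i => hAw u hu u' hu' i
    have hnear := hstep.near y θ (fun j => (sg (u j) - sg (u' j)) / 2) hy hθ hv hfeas
    have hdist := dist_le (fun j => bt_nonneg y j) (fun j => bt_le y j) hθ hr hud hud'
    have hlt : (univ.filter (fun j => |θ j| < 1)).card ≤ r := by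
      refine le_trans (Finset.card_le_card ?_) hr
      intro j hj
      rw [Finset.mem_filter] at hj ⊢
      refine ⟨Finset.mem_univ _, fun h => ?_⟩
      have h5 := hj.2
      rw [h, sg_abs] at h5
      exact lt_irrefl _ h5
    have hsum : (∑ j, if θ j * sg (s j) < 0 then √(1 - |y j|) else 0) ≤ T / 2 + T / 50000 := by
      have hnH : (∑ j, if ξ j ≠ s j then √(1 - |y j|) else 0) ≤
          (∑ j, √(1 - |y j|)) / 2 + T / 100000 := by
        by_contra hc
        rw [not_le] at hc
        exact hξH (Finset.mem_filter.2 ⟨Finset.mem_univ _, hc⟩)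
      have hpt : ∀ j, (if θ j * sg (s j) < 0 then √(1 - |y j|) else 0) ≤
          (if ξ j ≠ s j then √(1 - |y j|) else 0) + (if θ j ≠ sg (ξ j) then (1 : ℝ) else 0) := by
        intro j
        have h5 : √(1 - |y j|) ≤ 1 := by
          rw [Real.sqrt_le_one]
          exact del_le_one y j
        have h6 := hα0 j
        by_cases h7 : θ j = sg (ξ j)
        · by_cases h8 : ξ j = s j
          · rw [if_neg]
            · split_ifs <;> linarith
            · rw [h7, h8]
              unfold sg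
              split_ifs <;> norm_num
          · rw [if_pos h8]
            split_ifs <;> linarith
        · rw [if_pos h7]
          split_ifs <;> linarith
      have hPs : ∑ j, √(1 - |y j|) = Psi y := rfl
      calc (∑ j, if θ j * sg (s j) < 0 then √(1 - |y j|) else 0)
          ≤ ∑ j, ((if ξ j ≠ s j then √(1 - |y j|) else 0) +
            (if θ j ≠ sg (ξ j) then (1 : ℝ) else 0)) := Finset.sum_le_sum fun j _ => hpt j
        _ = (∑ j, if ξ j ≠ s j then √(1 - |y j|) else 0) +
            ((univ.filter (fun j => θ j ≠ sg (ξ j))).card : ℝ) := by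
              rw [Finset.sum_add_distrib, ← Finset.sum_filter (fun j => θ j ≠ sg (ξ j)),
                Finset.sum_const, nsmul_eq_mul, mul_one]
        _ ≤ T / 2 + T / 50000 := by
              have : ((univ.filter (fun j => θ j ≠ sg (ξ j))).card : ℝ) ≤ r := by
                exact_mod_cast hr
              rw [hPs] at hnH
              linarith
    refine h4 m r y θ (Φ y θ) s T hy hθ (hstep.bd y θ hy hθ) hsy hlt ?_ hPsi hsum ?_
    · nlinarith
    · refine le_trans hnear (le_trans hdist ?_)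
      linarith

end Pool.Agent.Lib.MP_506ba8_co.P50
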