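import Pool.Agent.Lib.MP_506ba8_co.P50.Iface

/-!
Row Step: the step map is the minimiser over the cube of a strictly convex function.
-/

open Finset Filter Topology

namespace Pool.Agent.Lib.MP_506ba8_co.P50

namespace StepRow

variable {n m : ℕ}

/-- the excess of `|t|` over `w` -/
noncomputable def pp (w t : ℝ) : ℝ := max (|t| - w) 0

theorem pp_nonneg (w t : ℝ) : 0 ≤ pp w t := le_max_right _ _

theorem pp_of_le {w t : ℝ} (h : |t| ≤ w) : pp w t = 0 := max_eq_right (by linarith)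

theorem le_pp (w t : ℝ) : |t| ≤ w + pp w t := by
  have := le_max_left (|t| - w) 0
  unfold pp
  linarith

theorem pp_neg (w t : ℝ) : pp w (-t) = pp w t := by
  unfold pp
  rw [abs_neg]

theorem pp_mid (w s t : ℝ) : pp w ((s + t) / 2) ^ 2 ≤ (pp w s ^ 2 + pp w t ^ 2) / 2 := by
  have h1 : pp w ((s + t) / 2) ≤ (pp w s + pp w t) / 2 := by
    refine max_le ?_ (by linarith [pp_nonneg w s, pp_nonneg w t])
    have h2 : |(s + t) / 2| ≤ (|s| + |t|) / 2 := by
      rw [abs_div, abs_two]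
      have := abs_add_le s t
      linarith
    have h3 := le_pp w s
    have h4 := le_pp w t
    linarith
  have h5 := pp_nonneg w ((s + t) / 2)
  nlinarith [sq_nonneg (pp w s - pp w t)]

theorem continuous_pp (w : ℝ) : Continuous (pp w) := by
  unfold pp
  fun_prop

/-- the linear functional `i` at `y` -/
noncomputable def lf (a : Fin n → Fin m → ℝ) (y v : Fin m → ℝ) (i : Fin n) : ℝ :=
  ∑ j, (1 - |y j|) * a i j * v j

/-- the weighted square distance -/
noncomputable def quad (y θ v : Fin m → ℝ) : ℝ := ∑ j, bt m y j * (v j - θ j) ^ 2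

/-- the penalty -/
noncomputable def pen (a : Fin n → Fin m → ℝ) (w : ℝ) (y v : Fin m → ℝ) : ℝ :=
  ∑ i, pp w (lf a y v i) ^ 2

/-- the energy -/
noncomputable def En (a : Fin n → Fin m → ℝ) (w R : ℝ) (y θ v : Fin m → ℝ) : ℝ :=
  quad y θ v + R * pen a w y v

theorem continuous_En (a : Fin n → Fin m → ℝ) (w R : ℝ) :
    Continuous (fun q : ((Fin m → ℝ) × (Fin m → ℝ)) × (Fin m → ℝ) => En a w R q.1.1 q.1.2 q.2) := by
  have h := continuous_pp w
  unfold En quad pen lf bt
  fun_prop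

theorem isCompact_cube : IsCompact {v : Fin m → ℝ | Cube v} := by
  have h : {v : Fin m → ℝ | Cube v} = Set.Icc (fun _ => -1) (fun _ => 1) := by
    ext v
    simp only [Cube, Set.mem_ofPred_eq, Set.mem_Icc, Pi.le_def, abs_le]
    exact ⟨fun h => ⟨fun j => (h j).1, fun j => (h j).2⟩, fun h j => ⟨h.1 j, h.2 j⟩⟩
  rw [h]
  exact isCompact_Icc

theorem cube_zero : Cube (0 : Fin m → ℝ) := fun j => by simp

theorem cube_mid {u v : Fin m → ℝ} (hu : Cube u) (hv : Cube v) :
    Cube (fun j => (u j + v j) / 2) := fun j => by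
  have h1 := hu j
  have h2 := hv j
  rw [abs_le] at *
  constructor <;> linarith [h1.1, h1.2, h2.1, h2.2]

theorem cube_neg {u : Fin m → ℝ} (hu : Cube u) : Cube (-u) := fun j => by
  simpa using hu j

theorem exists_min (a : Fin n → Fin m → ℝ) (w R : ℝ) (y θ : Fin m → ℝ) :
    ∃ v : Fin m → ℝ, Cube v ∧ ∀ u, Cube u → En a w R y θ v ≤ En a w R y θ u := by
  have hc : Continuous (fun v => En a w R y θ v) :=
    (continuous_En a w R).comp (by fun_prop : Continuous fun v => ((y, θ), v))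
  obtain ⟨v, hv, h⟩ := isCompact_cube.exists_isMinOn ⟨0, cube_zero⟩ hc.continuousOn
  exact ⟨v, hv, fun u hu => h hu⟩

/-- the step map -/
noncomputable def Ph (a : Fin n → Fin m → ℝ) (w R : ℝ) (y θ : Fin m → ℝ) : Fin m → ℝ :=
  Classical.choose (exists_min a w R y θ)

theorem cube_Ph (a : Fin n → Fin m → ℝ) (w R : ℝ) (y θ : Fin m → ℝ) : Cube (Ph a w R y θ) :=
  (Classical.choose_spec (exists_min a w R y θ)).1

theorem Ph_le (a : Fin n → Fin m → ℝ) (w R : ℝ) (y θ u : Fin m → ℝ) (hu : Cube u) :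
    En a w R y θ (Ph a w R y θ) ≤ En a w R y θ u :=
  (Classical.choose_spec (exists_min a w R y θ)).2 u hu

theorem bt_pos {y : Fin m → ℝ} (hy : Cube y) (j : Fin m) : 0 < bt m y j := by
  have hm : (0 : ℝ) < m := by exact_mod_cast j.pos
  have h1 := hy j
  unfold bt
  refine Real.sqrt_pos.2 ?_
  have : (0 : ℝ) < 1 / (m : ℝ) ^ 2 := by positivity
  linarith

theorem bt_le (y : Fin m → ℝ) (j : Fin m) : bt m y j ≤ 2 := by
  have hm : (1 : ℝ) ≤ m := by exact_mod_cast j.pos
  unfold bt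
  rw [Real.sqrt_le_left (by norm_num)]
  have h1 : 1 / (m : ℝ) ^ 2 ≤ 1 := by
    rw [div_le_one (by positivity)]
    nlinarith
  have h2 := abs_nonneg (y j)
  linarith

theorem lf_mid (a : Fin n → Fin m → ℝ) (y u v : Fin m → ℝ) (i : Fin n) :
    lf a y (fun j => (u j + v j) / 2) i = (lf a y u i + lf a y v i) / 2 := by
  unfold lf
  rw [← sum_add_distrib, sum_div]
  exact sum_congr rfl fun j _ => by ring

theorem pen_mid (a : Fin n → Fin m → ℝ) (w : ℝ) (y u v : Fin m → ℝ) :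
    pen a w y (fun j => (u j + v j) / 2) ≤ (pen a w y u + pen a w y v) / 2 := by
  unfold pen
  rw [← sum_add_distrib, sum_div]
  refine sum_le_sum fun i _ => ?_
  rw [lf_mid]
  exact pp_mid _ _ _

theorem quad_mid (y θ u v : Fin m → ℝ) :
    quad y θ (fun j => (u j + v j) / 2) =
      (quad y θ u + quad y θ v) / 2 - (∑ j, bt m y j * (u j - v j) ^ 2) / 4 := by
  unfold quad
  rw [← sum_add_distrib, sum_div, sum_div, ← sum_sub_distrib]
  exact sum_congr rfl fun j _ => by ring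

theorem pen_nonneg (a : Fin n → Fin m → ℝ) (w : ℝ) (y v : Fin m → ℝ) : 0 ≤ pen a w y v :=
  sum_nonneg fun _ _ => sq_nonneg _

/-- uniqueness of the minimiser -/
theorem unique {a : Fin n → Fin m → ℝ} {w R : ℝ} (hR : 0 ≤ R) {y θ u v : Fin m → ℝ}
    (hy : Cube y) (hu : Cube u) (hv : Cube v)
    (h1 : ∀ x, Cube x → En a w R y θ u ≤ En a w R y θ x)
    (h2 : ∀ x, Cube x → En a w R y θ v ≤ En a w R y θ x) : u = v := by
  have h3 := h1 _ (cube_mid hu hv)
  have h4 := h2 _ (cube_mid hu hv)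
  have h5 := pen_mid a w y u v
  have h6 := quad_mid y θ u v
  have h7 : R * pen a w y (fun j => (u j + v j) / 2) ≤ R * ((pen a w y u + pen a w y v) / 2) :=
    mul_le_mul_of_nonneg_left h5 hR
  have h8 : ∑ j, bt m y j * (u j - v j) ^ 2 ≤ 0 := by
    unfold En at h3 h4
    linarith
  have h9 : ∀ j ∈ (univ : Finset (Fin m)), bt m y j * (u j - v j) ^ 2 = 0 :=
    (sum_eq_zero_iff_of_nonneg fun j _ => mul_nonneg (bt_pos hy j).le (sq_nonneg _)).1
      (le_antisymm h8 (sum_nonneg fun j _ => mul_nonneg (bt_pos hy j).le (sq_nonneg _)))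
  funext j
  have h10 := h9 j (mem_univ j)
  rcases mul_eq_zero.1 h10 with h | h
  · exact absurd h (bt_pos hy j).ne'
  · have := pow_eq_zero_iff (two_ne_zero) |>.1 h
    linarith

theorem eq_Ph {a : Fin n → Fin m → ℝ} {w R : ℝ} (hR : 0 ≤ R) {y θ u : Fin m → ℝ}
    (hy : Cube y) (hu : Cube u) (h : ∀ x, Cube x → En a w R y θ u ≤ En a w R y θ x) :
    u = Ph a w R y θ :=
  unique hR hy hu (cube_Ph a w R y θ) h fun x hx => Ph_le a w R y θ x hx

theorem En_neg (a : Fin n → Fin m → ℝ) (w R : ℝ) (y θ v : Fin m → ℝ) :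
    En a w R (-y) (-θ) (-v) = En a w R y θ v := by
  have h1 : ∀ i, lf a (-y) (-v) i = -lf a y v i := fun i => by
    unfold lf
    rw [← sum_neg_distrib]
    exact sum_congr rfl fun j _ => by simp
  have h2 : quad (-y) (-θ) (-v) = quad y θ v := by
    unfold quad bt
    refine sum_congr rfl fun j _ => ?_
    simp only [Pi.neg_apply, abs_neg]
    ring
  unfold En pen
  rw [h2]
  simp_rw [h1, pp_neg]

theorem odd_Ph {a : Fin n → Fin m → ℝ} {w R : ℝ} (hR : 0 ≤ R) {y θ : Fin m → ℝ}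
    (hy : Cube y) : Ph a w R (-y) (-θ) = -Ph a w R y θ := by
  symm
  refine eq_Ph hR (cube_neg hy) (cube_neg (cube_Ph a w R y θ)) fun x hx => ?_
  rw [En_neg]
  have h := Ph_le a w R y θ (-x) (cube_neg hx)
  rw [← En_neg a w R y θ (-x), neg_neg] at h
  exact h

/-- the energy as a function on pairs -/
theorem tendsto_En (a : Fin n → Fin m → ℝ) (w R : ℝ) {ι : Type} {l : Filter ι}
    {f g h : ι → Fin m → ℝ} {y θ v : Fin m → ℝ} (hf : Tendsto f l (𝓝 y)) (hg : Tendsto g l (𝓝 θ))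
    (hh : Tendsto h l (𝓝 v)) :
    Tendsto (fun i => En a w R (f i) (g i) (h i)) l (𝓝 (En a w R y θ v)) := by
  have h0 := (continuous_En a w R).tendsto ((y, θ), v)
  have h1 : Tendsto (fun i => (f i, g i)) l (𝓝 (y, θ)) := hf.prodMk_nhds hg
  have h2 : Tendsto (fun i => ((f i, g i), h i)) l (𝓝 ((y, θ), v)) := h1.prodMk_nhds hh
  have h3 := Tendsto.comp h0 h2
  simpa only [Function.comp_def] using h3

theorem limit_min {a : Fin n → Fin m → ℝ} {w R : ℝ} {ι : Type} {l : Filter ι} [NeBot l]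
    {f g : ι → Fin m → ℝ} {y θ v : Fin m → ℝ} (hf : Tendsto f l (𝓝 y)) (hg : Tendsto g l (𝓝 θ))
    (hh : Tendsto (fun i => Ph a w R (f i) (g i)) l (𝓝 v)) (x : Fin m → ℝ) (hx : Cube x) :
    En a w R y θ v ≤ En a w R y θ x :=
  le_of_tendsto_of_tendsto' (tendsto_En a w R hf hg hh) (tendsto_En a w R hf hg tendsto_const_nhds)
    fun i => Ph_le a w R (f i) (g i) x hx

theorem continuousOn_Ph {a : Fin n → Fin m → ℝ} {w R : ℝ} (hR : 0 ≤ R) :
    ContinuousOn (fun q : (Fin m → ℝ) × (Fin m → ℝ) => Ph a w R q.1 q.2)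
      {q | Cube q.1 ∧ Cube q.2} := by
  intro q hq
  have hmem : ∀ᶠ q' in 𝓝[{q : (Fin m → ℝ) × (Fin m → ℝ) | Cube q.1 ∧ Cube q.2}] q,
      Ph a w R q'.1 q'.2 ∈ {v : Fin m → ℝ | Cube v} :=
    Eventually.of_forall fun q' => cube_Ph a w R q'.1 q'.2
  have key := isCompact_cube.tendsto_nhds_of_unique_mapClusterPt (y := Ph a w R q.1 q.2) hmem
  refine key fun v hv hcl => ?_
  obtain ⟨U, hU, hUv⟩ := mapClusterPt_iff_ultrafilter.1 hcl
  have hUq : Tendsto (fun q' : (Fin m → ℝ) × (Fin m → ℝ) => q') U (𝓝 q) :=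
    hU.trans nhdsWithin_le_nhds
  have h1 : Tendsto (fun q' : (Fin m → ℝ) × (Fin m → ℝ) => q'.1) U (𝓝 q.1) :=
    (continuous_fst.tendsto q).comp hUq
  have h2 : Tendsto (fun q' : (Fin m → ℝ) × (Fin m → ℝ) => q'.2) U (𝓝 q.2) :=
    (continuous_snd.tendsto q).comp hUq
  exact eq_Ph hR hq.1 hv (limit_min h1 h2 hUv)

theorem quad_nonneg {y : Fin m → ℝ} (hy : Cube y) (θ v : Fin m → ℝ) : 0 ≤ quad y θ v :=
  sum_nonneg fun j _ => mul_nonneg (bt_pos hy j).le (sq_nonneg _)

theorem pen_zero {a : Fin n → Fin m → ℝ} {w : ℝ} {y v : Fin m → ℝ}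
    (h : ∀ i, |∑ j, (1 - |y j|) * a i j * v j| ≤ w) : pen a w y v = 0 :=
  sum_eq_zero fun i _ => by
    have h1 : pp w (lf a y v i) = 0 := pp_of_le (h i)
    rw [h1]
    norm_num

theorem near_Ph {a : Fin n → Fin m → ℝ} {w R : ℝ} {y θ v : Fin m → ℝ}
    (hv : Cube v) (h : ∀ i, |∑ j, (1 - |y j|) * a i j * v j| ≤ w) :
    quad y θ (Ph a w R y θ) + R * pen a w y (Ph a w R y θ) ≤ quad y θ v := by
  have h1 := Ph_le a w R y θ v hv
  unfold En at h1
  rw [pen_zero h, mul_zero, add_zero] at h1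
  exact h1

theorem lin_Ph {a : Fin n → Fin m → ℝ} {w ρ : ℝ} (hw : 0 ≤ w) (hρ : 0 < ρ) {y θ : Fin m → ℝ}
    (hy : Cube y) (hθ : Cube θ) (i : Fin n) :
    |∑ j, (1 - |y j|) * a i j * Ph a w (2 * (m + 1) / ρ ^ 2) y θ j| ≤ w + ρ := by
  set R : ℝ := 2 * (m + 1) / ρ ^ 2 with hR
  have hR0 : 0 < R := by positivity
  have h1 : quad y θ (Ph a w R y θ) + R * pen a w y (Ph a w R y θ) ≤ quad y θ 0 :=
    near_Ph cube_zero fun i => by simpa using hw
  have h2 : quad y θ 0 ≤ 2 * m := by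
    have h3 : quad y θ 0 ≤ ∑ _j : Fin m, (2 : ℝ) := by
      unfold quad
      refine sum_le_sum fun j _ => ?_
      have h4 := bt_le y j
      have h5 := (bt_pos hy j).le
      have h6 : (θ j) ^ 2 ≤ 1 := by
        rw [← sq_abs]
        have := hθ j
        nlinarith [abs_nonneg (θ j)]
      simp only [Pi.zero_apply, zero_sub, neg_sq]
      nlinarith [sq_nonneg (θ j)]
    simpa [mul_comm] using h3
  have h3 := quad_nonneg hy θ (Ph a w R y θ)
  have h4 : pp w (lf a y (Ph a w R y θ) i) ^ 2 ≤ pen a w y (Ph a w R y θ) :=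
    single_le_sum (f := fun i => pp w (lf a y (Ph a w R y θ) i) ^ 2)
      (fun i _ => sq_nonneg _) (mem_univ i)
  have h5 : R * pp w (lf a y (Ph a w R y θ) i) ^ 2 ≤ 2 * m := by
    have := mul_le_mul_of_nonneg_left h4 hR0.le
    linarith
  have h6 : pp w (lf a y (Ph a w R y θ) i) ^ 2 ≤ ρ ^ 2 := by
    rw [hR, div_mul_eq_mul_div, div_le_iff₀ (by positivity)] at h5
    have h7 : (0 : ℝ) < m + 1 := by positivity
    have h8 : 2 * (m + 1) * pp w (lf a y (Ph a w R y θ) i) ^ 2 ≤ 2 * (m + 1) * ρ ^ 2 := by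
      nlinarith [sq_nonneg ρ]
    exact le_of_mul_le_mul_left h8 (by positivity)
  have h7 : pp w (lf a y (Ph a w R y θ) i) ≤ ρ := abs_le_of_sq_le_sq' h6 hρ.le |>.2
  have h8 := le_pp w (lf a y (Ph a w R y θ) i)
  exact h8.trans (by linarith)

theorem loc_Ph {a : Fin n → Fin m → ℝ} {w R : ℝ} (hR : 0 ≤ R) {y θ θ' : Fin m → ℝ}
    (hy : Cube y) (h : ∀ j, |y j| < 1 → θ j = θ' j) (j : Fin m) (hj : |y j| < 1) :
    Ph a w R y θ j = Ph a w R y θ' j := by
  classical
  set v := Ph a w R y θ with hv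
  set v' := Ph a w R y θ' with hv'
  -- hybrids
  have hlf : ∀ u u' : Fin m → ℝ, ∀ i,
      lf a y (fun j => if |y j| < 1 then u j else u' j) i = lf a y u i := by
    intro u u' i
    unfold lf
    refine sum_congr rfl fun j _ => ?_
    by_cases hj : |y j| < 1
    · simp [hj]
    · have : |y j| = 1 := le_antisymm (hy j) (not_lt.1 hj)
      simp [this]
  have hpen : ∀ u u' : Fin m → ℝ,
      pen a w y (fun j => if |y j| < 1 then u j else u' j) = pen a w y u := by
    intro u u'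
    unfold pen
    simp_rw [hlf]
  have hcube : ∀ u u' : Fin m → ℝ, Cube u → Cube u' →
      Cube (fun j => if |y j| < 1 then u j else u' j) := by
    intro u u' hu hu' j
    by_cases hj : |y j| < 1
    · simpa [hj] using hu j
    · simpa [hj] using hu' j
  -- active and passive parts of the quadratic form
  have hquad : ∀ t u u' : Fin m → ℝ,
      quad y t (fun j => if |y j| < 1 then u j else u' j) =
        (∑ j, if |y j| < 1 then bt m y j * (u j - t j) ^ 2 else 0) +
        ∑ j, if |y j| < 1 then 0 else bt m y j * (u' j - t j) ^ 2 := by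
    intro t u u'
    unfold quad
    rw [← sum_add_distrib]
    refine sum_congr rfl fun j _ => ?_
    by_cases hj : |y j| < 1 <;> simp [hj]
  have hself : ∀ u : Fin m → ℝ, (fun j => if |y j| < 1 then u j else u j) = u := by
    intro u
    funext j
    simp
  have hact : ∀ u : Fin m → ℝ, (∑ j, if |y j| < 1 then bt m y j * (u j - θ j) ^ 2 else 0) =
      ∑ j, if |y j| < 1 then bt m y j * (u j - θ' j) ^ 2 else 0 := by
    intro u
    refine sum_congr rfl fun j _ => ?_
    by_cases hj : |y j| < 1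
    · simp [hj, h j hj]
    · simp [hj]
  -- minimality of `v` against the hybrid
  have h1 := Ph_le a w R y θ (fun j => if |y j| < 1 then v' j else v j)
    (hcube v' v (cube_Ph a w R y θ') (cube_Ph a w R y θ))
  rw [← hv] at h1
  unfold En at h1
  rw [hpen, hquad] at h1
  have h2 := hquad θ v v
  rw [hself] at h2
  rw [h2] at h1
  -- the hybrid is a minimiser for `θ'`
  have h3 : (fun j => if |y j| < 1 then v j else v' j) = Ph a w R y θ' := by
    refine eq_Ph hR hy (hcube v v' (cube_Ph a w R y θ) (cube_Ph a w R y θ')) fun x hx => ?_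
    refine le_trans ?_ (Ph_le a w R y θ' x hx)
    rw [← hv']
    unfold En
    rw [hpen, hquad]
    have h4 := hquad θ' v' v'
    rw [hself] at h4
    rw [h4, ← hact v, ← hact v']
    linarith
  have h4 := congrFun h3 j
  simp only [hj, if_true] at h4
  exact h4

end StepRow

theorem step_proof : StepStatement := by
  intro n m a w ρ _ hw hρ
  have hR : (0 : ℝ) ≤ 2 * (m + 1) / ρ ^ 2 := by positivity
  refine ⟨StepRow.Ph a w (2 * (m + 1) / ρ ^ 2), ?_⟩
  refine ⟨fun y θ _ _ => StepRow.cube_Ph _ _ _ _ _, fun y θ hy _ => StepRow.odd_Ph hR hy,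
    StepRow.continuousOn_Ph hR, fun y θ hy hθ i => StepRow.lin_Ph hw hρ hy hθ i,
    fun y θ v hy hθ hv h => ?_, fun y θ θ' hy _ _ h j hj => StepRow.loc_Ph hR hy h j hj⟩
  have h1 := StepRow.near_Ph (R := 2 * (m + 1) / ρ ^ 2) (θ := θ) hv h
  have h2 := mul_nonneg hR (StepRow.pen_nonneg a w y (StepRow.Ph a w (2 * (m + 1) / ρ ^ 2) y θ))
  unfold StepRow.quad at h1
  linarith

end Pool.Agent.Lib.MP_506ba8_co.P50
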