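import Pool.Agent.Lib.MP_506ba8_co.P50.Iface

/-!
Row Sum (helper84): the widths are summable, by a telescoping function.
-/

set_option autoImplicit false

open Finset

namespace Pool.Agent.Lib.MP_506ba8_co.P50

namespace SumRow

/-- The telescoping function. -/
noncomputable def FF (K : ℝ) (n : ℕ) (T : ℝ) : ℝ :=
  if T ≤ K * n then 80 * (K * √√(n * T)) else (80 * K ^ 2 + 40) * √n - 39 * (n / √T)

theorem quart_le {x : ℝ} (hx : 0 ≤ x) : √√(19 / 20 * x) ≤ 79 / 80 * √√x := by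
  have h1 : (19 / 20 : ℝ) * x ≤ (79 / 80) ^ 4 * x := mul_le_mul_of_nonneg_right (by norm_num) hx
  have h2 : √((79 / 80 : ℝ) ^ 4 * x) = (79 / 80) ^ 2 * √x := by
    rw [show ((79 / 80 : ℝ)) ^ 4 = ((79 / 80) ^ 2) ^ 2 by norm_num, Real.sqrt_mul (by positivity),
      Real.sqrt_sq (by positivity)]
  have h3 : √((79 / 80 : ℝ) ^ 2 * √x) = 79 / 80 * √√x := by
    rw [Real.sqrt_mul (by positivity), Real.sqrt_sq (by positivity)]
  rw [← h3, ← h2]
  exact Real.sqrt_le_sqrt (Real.sqrt_le_sqrt h1)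

theorem sq_le {x : ℝ} (hx : 0 ≤ x) : √(19 / 20 * x) ≤ 39 / 40 * √x := by
  have h1 : (19 / 20 : ℝ) * x ≤ (39 / 40) ^ 2 * x := mul_le_mul_of_nonneg_right (by norm_num) hx
  have h3 : √((39 / 40 : ℝ) ^ 2 * x) = 39 / 40 * √x := by
    rw [Real.sqrt_mul (by positivity), Real.sqrt_sq (by positivity)]
  rw [← h3]
  exact Real.sqrt_le_sqrt h1

theorem low_le {K : ℝ} (hK : 1 ≤ K) {n : ℕ} {T : ℝ} (hT : T ≤ K * n) : √√(n * T) ≤ K * √n := by
  have hn : (0 : ℝ) ≤ n := Nat.cast_nonneg n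
  have h1 : √(n * T) ≤ K * n := by
    rw [Real.sqrt_le_left (by positivity)]
    calc (n : ℝ) * T ≤ n * (K * n) := mul_le_mul_of_nonneg_left hT hn
      _ ≤ n * (K * n) * K := le_mul_of_one_le_right (by positivity) hK
      _ = (K * n) ^ 2 := by ring
  calc √√(n * T) ≤ √(K * n) := Real.sqrt_le_sqrt h1
    _ ≤ √(K ^ 2 * n) := Real.sqrt_le_sqrt (by nlinarith [mul_nonneg (mul_nonneg (by linarith : (0:ℝ) ≤ K) (by linarith : (0:ℝ) ≤ K - 1)) hn])
    _ = K * √n := by rw [Real.sqrt_mul (by positivity), Real.sqrt_sq (by linarith)]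

theorem high_le {K : ℝ} (hK : 1 ≤ K) {n : ℕ} {T : ℝ} (hT : K * n < T) : (n : ℝ) / √T ≤ √n := by
  have hn : (0 : ℝ) ≤ n := Nat.cast_nonneg n
  have hnT : (n : ℝ) ≤ T := (le_mul_of_one_le_left hn hK).trans hT.le
  have hT0 : 0 < T := lt_of_le_of_lt (by positivity) hT
  rw [div_le_iff₀ (Real.sqrt_pos.2 hT0)]
  calc (n : ℝ) = √n * √n := (Real.mul_self_sqrt hn).symm
    _ ≤ √n * √T := mul_le_mul_of_nonneg_left (Real.sqrt_le_sqrt hnT) (Real.sqrt_nonneg _)

theorem step {K : ℝ} (hK : 1 ≤ K) (n : ℕ) {T : ℝ} (hT : 0 ≤ T) : Wd K n T ≤ FF K n T - FF K n (T * (19 / 20)) := by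
  have hn : (0 : ℝ) ≤ n := Nat.cast_nonneg n
  have hK0 : 0 ≤ K := by linarith
  have hn0 : 0 ≤ √(n : ℝ) := Real.sqrt_nonneg _
  by_cases h1 : T ≤ K * n
  · have h2 : T * (19 / 20) ≤ K * n := by linarith
    unfold Wd FF
    rw [if_pos h1, if_pos h1, if_pos h2]
    have h3 := quart_le (x := n * T) (by positivity)
    have h4 : (n : ℝ) * (T * (19 / 20)) = 19 / 20 * (n * T) := by ring
    rw [h4]
    have h5 := mul_le_mul_of_nonneg_left h3 hK0
    nlinarith
  · push Not at h1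
    have hT0 : 0 < T := lt_of_le_of_lt (by positivity) h1
    by_cases h2 : T * (19 / 20) ≤ K * n
    · unfold Wd FF
      rw [if_neg (not_le.2 h1), if_neg (not_le.2 h1), if_pos h2]
      have h3 := mul_le_mul_of_nonneg_left (low_le hK h2) hK0
      have h4 := high_le hK h1
      have h5 : K * (K * √(n : ℝ)) = K ^ 2 * √(n : ℝ) := by ring
      rw [h5] at h3
      nlinarith
    · unfold Wd FF
      rw [if_neg (not_le.2 h1), if_neg (not_le.2 h1), if_neg h2]
      have h3 := sq_le hT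
      have h4 : T * (19 / 20) = 19 / 20 * T := by ring
      rw [h4]
      have h5 : 0 < √(19 / 20 * T) := Real.sqrt_pos.2 (by positivity)
      have h6 : 0 < √T := Real.sqrt_pos.2 hT0
      have h7 : (n : ℝ) / √T * (40 / 39) ≤ n / √(19 / 20 * T) := by
        rw [le_div_iff₀ h5]
        calc (n : ℝ) / √T * (40 / 39) * √(19 / 20 * T) ≤ (n : ℝ) / √T * (40 / 39) * (39 / 40 * √T) :=
              mul_le_mul_of_nonneg_left h3 (by positivity)
          _ = n := by field_simp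
      linarith

theorem FF_le {K : ℝ} (hK : 1 ≤ K) (n : ℕ) (T : ℝ) : FF K n T ≤ (80 * K ^ 2 + 40) * √n := by
  have hn0 : 0 ≤ √(n : ℝ) := Real.sqrt_nonneg _
  have hK0 : 0 ≤ K := by linarith
  unfold FF
  split_ifs with h
  · have h3 := mul_le_mul_of_nonneg_left (low_le hK h) hK0
    nlinarith
  · have : 0 ≤ (n : ℝ) / √T := by positivity
    linarith

theorem FF_nonneg {K : ℝ} (hK : 1 ≤ K) (n : ℕ) (T : ℝ) : 0 ≤ FF K n T := by
  have hn0 : 0 ≤ √(n : ℝ) := Real.sqrt_nonneg _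
  have hK0 : 0 ≤ K := by linarith
  unfold FF
  split_ifs with h
  · positivity
  · push Not at h
    have h4 := high_le hK h
    have : 0 ≤ 80 * K ^ 2 * √(n : ℝ) := by positivity
    linarith

end SumRow

open SumRow in
/-- Row Sum. -/
theorem sum_proof : SumStatement := by
  intro K hK
  refine ⟨80 * K ^ 2 + 40, by positivity, fun n m S => ?_⟩
  have key : ∀ S : ℕ, ∑ s ∈ range S, Wd K n (m * (19 / 20) ^ s) ≤ FF K n m - FF K n (m * (19 / 20) ^ S) := by
    intro S
    induction S with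
    | zero => simp
    | succ S ih =>
      rw [Finset.sum_range_succ]
      have h1 := step hK n (T := m * (19 / 20) ^ S) (by positivity)
      have h2 : (m : ℝ) * (19 / 20) ^ (S + 1) = m * (19 / 20) ^ S * (19 / 20) := by ring
      rw [h2]
      linarith
  have h1 := key S
  have h2 := FF_le hK n m
  have h3 := FF_nonneg hK n (m * (19 / 20) ^ S)
  linarith

end Pool.Agent.Lib.MP_506ba8_co.P50
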