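import Pool.Agent.Lib.MP_506ba8_co.P50.Iface

/-!
Row Xi of `lip_modules`: interpolation of the sign vectors at the vertices of the grid.
-/

open Finset

namespace Pool.Agent.Lib.MP_506ba8_co.P50

namespace XiRow

noncomputable section

/-- `G_j(u) = clip (j + 1 + m u)` -/
def G (m j : ℕ) (u : ℝ) : ℝ := max 0 (min 1 ((j : ℝ) + 1 + m * u))

theorem G_cont (m j : ℕ) : Continuous (G m j) := by
  unfold G
  fun_prop

theorem G_nonneg (m j : ℕ) (u : ℝ) : 0 ≤ G m j u := le_max_left _ _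

theorem G_mono (m j : ℕ) {u v : ℝ} (h : u ≤ v) : G m j u ≤ G m j v := by
  unfold G
  refine max_le_max le_rfl (min_le_min le_rfl ?_)
  have : (m : ℝ) * u ≤ m * v := mul_le_mul_of_nonneg_left h (Nat.cast_nonneg m)
  linarith

theorem G_one (m j : ℕ) {u : ℝ} (h : 0 ≤ (j : ℝ) + m * u) : G m j u = 1 := by
  unfold G
  rw [min_eq_left (by linarith), max_eq_right (by norm_num)]

theorem G_zero (m j : ℕ) {u : ℝ} (h : (j : ℝ) + 1 + m * u ≤ 0) : G m j u = 0 := by
  unfold G
  rw [min_eq_right (by linarith), max_eq_left h]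

/-- the weights -/
def W (m N j : ℕ) (t : ℝ) (q : ℕ) : ℝ :=
  G m j (N * |t| - (q : ℕ)) - G m j (N * |t| - ((q + 1 : ℕ) : ℝ))

theorem W_nonneg (m N j : ℕ) (t : ℝ) (q : ℕ) : 0 ≤ W m N j t q := by
  unfold W
  refine sub_nonneg.mpr (G_mono m j ?_)
  push_cast
  linarith

theorem W_cont (m N j q : ℕ) : Continuous (fun t => W m N j t q) := by
  unfold W
  refine ((G_cont m j).comp ?_).sub ((G_cont m j).comp ?_) <;> fun_prop

theorem W_sum {m N j : ℕ} (hj : j < m) {t : ℝ} (ht : |t| ≤ 1) :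
    ∑ q : Fin (N + 2), W m N j t q = 1 := by
  rw [Fin.sum_univ_eq_sum_range (fun q => W m N j t q) (N + 2)]
  unfold W
  rw [Finset.sum_range_sub' (fun q : ℕ => G m j (N * |t| - (q : ℕ))) (N + 2)]
  have hm : (j : ℝ) + 1 ≤ m := by exact_mod_cast hj
  have hN : (N : ℝ) * |t| ≤ N := by
    have := mul_le_mul_of_nonneg_left ht (Nat.cast_nonneg (α := ℝ) N)
    linarith
  have h0 : 0 ≤ (N : ℝ) * |t| := by positivity
  have hj0 : (0 : ℝ) ≤ j := Nat.cast_nonneg j
  rw [G_one m j (by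
      have : (0 : ℝ) ≤ m * (N * |t| - ((0 : ℕ) : ℝ)) := by
        rw [Nat.cast_zero, sub_zero]; positivity
      linarith), G_zero m j (by
      have h2 : (N : ℝ) * |t| - ((N + 2 : ℕ) : ℝ) ≤ -1 := by push_cast; linarith
      have h3 : (m : ℝ) * (N * |t| - ((N + 2 : ℕ) : ℝ)) ≤ m * (-1) :=
        mul_le_mul_of_nonneg_left h2 (Nat.cast_nonneg m)
      linarith)]
  norm_num

/-- the weights in the cell of `t`: no threshold in `(j, j+1)` -/
theorem W_cell {m N j : ℕ} (hj : j < m) (t : ℝ) (p : ℕ) (h1 : (p : ℝ) ≤ N * |t|)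
    (h2 : N * |t| < p + 1) (x : ℝ) (hx : x = m * (1 - (N * |t| - p)))
    (h : x ≤ j ∨ (j : ℝ) + 1 ≤ x) (q : ℕ) :
    W m N j t q = if q = (if x ≤ (j : ℝ) then p + 1 else p) then 1 else 0 := by
  have hm : (j : ℝ) + 1 ≤ m := by exact_mod_cast hj
  have hm0 : (0 : ℝ) ≤ m := Nat.cast_nonneg m
  have hj0 : (0 : ℝ) ≤ j := Nat.cast_nonneg j
  -- values of `G` at the grid points
  have A : ∀ r : ℕ, r ≤ p → G m j (N * |t| - (r : ℕ)) = 1 := by
    intro r hr
    refine G_one m j ?_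
    have h3 : (r : ℝ) ≤ p := by exact_mod_cast hr
    have : 0 ≤ (m : ℝ) * (N * |t| - r) := mul_nonneg hm0 (by linarith)
    linarith
  have B : ∀ r : ℕ, p + 2 ≤ r → G m j (N * |t| - (r : ℕ)) = 0 := by
    intro r hr
    refine G_zero m j ?_
    have h3 : (p : ℝ) + 2 ≤ r := by exact_mod_cast hr
    have : (m : ℝ) * (N * |t| - r) ≤ m * (-1) := mul_le_mul_of_nonneg_left (by linarith) hm0
    linarith
  have C : G m j (N * |t| - ((p + 1 : ℕ) : ℝ)) = if x ≤ (j : ℝ) then 1 else 0 := by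
    have e : (j : ℝ) + m * (N * |t| - ((p + 1 : ℕ) : ℝ)) = j - x := by
      rw [hx]; push_cast; ring
    split_ifs with hxj
    · exact G_one m j (by rw [e]; linarith)
    · refine G_zero m j ?_
      rcases h with h | h
      · exact absurd h hxj
      · linarith
  unfold W
  by_cases hxj : x ≤ (j : ℝ)
  · rw [if_pos hxj] at C ⊢
    rcases lt_trichotomy q (p + 1) with hq | hq | hq
    · rw [if_neg (by omega), A q (by omega)]
      rcases Nat.lt_or_ge q p with h4 | h4
      · rw [A (q + 1) (by omega)]; norm_num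
      · have : q = p := by omega
        rw [this, C]; norm_num
    · rw [if_pos hq, hq, C, B (p + 1 + 1) (by omega)]; norm_num
    · rw [if_neg (by omega), B q (by omega), B (q + 1) (by omega)]; norm_num
  · rw [if_neg hxj] at C ⊢
    rcases lt_trichotomy q p with hq | hq | hq
    · rw [if_neg (by omega), A q (by omega), A (q + 1) (by omega)]; norm_num
    · rw [if_pos hq, hq, C, A p le_rfl]; norm_num
    · rw [if_neg (by omega), B (q + 1) (by omega)]
      rcases Nat.lt_or_ge (p + 1) q with h4 | h4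
      · rw [B q (by omega)]; norm_num
      · have : q = p + 1 := by omega
        rw [this, C]; norm_num

/-- the interpolation -/
def Xi {k m N : ℕ} (ω : (Fin (k + 1) → Fin (N + 2)) → (Fin m → Bool))
    (z : Fin (k + 1) → ℝ) (j : Fin m) : ℝ :=
  ∑ q : Fin (k + 1) → Fin (N + 2), (∏ i, W m N j (z i) (q i)) * sg (ω q j)

theorem sg_abs (b : Bool) : |sg b| = 1 := by
  unfold sg; split_ifs <;> simp

theorem Xi_cont {k m N : ℕ} (ω : (Fin (k + 1) → Fin (N + 2)) → (Fin m → Bool)) :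
    Continuous (Xi ω) := by
  refine continuous_pi fun j => ?_
  unfold Xi
  refine continuous_finsetSum _ fun q _ => ?_
  refine Continuous.mul (continuous_finsetProd _ fun i _ => ?_) continuous_const
  exact (W_cont m N j (q i)).comp (continuous_apply i)

theorem Xi_even {k m N : ℕ} (ω : (Fin (k + 1) → Fin (N + 2)) → (Fin m → Bool))
    (z : Fin (k + 1) → ℝ) : Xi ω (-z) = Xi ω z := by
  funext j
  unfold Xi W
  simp only [Pi.neg_apply, abs_neg]

theorem Xi_cube {k m N : ℕ} (ω : (Fin (k + 1) → Fin (N + 2)) → (Fin m → Bool))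
    (z : Fin (k + 1) → ℝ) (hz : ∀ i, |z i| ≤ 1) : Cube (Xi ω z) := by
  intro j
  unfold Xi
  refine (Finset.abs_sum_le_sum_abs _ _).trans ?_
  have h1 : ∀ q : Fin (k + 1) → Fin (N + 2),
      |(∏ i, W m N j (z i) (q i)) * sg (ω q j)| = ∏ i, W m N j (z i) (q i) := by
    intro q
    rw [abs_mul, sg_abs, mul_one,
      abs_of_nonneg (Finset.prod_nonneg fun i _ => W_nonneg m N j (z i) (q i))]
  rw [Finset.sum_congr rfl fun q _ => h1 q]
  have h2 := Finset.prod_univ_sum (fun _ : Fin (k + 1) => (univ : Finset (Fin (N + 2))))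
    (fun i q => W m N j (z i) q)
  rw [Fintype.piFinset_univ] at h2
  rw [← h2]
  refine le_of_eq (Finset.prod_eq_one fun i _ => W_sum j.2 (hz i))

theorem Xi_cell {k m N : ℕ} (ω : (Fin (k + 1) → Fin (N + 2)) → (Fin m → Bool))
    (z : Fin (k + 1) → ℝ) (p : Fin (k + 1) → Fin (N + 1))
    (hp : ∀ i, ((p i : ℕ) : ℝ) ≤ N * |z i| ∧ N * |z i| < (p i : ℕ) + 1) (j : Fin m)
    (x : Fin (k + 1) → ℝ) (hx : ∀ i, x i = m * (1 - (N * |z i| - (p i : ℕ))))
    (h : ∀ i, x i ≤ (j : ℕ) ∨ ((j : ℕ) : ℝ) + 1 ≤ x i) :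
    Xi ω z j = sg (ω (vtx p x j) j) := by
  have key : ∀ i (q : Fin (N + 2)), W m N j (z i) q = if q = vtx p x j i then 1 else 0 := by
    intro i q
    rw [W_cell j.2 (z i) (p i) (hp i).1 (hp i).2 (x i) (hx i) (h i) q]
    have : ((q : ℕ) = if x i ≤ ((j : ℕ) : ℝ) then (p i : ℕ) + 1 else (p i : ℕ)) ↔
        q = vtx p x j i := by
      unfold vtx
      rw [Fin.ext_iff]
      split_ifs <;> simp
    simp only [this]
  unfold Xi
  rw [Finset.sum_eq_single (vtx p x j)]
  · rw [Finset.prod_eq_one, one_mul]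
    intro i _
    rw [key, if_pos rfl]
  · intro q _ hq
    obtain ⟨i, hi⟩ := Function.ne_iff.mp hq
    rw [Finset.prod_eq_zero (Finset.mem_univ i), zero_mul]
    rw [key, if_neg hi]
  · intro h; exact absurd (Finset.mem_univ _) h

end

end XiRow

open XiRow in
theorem xi_proof : XiStatement := by
  intro k m N ω hm hN
  refine ⟨Xi ω, Xi_cont ω, Xi_even ω, fun z hz => Xi_cube ω z hz, ?_⟩
  intro z p hz hp
  refine ⟨fun i => m * (1 - (N * |z i| - (p i : ℕ))), ?_⟩
  set x : Fin (k + 1) → ℝ := fun i => m * (1 - (N * |z i| - (p i : ℕ))) with hx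
  classical
  have hsub : (univ.filter (fun j : Fin m => Xi ω z j ≠ sg (ω (vtx p x j) j))) ⊆
      (univ : Finset (Fin (k + 1))).biUnion
        (fun i => univ.filter (fun j : Fin m => ((j : ℕ) : ℝ) < x i ∧ x i < ((j : ℕ) : ℝ) + 1)) := by
    intro j hj
    rw [Finset.mem_filter] at hj
    by_contra hcon
    apply hj.2
    refine Xi_cell ω z p hp j x (fun i => rfl) ?_
    intro i
    by_contra hi
    push Not at hi
    apply hcon
    rw [Finset.mem_biUnion]
    exact ⟨i, Finset.mem_univ _, Finset.mem_filter.mpr ⟨Finset.mem_univ _, hi.1, hi.2⟩⟩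
  refine (Finset.card_le_card hsub).trans (Finset.card_biUnion_le.trans ?_)
  have h1 : ∀ i ∈ (univ : Finset (Fin (k + 1))),
      (univ.filter (fun j : Fin m => ((j : ℕ) : ℝ) < x i ∧ x i < ((j : ℕ) : ℝ) + 1)).card ≤ 1 := by
    intro i _
    rw [Finset.card_le_one]
    intro a ha b hb
    rw [Finset.mem_filter] at ha hb
    have h1 : ((a : ℕ) : ℝ) < ((b : ℕ) : ℝ) + 1 := by linarith [ha.2.1, hb.2.2]
    have h2 : ((b : ℕ) : ℝ) < ((a : ℕ) : ℝ) + 1 := by linarith [hb.2.1, ha.2.2]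
    have h3 : (a : ℕ) < (b : ℕ) + 1 := by exact_mod_cast h1
    have h4 : (b : ℕ) < (a : ℕ) + 1 := by exact_mod_cast h2
    exact Fin.ext (by omega)
  refine (Finset.sum_le_sum h1).trans ?_
  simp

end Pool.Agent.Lib.MP_506ba8_co.P50
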