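import Pool.Agent.Lib.MP_506ba8_co.P50.Mgf
import Pool.Agent.Lib.MP_506ba8_co.P50.Iso
import Pool.Agent.Lib.MP_506ba8_co.P50.Hoe
import Pool.Agent.Lib.MP_506ba8_co.P50.Fib
import Pool.Agent.Lib.MP_506ba8_co.P50.Step
import Pool.Agent.Lib.MP_506ba8_co.P50.Pot
import Pool.Agent.Lib.MP_506ba8_co.P50.Stage
import Pool.Agent.Lib.MP_506ba8_co.P50.Lll
import Pool.Agent.Lib.MP_506ba8_co.P50.Cov
import Pool.Agent.Lib.MP_506ba8_co.P50.Xi
import Pool.Agent.Lib.MP_506ba8_co.P50.Trn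
import Pool.Agent.Lib.MP_506ba8_co.P50.Num
import Pool.Agent.Lib.MP_506ba8_co.P50.Sel
import Pool.Agent.Lib.MP_506ba8_co.P50.Iter
import Pool.Agent.Lib.MP_506ba8_co.P50.Sum
import Pool.Agent.Lib.MP_506ba8_co.P50.Rnd
import Pool.Agent.Lib.MP_506ba8_co.P50.Ext
import Pool.Agent.Lib.MP_506ba8_co.P50.Main
import Pool.Agent.Lib.MP_506ba8_co.P50.Res

/-!
Assembly.
-/

namespace Pool.Agent.Lib.MP_506ba8_co.P50

theorem iter_all : IterStatement :=
  iter_proof (sel_proof step_proof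
    (stage_proof (iso_proof mgf_proof) (hoe_proof mgf_proof) fib_proof pot_proof)
    (cov_proof lll_proof) xi_proof trn_proof num_proof)

theorem main_all : MainStatement :=
  main_proof iter_all sum_proof (rnd_proof mgf_proof) ext_proof

end Pool.Agent.Lib.MP_506ba8_co.P50
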