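import Mathlib
import Pool.Agent.Lib.MP_506ba8_co.H52.Necklace

/-!
Definitions for the theorem on `n` additive and `k` arbitrary Lipschitz functions
(`k` up to `n / log^2`, uniformly in the size `m` of the ground set).
-/

open Finset

namespace Pool.Agent.Lib.MP_506ba8_co.P50

/-- sign of a boolean -/
noncomputable def sg (b : Bool) : ℝ := if b then 1 else -1

/-- the cube `[-1,1]^m` -/
def Cube {m : ℕ} (y : Fin m → ℝ) : Prop := ∀ j, |y j| ≤ 1

/-- product weight of a sign vector -/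
noncomputable def wt {m : ℕ} (p : Fin m → ℝ) (x : Fin m → Bool) : ℝ :=
  ∏ j, (if x j then p j else 1 - p j)

/-- multilinear extension -/
noncomputable def ext {m : ℕ} (g : (Fin m → Bool) → ℝ) (y : Fin m → ℝ) : ℝ :=
  ∑ x, wt (fun j => (1 + y j) / 2) x * g x

/-- the potential -/
noncomputable def Psi {m : ℕ} (y : Fin m → ℝ) : ℝ := ∑ j, √(1 - |y j|)

/-- the weights of the projection -/
noncomputable def bt (m : ℕ) (y : Fin m → ℝ) (j : Fin m) : ℝ := √(1 - |y j| + 1 / (m : ℝ) ^ 2)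

/-- the widths -/
noncomputable def Wd (K : ℝ) (n : ℕ) (T : ℝ) : ℝ :=
  if T ≤ K * n then K * √√(n * T) else n / √T

/-- `Φ y θ` is (a substitute of) the projection of `θ` to the feasible polytope at `y`. -/
structure IsStep {n m : ℕ} (a : Fin n → Fin m → ℝ) (w ρ : ℝ)
    (Φ : (Fin m → ℝ) → (Fin m → ℝ) → (Fin m → ℝ)) : Prop where
  bd : ∀ y θ, Cube y → Cube θ → Cube (Φ y θ)
  odd : ∀ y θ, Cube y → Cube θ → Φ (-y) (-θ) = -Φ y θ
  cont : ContinuousOn (fun q : (Fin m → ℝ) × (Fin m → ℝ) => Φ q.1 q.2)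
    {q | Cube q.1 ∧ Cube q.2}
  lin : ∀ y θ, Cube y → Cube θ → ∀ i, |∑ j, (1 - |y j|) * a i j * Φ y θ j| ≤ w + ρ
  near : ∀ y θ v, Cube y → Cube θ → Cube v →
    (∀ i, |∑ j, (1 - |y j|) * a i j * v j| ≤ w) →
    ∑ j, bt m y j * (Φ y θ j - θ j) ^ 2 ≤ ∑ j, bt m y j * (v j - θ j) ^ 2
  loc : ∀ y θ θ', Cube y → Cube θ → Cube θ' → (∀ j, |y j| < 1 → θ j = θ' j) →
    ∀ j, |y j| < 1 → Φ y θ j = Φ y θ' j

/-- one stage: `y ↦ y + (1 - |y|) Φ(y, θ)` -/
noncomputable def mv {m : ℕ} (Φ : (Fin m → ℝ) → (Fin m → ℝ) → (Fin m → ℝ))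
    (y θ : Fin m → ℝ) : Fin m → ℝ := fun j => y j + (1 - |y j|) * Φ y θ j

/-- the vertex of the grid cell `p` used by bead `j`, for the thresholds `x` -/
noncomputable def vtx {k N : ℕ} (p : Fin (k + 1) → Fin (N + 1)) (x : Fin (k + 1) → ℝ) (j : ℕ) :
    Fin (k + 1) → Fin (N + 2) :=
  fun i => if x i ≤ (j : ℝ) then (p i).succ else (p i).castSucc

end Pool.Agent.Lib.MP_506ba8_co.P50
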