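import Pool.Agent.Lib.MP_506ba8_co.P50.Defs

/-!
Statements of the rows (board `lip_modules`). Paper: finding of helper50 on MP_506ba8_co.
-/

open Finset

namespace Pool.Agent.Lib.MP_506ba8_co.P50

/-- Row Mgf: exponential moments of functions with bounded differences, product measure. -/
def MgfStatement : Prop := ∀ (m : ℕ) (p c ψ : Fin m → ℝ) (f : (Fin m → Bool) → ℝ),
  (∀ j, 0 ≤ p j ∧ p j ≤ 1) → (∀ x j b, |f (Function.update x j b) - f x| ≤ c j) →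
  (∀ j (a b : ℝ), |a - b| ≤ c j →
    p j * Real.exp a + (1 - p j) * Real.exp b ≤ Real.exp (ψ j + (p j * a + (1 - p j) * b))) →
  ∑ x, wt p x * Real.exp (f x) ≤ Real.exp (∑ j, ψ j + ∑ x, wt p x * f x)

/-- Row Iso: the weighted isoperimetric inequality of the cube. -/
def IsoStatement : Prop := ∀ (m : ℕ) (β : Fin m → ℝ) (V t : ℝ) (A : Finset (Fin m → Bool)),
  (∀ j, 0 ≤ β j) → ∑ j, β j ^ 2 ≤ V → 0 < V → 0 ≤ t →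
  ((univ.filter (fun θ : Fin m → Bool =>
      ∀ u ∈ A, t ≤ ∑ j, if u j ≠ θ j then β j else 0)).card : ℝ) * (A.card : ℝ) ≤
    4 ^ m * Real.exp (-(t ^ 2 / V))

/-- Row Hoe: Hoeffding for a random sign vector against a fixed one. -/
def HoeStatement : Prop := ∀ (m : ℕ) (α : Fin m → ℝ) (s : Fin m → Bool) (V t : ℝ),
  (∀ j, 0 ≤ α j) → ∑ j, α j ^ 2 ≤ V → 0 < V → 0 ≤ t →
  ((univ.filter (fun θ : Fin m → Bool =>
      (∑ j, α j) / 2 + t < ∑ j, if θ j ≠ s j then α j else 0)).card : ℝ) ≤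
    2 ^ m * Real.exp (-(2 * t ^ 2 / V))

/-- Row Fib: a large set of sign vectors on which the functionals are nearly constant. -/
def FibStatement : Prop := ∀ η : ℝ, 0 < η → ∃ K0 : ℝ, 1 ≤ K0 ∧ ∀ K : ℝ, K0 ≤ K →
  ∀ (n m : ℕ) (T : ℝ) (b : Fin n → Fin m → ℝ), K ≤ T → (∀ i, ∑ j, b i j ^ 2 ≤ T) →
  ∃ A : Finset (Fin m → Bool), 2 ^ m * Real.exp (-(η * T)) ≤ (A.card : ℝ) ∧
    ∀ u ∈ A, ∀ v ∈ A, ∀ i, |∑ j, b i j * ((sg (u j) - sg (v j)) / 2)| ≤ Wd K n T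

/-- Row Step: existence of the step map (minimiser of a strongly convex function). -/
def StepStatement : Prop := ∀ (n m : ℕ) (a : Fin n → Fin m → ℝ) (w ρ : ℝ),
  (∀ i j, |a i j| ≤ 1) → 0 ≤ w → 0 < ρ → ∃ Φ, IsStep a w ρ Φ

/-- Row Pot: the potential after a step, deterministic. -/
def PotStatement : Prop := ∀ (m r : ℕ) (y θ v : Fin m → ℝ) (s : Fin m → Bool) (T : ℝ),
  Cube y → Cube θ → Cube v → (∀ j, sg (s j) * y j = |y j|) →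
  (univ.filter (fun j => |θ j| < 1)).card ≤ r → (100000 : ℝ) * (r + 1) ≤ T → Psi y ≤ T →
  (∑ j, if θ j * sg (s j) < 0 then √(1 - |y j|) else 0) ≤ T / 2 + T / 50000 →
  ∑ j, bt m y j * (v j - θ j) ^ 2 ≤ T / 10000 →
  Psi (fun j => y j + (1 - |y j|) * v j) ≤ 9 / 10 * T

/-- Row Stage: at most a fraction `exp (-T/K)` of the sign vectors is bad for one stage. -/
def StageStatement : Prop := ∃ K0 : ℝ, 1 ≤ K0 ∧ ∀ K : ℝ, K0 ≤ K →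
  ∀ (n m r : ℕ) (a : Fin n → Fin m → ℝ) (T ρ : ℝ)
    (Φ : (Fin m → ℝ) → (Fin m → ℝ) → (Fin m → ℝ)) (y : Fin m → ℝ),
  (∀ i j, |a i j| ≤ 1) → K * (r + 1) ≤ T → IsStep a (Wd K n T) ρ Φ → Cube y → Psi y ≤ T →
  ∃ B : Finset (Fin m → Bool), (B.card : ℝ) ≤ 2 ^ m * Real.exp (-(T / K)) ∧
    ∀ ξ, ξ ∉ B → ∀ θ, Cube θ → (univ.filter (fun j => θ j ≠ sg (ξ j))).card ≤ r →
      Psi (mv Φ y θ) ≤ 9 / 10 * T

/-- Row Lll: the symmetric local lemma for a finite product space. -/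
def LllStatement : Prop := ∀ (V α C : Type) [Fintype V] [DecidableEq V] [Fintype α] [Nonempty α]
  [Fintype C] [DecidableEq C] (vb : C → Finset V) (E : C → Set (V → α)) (p : ℝ) (D : ℕ),
  (∀ c ω ω', (∀ v ∈ vb c, ω v = ω' v) → ω ∈ E c → ω' ∈ E c) →
  (∀ c, ((E c).ncard : ℝ) ≤ p * (Fintype.card α : ℝ) ^ Fintype.card V) →
  (∀ c, (univ.filter (fun c' => ¬ Disjoint (vb c) (vb c'))).card ≤ D) →
  1 ≤ D → 4 * p * D ≤ 1 → ∃ ω : V → α, ∀ c, ω ∉ E c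

/-- Row Cov: a choice of sign vectors at the vertices of the grid for which no hybrid is bad. -/
def CovStatement : Prop := ∀ (k m N Q : ℕ) (ρ : ℝ)
  (I : (Fin (k + 1) → Fin (N + 1)) → (Fin (k + 1) → Bool) → Finset (Fin m))
  (B : (Fin (k + 1) → Fin (N + 1)) → (Fin (k + 1) → Bool) → Finset (Fin m → Bool)),
  (∀ p s, (I p s).card ≤ Q) →
  (∀ p s ξ ξ', (∀ j ∈ I p s, ξ j = ξ' j) → ξ ∈ B p s → ξ' ∈ B p s) →
  (∀ p s, ((B p s).card : ℝ) ≤ 2 ^ m * ρ) → 0 ≤ ρ →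
  4 * (6 * ((Q : ℝ) + 1)) ^ (k + 1) * ρ ≤ 1 →
  ∃ ω : (Fin (k + 1) → Fin (N + 2)) → (Fin m → Bool), ∀ p s (x : Fin (k + 1) → ℝ),
    (fun j : Fin m => ω (vtx p x j) j) ∉ B p s

/-- Row Xi: the interpolation of the sign vectors at the vertices of the grid. -/
def XiStatement : Prop := ∀ (k m N : ℕ) (ω : (Fin (k + 1) → Fin (N + 2)) → (Fin m → Bool)),
  0 < m → 0 < N → ∃ Ξ : (Fin (k + 1) → ℝ) → (Fin m → ℝ),
    Continuous Ξ ∧ (∀ z, Ξ (-z) = Ξ z) ∧ (∀ z, (∀ i, |z i| ≤ 1) → Cube (Ξ z)) ∧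
    ∀ (z : Fin (k + 1) → ℝ) (p : Fin (k + 1) → Fin (N + 1)), (∀ i, |z i| ≤ 1) →
      (∀ i, ((p i : ℕ) : ℝ) ≤ N * |z i| ∧ N * |z i| < (p i : ℕ) + 1) →
      ∃ x : Fin (k + 1) → ℝ,
        (univ.filter (fun j : Fin m => Ξ z j ≠ sg (ω (vtx p x j) j))).card ≤ k + 1

/-- Row Trn: truncation of the coordinates which are almost `1` or `-1`. -/
def TrnStatement : Prop := ∀ (m : ℕ) (T : ℝ), 2 ≤ T → ∃ tr : (Fin m → ℝ) → (Fin m → ℝ),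
  Continuous tr ∧ (∀ y, tr (-y) = -tr y) ∧ ∀ y, Cube y → Cube (tr y) ∧ Psi (tr y) ≤ Psi y ∧
    ∑ j, |tr y j - y j| ≤ Psi y / T ^ 2 ∧
    ((univ.filter (fun j => |tr y j| < 1)).card : ℝ) ≤ T ^ 2 * Psi y

/-- Row Num: the numerical condition of a stage. -/
def NumStatement : Prop := ∀ K : ℝ, 1 ≤ K → ∃ K1 : ℝ, 2 ≤ K1 ∧ ∀ (k : ℕ) (T : ℝ),
  K1 * (k + 1) * Real.log (k + 2) ≤ T → 2 ≤ T ∧ K * ((2 * k + 1 : ℕ) + 1) ≤ T ∧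
    4 * (6 * (T ^ 3 + 1)) ^ (k + 1) * Real.exp (-(T / K)) ≤ 1

/-- Row Sel: one stage. -/
def SelStatement : Prop := ∃ K0 : ℝ, 1 ≤ K0 ∧ ∀ K : ℝ, K0 ≤ K → ∃ K1 : ℝ, 2 ≤ K1 ∧
  ∀ (n m k : ℕ) (a : Fin n → Fin m → ℝ) (T : ℝ) (Y : (Fin (k + 1) → ℝ) → (Fin m → ℝ)),
  (∀ i j, |a i j| ≤ 1) → 0 < m → K1 * (k + 1) * Real.log (k + 2) ≤ T →
  ContinuousOn Y {z | ‖z‖ = 1} → (∀ z, ‖z‖ = 1 → Y (-z) = -Y z) →
  (∀ z, ‖z‖ = 1 → Cube (Y z)) → (∀ z, ‖z‖ = 1 → Psi (Y z) ≤ T) →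
  ∃ Y' : (Fin (k + 1) → ℝ) → (Fin m → ℝ),
    ContinuousOn Y' {z | ‖z‖ = 1} ∧ (∀ z, ‖z‖ = 1 → Y' (-z) = -Y' z) ∧
    (∀ z, ‖z‖ = 1 → Cube (Y' z)) ∧ (∀ z, ‖z‖ = 1 → Psi (Y' z) ≤ 19 / 20 * T) ∧
    ∀ z, ‖z‖ = 1 → ∀ i, |∑ j, a i j * (Y' z j - Y z j)| ≤ Wd K n T + 2 / T

/-- Row Iter: the iterated map of the sphere into the cube. -/
def IterStatement : Prop := ∃ K K1 : ℝ, 1 ≤ K ∧ 1 ≤ K1 ∧
  ∀ (n m k : ℕ) (a : Fin n → Fin m → ℝ), (∀ i j, |a i j| ≤ 1) → 0 < m →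
  ∃ (S : ℕ) (Y : (Fin (k + 1) → ℝ) → (Fin m → ℝ)),
    ContinuousOn Y {z | ‖z‖ = 1} ∧ (∀ z, ‖z‖ = 1 → Y (-z) = -Y z) ∧
    (∀ z, ‖z‖ = 1 → Cube (Y z)) ∧
    (∀ z, ‖z‖ = 1 → Psi (Y z) ≤ K1 * (k + 1) * Real.log (k + 2)) ∧
    ∀ z, ‖z‖ = 1 → ∀ i, |∑ j, a i j * Y z j| ≤
      ∑ s ∈ range S, Wd K n (m * (19 / 20) ^ s) + 40

/-- Row Sum: the widths are summable. -/
def SumStatement : Prop := ∀ K : ℝ, 1 ≤ K → ∃ C : ℝ, 0 ≤ C ∧ ∀ n m S : ℕ,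
  ∑ s ∈ range S, Wd K n (m * (19 / 20) ^ s) ≤ C * √n

/-- Row Rnd: random rounding of a nearly integral point. -/
def RndStatement : Prop := ∀ (m N : ℕ) (g : Fin N → (Fin m → Bool) → ℝ) (y : Fin m → ℝ)
  (D l : ℝ), Cube y → (∀ i x j b, |g i (Function.update x j b) - g i x| ≤ 2) →
  ∑ j, (1 - |y j|) ≤ D → Real.log (2 * N + 1) ≤ l → l ≤ D →
  ∃ x : Fin m → Bool, ∀ i, |g i x - ext (g i) y| ≤ 4 * √(l * D)

/-- Row Ext: the multilinear extension. -/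
def ExtStatement : Prop := ∀ (m : ℕ),
  (∀ g : (Fin m → Bool) → ℝ, Continuous (ext g)) ∧
  (∀ g : (Fin m → Bool) → ℝ, (∀ x, g (fun j => !(x j)) = -g x) →
    ∀ y, ext g (-y) = -ext g y) ∧
  (∀ (c : Fin m → ℝ) (y : Fin m → ℝ),
    ext (fun x => ∑ j, c j * sg (x j)) y = ∑ j, c j * y j)

/-- Row Main: sign vectors. -/
def MainStatement : Prop := ∃ C : ℝ, 0 ≤ C ∧ ∀ (n m k : ℕ) (a : Fin n → Fin m → ℝ)
  (g : Fin k → (Fin m → Bool) → ℝ), (∀ i j, |a i j| ≤ 1) →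
  (∀ l x j b, |g l (Function.update x j b) - g l x| ≤ 2) →
  (∀ l x, g l (fun j => !(x j)) = -g l x) →
  ∃ x : Fin m → Bool,
    (∀ i, |∑ j, a i j * sg (x j)| ≤ C * (√n + √(k + 1) * Real.log (n + k + 2))) ∧
    ∀ l, |g l x| ≤ C * (√(k + 1) * Real.log (n + k + 2))

end Pool.Agent.Lib.MP_506ba8_co.P50
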