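import Pool.Agent.Lib.MP_506ba8_co.P50.Iface

/-!
Row Mgf (helper74): exponential moments of functions with bounded differences, product measure.
-/

open Finset

namespace Pool.Agent.Lib.MP_506ba8_co.P50

namespace Mgf

theorem sum_cons {m : ℕ} (F : (Fin (m + 1) → Bool) → ℝ) :
    ∑ x, F x = ∑ x : Fin m → Bool,
      (F (Fin.cons (α := fun _ => Bool) true x) + F (Fin.cons (α := fun _ => Bool) false x)) := by
  rw [← Equiv.sum_comp (Fin.consEquiv (fun _ : Fin (m + 1) => Bool)) F, Fintype.sum_prod_type,
    Fintype.sum_bool, ← sum_add_distrib]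
  rfl

theorem wt_cons {m : ℕ} (p : Fin (m + 1) → ℝ) (b : Bool) (x : Fin m → Bool) :
    wt p (Fin.cons (α := fun _ => Bool) b x) =
      (if b then p 0 else 1 - p 0) * wt (fun j => p j.succ) x := by
  unfold wt
  rw [Fin.prod_univ_succ]
  simp only [Fin.cons_zero, Fin.cons_succ]

theorem wt_nonneg {m : ℕ} {p : Fin m → ℝ} (hp : ∀ j, 0 ≤ p j ∧ p j ≤ 1) (x : Fin m → Bool) :
    0 ≤ wt p x := by
  unfold wt
  refine prod_nonneg fun j _ => ?_
  obtain ⟨h1, h2⟩ := hp j
  split_ifs <;> linarith

end Mgf

theorem mgf_proof : MgfStatement := by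
  intro m
  induction m with
  | zero =>
    intro p c ψ f _ _ _
    have h0 : ∀ x : Fin 0 → Bool, wt p x = 1 := fun x => by unfold wt; simp
    simp [h0]
  | succ m ih =>
    intro p c ψ f hp hf hψ
    have hp0 := hp 0
    set g : (Fin m → Bool) → ℝ := fun x =>
      p 0 * f (Fin.cons (α := fun _ => Bool) true x) +
        (1 - p 0) * f (Fin.cons (α := fun _ => Bool) false x) with hg
    have hgb : ∀ x j b, |g (Function.update x j b) - g x| ≤ c j.succ := by
      intro x j b
      have h1 := hf (Fin.cons (α := fun _ => Bool) true x) j.succ b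
      have h2 := hf (Fin.cons (α := fun _ => Bool) false x) j.succ b
      rw [← Fin.cons_update] at h1 h2
      have h3 : g (Function.update x j b) - g x =
          p 0 * (f (Fin.cons (α := fun _ => Bool) true (Function.update x j b)) -
            f (Fin.cons (α := fun _ => Bool) true x)) +
          (1 - p 0) * (f (Fin.cons (α := fun _ => Bool) false (Function.update x j b)) -
            f (Fin.cons (α := fun _ => Bool) false x)) := by
        simp only [hg]; ring
      rw [h3]
      rw [abs_le] at h1 h2 ⊢
      constructor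
      · nlinarith [mul_le_mul_of_nonneg_left h1.1 hp0.1,
          mul_le_mul_of_nonneg_left h2.1 (sub_nonneg.mpr hp0.2)]
      · nlinarith [mul_le_mul_of_nonneg_left h1.2 hp0.1,
          mul_le_mul_of_nonneg_left h2.2 (sub_nonneg.mpr hp0.2)]
    have key := ih (fun j => p j.succ) (fun j => c j.succ) (fun j => ψ j.succ) g
      (fun j => hp j.succ) hgb (fun j => hψ j.succ)
    have hmean : ∑ x, wt p x * f x = ∑ x : Fin m → Bool, wt (fun j => p j.succ) x * g x := by
      rw [Mgf.sum_cons]
      refine sum_congr rfl fun x _ => ?_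
      rw [Mgf.wt_cons, Mgf.wt_cons]
      simp only [hg, if_true, Bool.false_eq_true, if_false]
      ring
    have hexp : ∑ x, wt p x * Real.exp (f x) ≤
        Real.exp (ψ 0) * ∑ x : Fin m → Bool, wt (fun j => p j.succ) x * Real.exp (g x) := by
      rw [Mgf.sum_cons, mul_sum]
      refine sum_le_sum fun x _ => ?_
      rw [Mgf.wt_cons, Mgf.wt_cons]
      have hd : |f (Fin.cons (α := fun _ => Bool) true x) -
          f (Fin.cons (α := fun _ => Bool) false x)| ≤ c 0 := by
        have h := hf (Fin.cons (α := fun _ => Bool) false x) 0 true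
        rwa [Fin.update_cons_zero] at h
      have h1 := hψ 0 _ _ hd
      rw [Real.exp_add] at h1
      have h2 := mul_le_mul_of_nonneg_left h1
        (Mgf.wt_nonneg (fun j : Fin m => hp j.succ) x)
      simp only [if_true, Bool.false_eq_true, if_false, hg]
      calc _ = wt (fun j => p j.succ) x *
            (p 0 * Real.exp (f (Fin.cons (α := fun _ => Bool) true x)) +
              (1 - p 0) * Real.exp (f (Fin.cons (α := fun _ => Bool) false x))) := by ring
        _ ≤ _ := h2
        _ = _ := by ring
    calc ∑ x, wt p x * Real.exp (f x)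
        ≤ Real.exp (ψ 0) * ∑ x : Fin m → Bool, wt (fun j => p j.succ) x * Real.exp (g x) := hexp
      _ ≤ Real.exp (ψ 0) * Real.exp (∑ j : Fin m, ψ j.succ +
            ∑ x : Fin m → Bool, wt (fun j => p j.succ) x * g x) :=
          mul_le_mul_of_nonneg_left key (Real.exp_pos _).le
      _ = _ := by
          rw [← Real.exp_add, hmean, Fin.sum_univ_succ]
          congr 1
          ring

end Pool.Agent.Lib.MP_506ba8_co.P50
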