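import Pool.Agent.Lib.MP_506ba8_co.P50.Iface

/-!
Row Trn: truncation of the coordinates which are almost `1` or `-1`.
-/

open Finset

namespace Pool.Agent.Lib.MP_506ba8_co.P50

namespace Trn

/-- the truncation of one coordinate -/
noncomputable def c (e u : ℝ) : ℝ := max (-1) (min 1 (u / (1 - e)))

lemma c_cont (e : ℝ) : Continuous (c e) := by
  unfold c; fun_prop

lemma c_neg (e u : ℝ) : c e (-u) = -c e u := by
  unfold c
  have h1 : -u / (1 - e) = -(u / (1 - e)) := by ring
  rw [h1]
  generalize u / (1 - e) = t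
  rcases le_total t (-1) with h | h
  · rw [min_eq_left (by linarith : (1:ℝ) ≤ -t), min_eq_right (by linarith : t ≤ 1),
      max_eq_left h, max_eq_right (by norm_num)]; norm_num
  · rcases le_total t 1 with h' | h'
    · rw [min_eq_right (by linarith : -t ≤ 1), min_eq_right h', max_eq_right (by linarith),
        max_eq_right (by linarith)]
    · rw [min_eq_right (by linarith : -t ≤ 1), min_eq_left h', max_eq_left (by linarith),
        max_eq_right (by norm_num)]

/-- the facts for `0 ≤ u ≤ 1` -/
lemma c_nonneg {e u : ℝ} (he : 0 < e) (he1 : e < 1) (hu : 0 ≤ u) (hu1 : u ≤ 1) :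
    u ≤ c e u ∧ c e u ≤ 1 ∧ c e u - u ≤ e ∧ (c e u < 1 → e < 1 - u) := by
  have hp : 0 < 1 - e := by linarith
  have h0 : 0 ≤ u / (1 - e) := by positivity
  have h1 : u ≤ u / (1 - e) := by
    rw [le_div_iff₀ hp]; nlinarith
  have hmax : c e u = min 1 (u / (1 - e)) := by
    unfold c; exact max_eq_right (le_trans (by norm_num) (le_min zero_le_one h0))
  rw [hmax]
  refine ⟨le_min hu1 h1, min_le_left _ _, ?_, ?_⟩
  · rcases le_total 1 (u / (1 - e)) with h | h
    · rw [min_eq_left h]; rw [le_div_iff₀ hp] at h; linarith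
    · rw [min_eq_right h]
      have h2 : u ≤ 1 - e := by rwa [div_le_one hp] at h
      have h3 : u / (1 - e) - u = (u / (1 - e)) * e := by field_simp; ring
      rw [h3]; nlinarith
  · intro h
    have h2 : u / (1 - e) < 1 := by
      rcases min_lt_iff.mp h with h | h
      · exact absurd h (lt_irrefl _)
      · exact h
    rw [div_lt_one hp] at h2; linarith

lemma c_facts {e u : ℝ} (he : 0 < e) (he1 : e < 1) (hu : |u| ≤ 1) :
    |u| ≤ |c e u| ∧ |c e u| ≤ 1 ∧ |c e u - u| ≤ e ∧ |c e u - u| ≤ 1 - |u| ∧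
      (|c e u| < 1 → e < 1 - |u|) := by
  rcases le_total 0 u with h | h
  · rw [abs_of_nonneg h] at hu ⊢
    obtain ⟨h1, h2, h3, h4⟩ := c_nonneg he he1 h hu
    rw [abs_of_nonneg (by linarith : 0 ≤ c e u), abs_of_nonneg (by linarith : 0 ≤ c e u - u)]
    exact ⟨h1, h2, h3, by linarith, h4⟩
  · rw [abs_of_nonpos h] at hu ⊢
    obtain ⟨h1, h2, h3, h4⟩ := c_nonneg he he1 (by linarith : 0 ≤ -u) hu
    rw [c_neg] at h1 h2 h3 h4
    rw [abs_of_nonpos (by linarith : c e u ≤ 0), abs_of_nonpos (by linarith : c e u - u ≤ 0)]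
    exact ⟨h1, h2, by linarith, by linarith, h4⟩

end Trn

open Trn in
theorem trn_proof : TrnStatement := by
  intro m T hT
  have hT0 : 0 < T := by linarith
  set e : ℝ := 1 / T ^ 4 with he
  have he0 : 0 < e := by positivity
  have hT4 : (1 : ℝ) < T ^ 4 := by
    calc (1 : ℝ) < 2 ^ 4 := by norm_num
      _ ≤ T ^ 4 := pow_le_pow_left₀ (by norm_num) hT 4
  have he1 : e < 1 := by rw [he, div_lt_one (by positivity)]; exact hT4
  have hse : √e = 1 / T ^ 2 := by
    rw [he, Real.sqrt_eq_iff_mul_self_eq (by positivity) (by positivity)]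
    field_simp
  refine ⟨fun y j => c e (y j), ?_, ?_, ?_⟩
  · exact continuous_pi fun j => (c_cont e).comp (continuous_apply j)
  · intro y; funext j; exact c_neg e (y j)
  · intro y hy
    have key := fun j => c_facts he0 he1 (hy j)
    refine ⟨fun j => (key j).2.1, ?_, ?_, ?_⟩
    · unfold Psi
      refine Finset.sum_le_sum fun j _ => Real.sqrt_le_sqrt ?_
      have := (key j).1; linarith
    · unfold Psi
      rw [Finset.sum_div]
      refine Finset.sum_le_sum fun j _ => ?_
      obtain ⟨-, -, h3, h4, -⟩ := key j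
      have hd : 0 ≤ 1 - |y j| := by linarith [hy j]
      have : |c e (y j) - y j| ≤ √(1 - |y j|) * √e := by
        rw [← Real.sqrt_mul hd]
        apply Real.le_sqrt_of_sq_le
        rw [sq]
        exact mul_le_mul h4 h3 (abs_nonneg _) hd
      rw [hse] at this
      simpa [div_eq_mul_inv] using this
    · unfold Psi
      rw [Finset.mul_sum, Finset.card_eq_sum_ones, Finset.sum_filter]
      push_cast
      refine Finset.sum_le_sum fun j _ => ?_
      split_ifs with h
      · have h5 := (key j).2.2.2.2 h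
        have h6 : √e ≤ √(1 - |y j|) := Real.sqrt_le_sqrt h5.le
        rw [hse] at h6
        have h7 : 0 < T ^ 2 := by positivity
        calc (1 : ℝ) = T ^ 2 * (1 / T ^ 2) := by field_simp
          _ ≤ T ^ 2 * √(1 - |y j|) := mul_le_mul_of_nonneg_left h6 h7.le
      · positivity

end Pool.Agent.Lib.MP_506ba8_co.P50
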